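import Mathlib

set_option autoImplicit false

namespace Pool.Agent.Lib.MP_299528_co

open Finset

/-- First case of the two-class inequality. -/
theorem Q_case1 {a1 a2 l g1 u1 u2 v R1 R2 P P' n' e : ℝ} (ha1 : 0 ≤ a1) (ha2 : 0 ≤ a2)
    (hl0 : 0 < l) (hl1 : l ≤ 1) (hg1 : 1 ≤ g1) (hu1 : u1 ≤ 1) (hu2 : 0 ≤ u2)
    (hv0 : 0 ≤ v) (hv1 : v ≤ 1) (hR1 : R1 = g1 - v + u1) (hR2 : l * R2 = g1 + l * (u2 - v))
    (hR : R1 ≤ R2) (hP0 : 0 ≤ P) (hP1 : a1 * u1 ≤ (1 + a1) * P) (hP2 : a2 * u2 ≤ (1 + a2) * P)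
    (hQ2 : a2 * (1 - u2) ≤ (1 + a2) * P') (hPv : P ≤ v + e) (he : 0 ≤ e)
    (hn2 : a2 * (P + P' + R2 - 1) ≤ n') (hc : l * a1 ≤ a2) :
    l * (a1 * (l * R2)) + a2 * R1 ≤ l * (2 * (n' + P + P') + a1 * e) := by
  have hG : u1 - (1 - l) * v ≤ l * R2 := by
    by_cases h : u1 ≤ v
    · have : l * (g1 - v + u1) ≤ l * R2 := hR1 ▸ mul_le_mul_of_nonneg_left hR hl0.le
      linarith [mul_nonneg hl0.le (sub_nonneg.mpr (hv1.trans hg1)),
        mul_nonneg (sub_nonneg.mpr hl1) (sub_nonneg.mpr h)]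
    · push Not at h
      by_cases h2 : l ≤ 1 / 2
      · linarith [mul_nonneg hl0.le hu2, mul_nonneg hv0 (by linarith : 0 ≤ 1 - 2 * l)]
      · push Not at h2
        have : l * (g1 - v + u1) ≤ l * R2 := hR1 ▸ mul_le_mul_of_nonneg_left hR hl0.le
        linarith [mul_nonneg hl0.le (sub_nonneg.mpr hg1),
          mul_nonneg (sub_nonneg.mpr hl1) (sub_nonneg.mpr hu1),
          mul_nonneg (by linarith : 0 ≤ 2 * l - 1) (sub_nonneg.mpr hv1)]
  have h1 : (u1 - (1 - l) * v) * (a2 - l * a1) ≤ (l * R2) * (a2 - l * a1) :=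
    mul_le_mul_of_nonneg_right hG (by linarith)
  have h2 : (1 - l) * a1 * P ≤ (1 - l) * a1 * (v + e) :=
    mul_le_mul_of_nonneg_left hPv (mul_nonneg (by linarith) ha1)
  have h3 : 0 ≤ (a2 - l * a1) * P := mul_nonneg (by linarith) hP0
  have h4 : a1 * u1 + a2 * u2 ≤ 2 * (1 + a2) * P + (1 - l) * a1 * v + a1 * e := by
    linarith [mul_nonneg (mul_nonneg hl0.le ha1) he]
  have h5 : a2 * (R2 - u2) + (1 + a2) * P ≤ n' + P + P' := by linarith
  have h6 := mul_le_mul_of_nonneg_left h4 hl0.le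
  have h7 := mul_le_mul_of_nonneg_left h5 hl0.le
  have h8 : g1 = l * R2 - l * (u2 - v) := by linarith
  subst hR1
  rw [h8]
  linarith

/-- Second case of the two-class inequality. -/
theorem Q_case2 {a1 a2 l g1 u1 u2 v R1 R2 P P' n' e : ℝ} (ha2 : 0 ≤ a2)
    (hl0 : 0 < l) (hl1 : l ≤ 1) (hu1' : 0 ≤ u1) (hu2' : u2 ≤ 1)
    (hR1 : R1 = g1 - v + u1) (hR2 : l * R2 = g1 + l * (u2 - v))
    (hP1 : a1 * u1 ≤ (1 + a1) * P) (hP2 : a2 * u2 ≤ (1 + a2) * P)
    (hQ1 : a1 * (1 - u1) ≤ (1 + a1) * P') (hQv : P' ≤ 1 - v + e) (he : 0 ≤ e)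
    (hn1 : a1 * (P + P' + R1 - 1) ≤ n')
    (hn2 : a2 * (P + P' + R2 - 1) ≤ n') (hc : a2 < l * a1)
    (hd : (l * a1 - a2) * (1 + a1) ≤ l * a1 * (1 + a2)) :
    l * (a1 * (l * R2)) + a2 * R1 ≤ l * (2 * (n' + P + P') + a1 * e) := by
  have ha1 : 0 < a1 := by
    by_contra h
    push Not at h
    linarith [mul_nonneg hl0.le (neg_nonneg.mpr h)]
  have hA1 : 0 < 1 + a1 := by linarith
  have ha12 : a2 ≤ a1 := by linarith [mul_nonneg (sub_nonneg.mpr hl1) ha1.le]
  set D := l * a1 - a2 with hD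
  have hD0 : 0 < D := by linarith
  set S2 := (1 + a2) * (P + P') - a2 with hS2
  have hS1 : a1 ≤ (1 + a1) * (P + P') := by linarith
  -- the two lower bounds for the surplus of the second class
  have hb1 : a1 - a2 ≤ (1 + a1) * S2 := by
    have := mul_le_mul_of_nonneg_left hS1 (by linarith : 0 ≤ 1 + a2)
    rw [hS2]
    linarith
  have hb2 : (1 + a2) * a1 * (1 - u1) + (1 + a1) * a2 * (u2 - 1) ≤ (1 + a1) * S2 := by
    have h1 := mul_le_mul_of_nonneg_left hQ1 (by linarith : 0 ≤ 1 + a2)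
    have h2 := mul_le_mul_of_nonneg_left hP2 hA1.le
    rw [hS2]
    linarith
  have hy : (1 + a1) * (v - u1) ≤ 1 + (1 + a1) * e := by
    have := mul_le_mul_of_nonneg_left hQv hA1.le
    linarith
  have hS20 : 0 ≤ S2 := by
    by_contra h
    push Not at h
    linarith [mul_pos hA1 (neg_pos.mpr h)]
  have k1 : (1 + a1) * ((u2 - u1) * D) ≤ l * ((1 + a1) * S2) := by
    by_cases h : u2 ≤ u1
    · have h1 : (u2 - u1) * D ≤ 0 := mul_nonpos_of_nonpos_of_nonneg (by linarith) hD0.le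
      have h2 : 0 ≤ l * ((1 + a1) * S2) := by positivity
      linarith [mul_nonneg hA1.le (neg_nonneg.mpr h1)]
    · push Not at h
      have h1 : (u2 - u1) * (D * (1 + a1)) ≤ (u2 - u1) * (l * a1 * (1 + a2)) :=
        mul_le_mul_of_nonneg_left hd (by linarith)
      have h2 : a1 * (1 + a2) * (u2 - u1) ≤ (1 + a1) * S2 := by
        linarith [mul_nonneg (sub_nonneg.mpr ha12) (sub_nonneg.mpr hu2')]
      have h3 := mul_le_mul_of_nonneg_left h2 hl0.le
      linarith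
  have k2 : (1 + a1) * ((v - u1) * D) ≤ l * ((1 + a1) * S2) + (1 + a1) * (e * (l * a1)) := by
    have h1 := mul_le_mul_of_nonneg_right hy hD0.le
    have h2 : D ≤ l * (a1 - a2) := by linarith [mul_nonneg (sub_nonneg.mpr hl1) ha2]
    have h3 := mul_le_mul_of_nonneg_left hb1 hl0.le
    have h4 : (1 + a1) * e * D ≤ (1 + a1) * e * (l * a1) :=
      mul_le_mul_of_nonneg_left (by linarith) (by positivity)
    linarith
  have k1' : (u2 - u1) * D ≤ l * S2 := by
    have : (1 + a1) * ((u2 - u1) * D) ≤ (1 + a1) * (l * S2) := by linarith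
    exact le_of_mul_le_mul_left this hA1
  have k2' : (v - u1) * D ≤ l * S2 + e * (l * a1) := by
    have : (1 + a1) * ((v - u1) * D) ≤ (1 + a1) * (l * S2 + e * (l * a1)) := by linarith
    exact le_of_mul_le_mul_left this hA1
  have k3 : (l * R2 - R1) * D ≤ l * S2 + e * (l * a1) := by
    have e1 : l * R2 - R1 = l * (u2 - u1) + (1 - l) * (v - u1) := by rw [hR2, hR1]; ring
    have h1 := mul_le_mul_of_nonneg_left k1' hl0.le
    have h2 := mul_le_mul_of_nonneg_left k2' (sub_nonneg.mpr hl1)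
    have h3 : 0 ≤ l * (e * (l * a1)) := by positivity
    rw [e1]
    linarith
  have k4 : a1 * R1 + a2 * R2 + S2 ≤ 2 * (n' + P + P') := by
    rw [hS2]
    linarith
  have k5 := mul_le_mul_of_nonneg_left k4 hl0.le
  rw [hD] at k3
  linarith

/-- Third case of the two-class inequality. -/
theorem Q_case3 {a1 a2 l g1 u1 u2 v R1 R2 P P' n' e : ℝ} (ha2 : 0 ≤ a2)
    (hl0 : 0 < l) (hl1 : l ≤ 1) (hu2 : 0 ≤ u2) (hu2' : u2 ≤ 1)
    (hR1 : R1 = g1 - v + u1) (hR2 : l * R2 = g1 + l * (u2 - v)) (hR : 1 ≤ R1)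
    (hP1 : a1 * u1 ≤ (1 + a1) * P) (hP2 : a2 * u2 ≤ (1 + a2) * P)
    (hQ1 : a1 * (1 - u1) ≤ (1 + a1) * P') (hQv : P' ≤ 1 - v + e) (he : 0 ≤ e)
    (hn1 : a1 * (P + P' + R1 - 1) ≤ n') (hc : a2 < l * a1)
    (hd : l * a1 * (1 + a2) < (l * a1 - a2) * (1 + a1)) :
    l * (a1 * (l * R2)) + a2 * R1 ≤ l * (2 * (n' + P + P') + a1 * e) := by
  have ha1 : 0 < a1 := by
    by_contra h
    push Not at h
    linarith [mul_nonneg hl0.le (neg_nonneg.mpr h)]
  have hA1 : 0 < 1 + a1 := by linarith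
  have hA2 : 0 < 1 + a2 := by linarith
  set D := l * a1 - a2 with hD
  have hD0 : 0 < D := by linarith
  obtain ⟨r1, hr1⟩ : ∃ r, a1 = r * (1 + a1) := ⟨a1 / (1 + a1), by field_simp⟩
  obtain ⟨r2, hr2⟩ : ∃ r, a2 = r * (1 + a2) := ⟨a2 / (1 + a2), by field_simp⟩
  have hr1' : (1 - r1) * (1 + a1) = 1 := by linarith
  have hr10 : 0 < r1 := by
    by_contra h
    push Not at h
    linarith [mul_nonneg (neg_nonneg.mpr h) hA1.le]
  have hr11 : r1 < 1 := by
    by_contra h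
    push Not at h
    linarith [mul_nonneg (sub_nonneg.mpr h) hA1.le]
  have p1 : r1 * u1 ≤ P := by
    have : (1 + a1) * (r1 * u1) ≤ (1 + a1) * P := by
      have : (1 + a1) * (r1 * u1) = a1 * u1 := by linear_combination (-u1) * hr1
      linarith
    exact le_of_mul_le_mul_left this hA1
  have p2 : r2 * u2 ≤ P := by
    have : (1 + a2) * (r2 * u2) ≤ (1 + a2) * P := by
      have : (1 + a2) * (r2 * u2) = a2 * u2 := by linear_combination (-u2) * hr2
      linarith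
    exact le_of_mul_le_mul_left this hA2
  have q1 : r1 * (1 - u1) ≤ P' := by
    have : (1 + a1) * (r1 * (1 - u1)) ≤ (1 + a1) * P' := by
      have : (1 + a1) * (r1 * (1 - u1)) = a1 * (1 - u1) := by linear_combination (-(1 - u1)) * hr1
      linarith
    exact le_of_mul_le_mul_left this hA1
  set x := r2 * u2 - r1 * u1 with hx
  set s := P + P' - r1 with hs
  have hs0 : 0 ≤ s := by rw [hs]; linarith
  have hsx : x ≤ s := by rw [hs, hx]; linarith
  have hy : v - u1 ≤ (1 - r1) * (1 - u1) + e := by linarith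
  -- the two end point estimates
  have t0 : l * (1 + a1) * ((1 - l) * (1 - r1) * r1) ≤ D := by
    have h1 : l * (1 + a1) * ((1 - l) * (1 - r1) * r1) = l * (1 - l) * r1 := by
      linear_combination l * (1 - l) * r1 * hr1'
    have h2 : (l * r1 * (1 + a2)) * (1 + a1) < D * (1 + a1) := by
      have : (l * r1 * (1 + a2)) * (1 + a1) = l * a1 * (1 + a2) := by
        linear_combination (-(l * (1 + a2))) * hr1
      linarith
    have h3 := lt_of_mul_lt_mul_right h2 hA1.le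
    have h4 : 0 ≤ l * r1 * (a2 + l) := by positivity
    linarith
  have t1 : l * (1 + a1) * ((r1 - r2) * (l + (1 - l) * (1 - r1))) ≤ D := by
    have h1 : a2 * (1 + l * a1) < D * a1 := by linarith
    have h2 : (1 + a1) * (1 + a2) * (r1 - r2) = a1 - a2 := by
      linear_combination (-(1 + a2)) * hr1 + (1 + a1) * hr2
    have h3 : (1 + a1) * (l + (1 - l) * (1 - r1)) = 1 + l * a1 := by
      linear_combination (1 - l) * hr1'
    have h4 : (l * (1 + a1) * ((r1 - r2) * (l + (1 - l) * (1 - r1)))) * ((1 + a1) * (1 + a2)) =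
        l * (a1 - a2) * (1 + l * a1) := by
      calc _ = l * ((1 + a1) * (1 + a2) * (r1 - r2)) * ((1 + a1) * (l + (1 - l) * (1 - r1))) := by
            ring
        _ = _ := by rw [h2, h3]
    have h5 : l * (a1 - a2) * (1 + l * a1) ≤ D * ((1 + a1) * (1 + a2)) := by
      have h6 := mul_le_mul_of_nonneg_left h1.le (sub_nonneg.mpr hl1)
      have h7 : 0 ≤ a2 * D * (1 + a1) := by positivity
      have h8 : l * (a1 - a2) = D + (1 - l) * a2 := by rw [hD]; ring
      rw [h8]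
      linarith
    rw [← h4] at h5
    exact le_of_mul_le_mul_right h5 (by positivity)
  have t2 : l * (1 + a1) * (l * ((r1 - r2) * u2) + (1 - l) * (1 - r1) * (r1 - r2 * u2)) ≤ D := by
    have h1 := mul_le_mul_of_nonneg_left t0 (sub_nonneg.mpr hu2')
    have h2 := mul_le_mul_of_nonneg_left t1 hu2
    linarith
  have hco0 : 0 ≤ l + (1 - l) * (1 - r1) := by
    linarith [mul_nonneg (sub_nonneg.mpr hl1) (sub_nonneg.mpr hr11.le)]
  have hco1 : l + (1 - l) * (1 - r1) ≤ 1 := by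
    linarith [mul_nonneg (sub_nonneg.mpr hl1) hr10.le]
  have t3 : x * (l + (1 - l) * (1 - r1)) ≤ s := by
    have h1 := mul_le_mul_of_nonneg_right hsx hco0
    linarith [mul_le_mul_of_nonneg_left hco1 hs0]
  have t4 : r1 * (l * R2 - R1) ≤
      l * ((r1 - r2) * u2) + (1 - l) * (1 - r1) * (r1 - r2 * u2) + s + r1 * e := by
    have e1 : l * R2 - R1 = l * (u2 - u1) + (1 - l) * (v - u1) := by rw [hR2, hR1]; ring
    have h1 := mul_le_mul_of_nonneg_left hy (mul_nonneg hr10.le (sub_nonneg.mpr hl1))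
    have h2 : 0 ≤ r1 * l * e := by positivity
    rw [e1]
    rw [hx] at t3
    linarith
  have t5 := mul_le_mul_of_nonneg_left t4 (mul_nonneg hl0.le hA1.le)
  have t6 : l * a1 * (l * R2 - R1) ≤ D + l * ((1 + a1) * s) + l * a1 * e := by
    have e1 : l * (1 + a1) * (r1 * (l * R2 - R1)) = l * a1 * (l * R2 - R1) := by
      linear_combination (-(l * (l * R2 - R1))) * hr1
    have e2 : l * (1 + a1) * (r1 * e) = l * a1 * e := by
      linear_combination (-(l * e)) * hr1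
    linarith
  have t7 : a1 * R1 + (1 + a1) * s ≤ n' + P + P' := by
    rw [hs]
    linarith
  have t8 := mul_le_mul_of_nonneg_left t7 hl0.le
  have t9 : D ≤ R1 * D := by linarith [mul_nonneg (sub_nonneg.mpr hR) hD0.le]
  have t10 : 0 ≤ l * ((1 + a1) * s) := by positivity
  rw [hD] at t6 t9
  linarith

/-- The two-class inequality, normalized form. -/
theorem Q_norm {a1 a2 g1 g2 u1 u2 v R1 R2 P P' n' e : ℝ} (ha1 : 0 ≤ a1) (ha2 : 0 ≤ a2)
    (hg1 : 1 ≤ g1) (hg : g1 ≤ g2) (hu1 : 0 ≤ u1) (hu1' : u1 ≤ 1) (hu2 : 0 ≤ u2) (hu2' : u2 ≤ 1)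
    (hv0 : 0 ≤ v) (hv1 : v ≤ 1) (hR1 : R1 = g1 - v + u1) (hR2 : R2 = g2 - v + u2) (hR0 : 1 ≤ R1)
    (hR : R1 ≤ R2) (hP0 : 0 ≤ P) (hP1 : a1 * u1 ≤ (1 + a1) * P) (hP2 : a2 * u2 ≤ (1 + a2) * P)
    (hQ1 : a1 * (1 - u1) ≤ (1 + a1) * P') (hQ2 : a2 * (1 - u2) ≤ (1 + a2) * P')
    (hPv : P ≤ v + e) (hQv : P' ≤ 1 - v + e) (he : 0 ≤ e)
    (hn1 : a1 * (P + P' + R1 - 1) ≤ n') (hn2 : a2 * (P + P' + R2 - 1) ≤ n') :
    g1 * a1 * (R2 / g2) + g2 * a2 * (R1 / g1) ≤ 2 * (n' + P + P') + a1 * e := by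
  have hg10 : 0 < g1 := by linarith
  have hg20 : 0 < g2 := by linarith
  have hl0 : 0 < g1 / g2 := by positivity
  have hl1 : g1 / g2 ≤ 1 := (div_le_one hg20).mpr hg
  have hR2' : g1 / g2 * R2 = g1 + g1 / g2 * (u2 - v) := by
    rw [hR2]
    field_simp
    ring
  have key : g1 / g2 * (a1 * (g1 / g2 * R2)) + a2 * R1 ≤
      g1 / g2 * (2 * (n' + P + P') + a1 * e) := by
    by_cases hc : g1 / g2 * a1 ≤ a2
    · exact Q_case1 ha1 ha2 hl0 hl1 hg1 hu1' hu2 hv0 hv1 hR1 hR2' hR hP0 hP1 hP2 hQ2 hPv he hn2 hc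
    · push Not at hc
      by_cases hd : (g1 / g2 * a1 - a2) * (1 + a1) ≤ g1 / g2 * a1 * (1 + a2)
      · exact Q_case2 ha2 hl0 hl1 hu1 hu2' hR1 hR2' hP1 hP2 hQ1 hQv he hn1 hn2 hc hd
      · push Not at hd
        exact Q_case3 ha2 hl0 hl1 hu2 hu2' hR1 hR2' hR0 hP1 hP2 hQ1 hQv he hn1 hc hd
  have e1 : g1 / g2 * (a1 * (g1 / g2 * R2)) + a2 * R1 =
      g1 / g2 * (g1 * a1 * (R2 / g2) + g2 * a2 * (R1 / g1)) := by
    field_simp
  rw [e1] at key
  exact le_of_mul_le_mul_left key hl0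

/-- The inequality between a light class and the heavy class, normalized form. -/
theorem Qh_norm {a g u v R P P' n' e b : ℝ} (ha : 0 ≤ a) (hg : 1 ≤ g) (hu : 0 ≤ u) (hu' : u ≤ 1)
    (hv0 : 0 ≤ v) (hR : R = g - v + u) (hP : a * u ≤ (1 + a) * P)
    (hQ : a * (1 - u) ≤ (1 + a) * P') (hPv : P ≤ v + e) (hQv : P' ≤ 1 - v + e) (he : 0 ≤ e)
    (hn : a * (P + P' + R - 1) ≤ n') (hb0 : 0 ≤ b) (hb : b ≤ n') :
    g * a + b * (R / g) ≤ 2 * (n' + P + P') + a * e := by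
  have hA : 0 < 1 + a := by linarith
  have hg0 : 0 < g := by linarith
  obtain ⟨r, hr⟩ : ∃ r, a = r * (1 + a) := ⟨a / (1 + a), by field_simp⟩
  have hr0 : 0 ≤ r := by
    by_contra h
    push Not at h
    linarith [mul_pos (neg_pos.mpr h) hA]
  have p1 : r * u ≤ P := by
    have : (1 + a) * (r * u) ≤ (1 + a) * P := by
      have : (1 + a) * (r * u) = a * u := by linear_combination (-u) * hr
      linarith
    exact le_of_mul_le_mul_left this hA
  have q1 : r * (1 - u) ≤ P' := by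
    have : (1 + a) * (r * (1 - u)) ≤ (1 + a) * P' := by
      have : (1 + a) * (r * (1 - u)) = a * (1 - u) := by linear_combination (-(1 - u)) * hr
      linarith
    exact le_of_mul_le_mul_left this hA
  have hB : a * R ≤ n' + P + P' := by linarith
  have hJ : b + r ≤ n' + P + P' := by linarith
  have hy1 : a * (u - v) ≤ r + a * e := by
    have h1 : u - v ≤ (1 - r) * u + e := by linarith
    have h2 := mul_le_mul_of_nonneg_left h1 ha
    have h3 : a * ((1 - r) * u) = r * u := by linear_combination u * hr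
    linarith [mul_nonneg hr0 (sub_nonneg.mpr hu')]
  have hy2 : a * (v - u) ≤ r + a * e := by
    have h1 : v - u ≤ (1 - r) * (1 - u) + e := by linarith
    have h2 := mul_le_mul_of_nonneg_left h1 ha
    have h3 : a * ((1 - r) * (1 - u)) = r * (1 - u) := by linear_combination (1 - u) * hr
    linarith [mul_nonneg hr0 hu]
  obtain ⟨t, ht⟩ : ∃ t, u - v = t * g := ⟨(u - v) / g, by field_simp⟩
  have e1 : R / g = 1 + t := by
    rw [hR, div_eq_iff hg0.ne']
    linarith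
  have e2 : a * R = g * a + a * (u - v) := by rw [hR]; ring
  have hae : 0 ≤ a * e := by positivity
  rw [e1]
  by_cases h : t ≤ 0
  · linarith [mul_nonneg hb0 (neg_nonneg.mpr h)]
  · push Not at h
    by_cases h2 : b * t ≤ a * (u - v) + r
    · linarith
    · push Not at h2
      have ht1 : t ≤ 1 := by
        by_contra h3
        push Not at h3
        linarith [mul_pos (sub_pos.mpr h3) hg0]
      have h3 : (g * a) * t < b * t := by
        have : a * (u - v) = g * a * t := by rw [ht]; ring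
        linarith
      have h4 := lt_of_mul_lt_mul_right h3 h.le
      have h5 := mul_le_mul_of_nonneg_right h4.le (sub_nonneg.mpr ht1)
      have h6 : a * (u - v) = g * a * t := by rw [ht]; ring
      linarith

theorem exists_scale {p : ℝ} (hp : 0 < p) (X : ℝ) : ∃ x, X = p * x := ⟨X / p, by field_simp⟩

theorem exists_cap {A : ℝ} (hA : 0 ≤ A) :
    ∃ t : ℝ, 0 ≤ t ∧ t ≤ 1 ∧ t ≤ A ∧ ∀ a, a ≤ A → a ≤ (1 + a) * t := by
  have h1 : 0 < 1 + A := by linarith
  refine ⟨A / (1 + A), by positivity, (div_le_one h1).mpr (by linarith), ?_, fun a ha => ?_⟩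
  · rw [div_le_iff₀ h1]
    linarith [mul_nonneg hA hA]
  · rw [← mul_div_assoc, le_div_iff₀ h1]
    linarith

/-- The two-class inequality with masses and error terms. -/
theorem Q_hom {a1 a2 g1 g2 U1 U2 V R1 R2 P P' n' E p A Γ : ℝ} (hp : 0 < p) (ha1 : 0 ≤ a1)
    (ha2 : 0 ≤ a2) (hA1 : a1 ≤ A) (hA2 : a2 ≤ A) (hΓ : 0 ≤ Γ)
    (hg1 : 1 ≤ g1) (hg : g1 ≤ g2) (hu1 : 0 ≤ U1) (hu1' : U1 ≤ p) (hu2 : 0 ≤ U2) (hu2' : U2 ≤ p)
    (hv0 : 0 ≤ V) (hv1 : V ≤ p) (hR1 : R1 = g1 * p - V + U1) (hR2 : R2 = g2 * p - V + U2)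
    (hR0 : p ≤ R1) (hR : R1 ≤ R2) (hP0 : 0 ≤ P) (hE : 0 ≤ E)
    (hP1 : a1 * (U1 - E) ≤ (1 + a1) * P) (hP2 : a2 * (U2 - E) ≤ (1 + a2) * P)
    (hQ1 : a1 * (p - U1 - E) ≤ (1 + a1) * P') (hQ2 : a2 * (p - U2 - E) ≤ (1 + a2) * P')
    (hPv : P ≤ V) (hQv : P' ≤ p - V)
    (hn1 : a1 * (P + P' + R1 - p - (Γ + 1) * E) ≤ n')
    (hn2 : a2 * (P + P' + R2 - p - (Γ + 1) * E) ≤ n') :
    g1 * a1 * (R2 / g2) + g2 * a2 * (R1 / g1) ≤ 2 * (n' + P + P') + 2 * A * (Γ + 6) * E := by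
  have hA : 0 ≤ A := ha1.trans hA1
  obtain ⟨t, ht0, ht1, htA, ht⟩ := exists_cap hA
  obtain ⟨u1, rfl⟩ := exists_scale hp U1
  obtain ⟨u2, rfl⟩ := exists_scale hp U2
  obtain ⟨v, rfl⟩ := exists_scale hp V
  obtain ⟨r1, rfl⟩ := exists_scale hp R1
  obtain ⟨r2, rfl⟩ := exists_scale hp R2
  obtain ⟨P, rfl⟩ := exists_scale hp P
  obtain ⟨P', rfl⟩ := exists_scale hp P'
  obtain ⟨n', rfl⟩ := exists_scale hp n'
  obtain ⟨E, rfl⟩ := exists_scale hp E
  have c : ∀ {x y : ℝ}, p * x ≤ p * y → x ≤ y := fun h => le_of_mul_le_mul_left h hp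
  have hE' : 0 ≤ E := c (by linarith)
  have k1 := mul_le_mul_of_nonneg_right (ht a1 hA1) hE'
  have k2 := mul_le_mul_of_nonneg_right (ht a2 hA2) hE'
  have hP1' : a1 * (u1 - E) ≤ (1 + a1) * P := c (by linarith)
  have hP2' : a2 * (u2 - E) ≤ (1 + a2) * P := c (by linarith)
  have hQ1' : a1 * (1 - u1 - E) ≤ (1 + a1) * P' := c (by linarith)
  have hQ2' : a2 * (1 - u2 - E) ≤ (1 + a2) * P' := c (by linarith)
  have hn1' : a1 * (P + P' + r1 - 1 - (Γ + 1) * E) ≤ n' := c (by linarith)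
  have hn2' : a2 * (P + P' + r2 - 1 - (Γ + 1) * E) ≤ n' := c (by linarith)
  have hP0' : 0 ≤ P := c (by linarith)
  have htE : 0 ≤ t * E := by positivity
  have htE1 : t * E ≤ E := by linarith [mul_le_mul_of_nonneg_right ht1 hE']
  have htEA : t * E ≤ A * E := mul_le_mul_of_nonneg_right htA hE'
  have hX : 0 ≤ (Γ + 1) * E + 2 * (t * E) := by positivity
  have hX' : A * ((Γ + 1) * E + 2 * (t * E)) ≤ A * ((Γ + 3) * E) :=
    mul_le_mul_of_nonneg_left (by linarith) hA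
  have m1 := mul_le_mul_of_nonneg_right hA1 hX
  have m2 := mul_le_mul_of_nonneg_right hA2 hX
  have key := Q_norm (a1 := a1) (a2 := a2) (g1 := g1) (g2 := g2) (u1 := u1) (u2 := u2) (v := v)
    (R1 := r1) (R2 := r2) (P := P + t * E) (P' := P' + t * E) (n' := n' + A * ((Γ + 3) * E))
    (e := t * E) ha1 ha2 hg1 hg (c (by linarith)) (c (by linarith)) (c (by linarith))
    (c (by linarith)) (c (by linarith)) (c (by linarith))
    (mul_left_cancel₀ hp.ne' (by linarith)) (mul_left_cancel₀ hp.ne' (by linarith))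
    (c (by linarith)) (c (by linarith)) (by linarith) (by linarith) (by linarith) (by linarith)
    (by linarith) (by linarith [c hPv]) (by linarith [c (x := P') (y := 1 - v) (by linarith)]) htE
    (by linarith) (by linarith)
  have m3 : a1 * (t * E) ≤ A * E :=
    (mul_le_mul_of_nonneg_right hA1 htE).trans (mul_le_mul_of_nonneg_left htE1 hA)
  have m4 : 0 ≤ A * E := by positivity
  have key2 : g1 * a1 * (r2 / g2) + g2 * a2 * (r1 / g1) ≤
      2 * (n' + P + P') + 2 * A * (Γ + 6) * E := by linarith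
  have := mul_le_mul_of_nonneg_left key2 hp.le
  rw [mul_div_assoc, mul_div_assoc]
  linarith

/-- The light and heavy inequality with masses and error terms. -/
theorem Qh_hom {a g U V R P P' n' E p A Γ B : ℝ} (hp : 0 < p) (ha : 0 ≤ a) (hA1 : a ≤ A)
    (hΓ : 0 ≤ Γ) (hg : 1 ≤ g) (hu : 0 ≤ U) (hu' : U ≤ p) (hv0 : 0 ≤ V)
    (hR : R = g * p - V + U) (hE : 0 ≤ E)
    (hP : a * (U - E) ≤ (1 + a) * P) (hQ : a * (p - U - E) ≤ (1 + a) * P')
    (hPv : P ≤ V) (hQv : P' ≤ p - V) (hn : a * (P + P' + R - p - (Γ + 1) * E) ≤ n')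
    (hB0 : 0 ≤ B) (hB : B ≤ n') :
    g * a * p * p + B * (R / g) ≤ p * (2 * (n' + P + P') + 2 * A * (Γ + 6) * E) := by
  have hA : 0 ≤ A := ha.trans hA1
  obtain ⟨t, ht0, ht1, htA, ht⟩ := exists_cap hA
  obtain ⟨u, rfl⟩ := exists_scale hp U
  obtain ⟨v, rfl⟩ := exists_scale hp V
  obtain ⟨r, rfl⟩ := exists_scale hp R
  obtain ⟨P, rfl⟩ := exists_scale hp P
  obtain ⟨P', rfl⟩ := exists_scale hp P'
  obtain ⟨n', rfl⟩ := exists_scale hp n'
  obtain ⟨E, rfl⟩ := exists_scale hp E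
  obtain ⟨b, rfl⟩ := exists_scale hp B
  have c : ∀ {x y : ℝ}, p * x ≤ p * y → x ≤ y := fun h => le_of_mul_le_mul_left h hp
  have hE' : 0 ≤ E := c (by linarith)
  have k1 := mul_le_mul_of_nonneg_right (ht a hA1) hE'
  have hP' : a * (u - E) ≤ (1 + a) * P := c (by linarith)
  have hQ' : a * (1 - u - E) ≤ (1 + a) * P' := c (by linarith)
  have hn' : a * (P + P' + r - 1 - (Γ + 1) * E) ≤ n' := c (by linarith)
  have htE : 0 ≤ t * E := by positivity
  have htE1 : t * E ≤ E := by linarith [mul_le_mul_of_nonneg_right ht1 hE']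
  have htEA : t * E ≤ A * E := mul_le_mul_of_nonneg_right htA hE'
  have hX : 0 ≤ (Γ + 1) * E + 2 * (t * E) := by positivity
  have hX' : A * ((Γ + 1) * E + 2 * (t * E)) ≤ A * ((Γ + 3) * E) :=
    mul_le_mul_of_nonneg_left (by linarith) hA
  have m1 := mul_le_mul_of_nonneg_right hA1 hX
  have m5 : 0 ≤ A * ((Γ + 3) * E) := by positivity
  have key := Qh_norm (a := a) (g := g) (u := u) (v := v) (R := r) (P := P + t * E)
    (P' := P' + t * E) (n' := n' + A * ((Γ + 3) * E)) (e := t * E) (b := b) ha hg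
    (c (by linarith)) (c (by linarith)) (c (by linarith))
    (mul_left_cancel₀ hp.ne' (by linarith)) (by linarith) (by linarith)
    (by linarith [c hPv]) (by linarith [c (x := P') (y := 1 - v) (by linarith)]) htE
    (by linarith) (c (by linarith)) (by linarith [c hB])
  have m3 : a * (t * E) ≤ A * E :=
    (mul_le_mul_of_nonneg_right hA1 htE).trans (mul_le_mul_of_nonneg_left htE1 hA)
  have m4 : 0 ≤ A * E := by positivity
  have key2 : g * a + b * (r / g) ≤ 2 * (n' + P + P') + 2 * A * (Γ + 6) * E := by linarith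
  have := mul_le_mul_of_nonneg_left key2 (mul_pos hp hp).le
  rw [mul_div_assoc]
  linarith

/-- The inequality for one type: all pairs of classes put together. -/
theorem type_ineq (J : Finset ℕ) (a g U R E μ : ℕ → ℝ) {V P P' n' p A Γ B μh : ℝ} (hp : 0 < p)
    (hA : 0 ≤ A) (hΓ : 0 ≤ Γ) (ha : ∀ j ∈ J, 0 ≤ a j ∧ a j ≤ A) (hg : ∀ j ∈ J, 1 ≤ g j)
    (hU : ∀ j ∈ J, 0 ≤ U j ∧ U j ≤ p) (hv0 : 0 ≤ V) (hv1 : V ≤ p)
    (hR : ∀ j ∈ J, R j = g j * p - V + U j) (hR0 : ∀ j ∈ J, p ≤ R j)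
    (hRm : ∀ i ∈ J, ∀ j ∈ J, g i ≤ g j → R i ≤ R j) (hP0 : 0 ≤ P) (hQ0 : 0 ≤ P')
    (hE : ∀ j ∈ J, 0 ≤ E j) (hP : ∀ j ∈ J, a j * (U j - E j) ≤ (1 + a j) * P)
    (hQ : ∀ j ∈ J, a j * (p - U j - E j) ≤ (1 + a j) * P') (hPv : P ≤ V) (hQv : P' ≤ p - V)
    (hn : ∀ j ∈ J, a j * (P + P' + R j - p - (Γ + 1) * E j) ≤ n') (hB0 : 0 ≤ B) (hB : B ≤ n')
    (hμ : ∀ j ∈ J, 0 ≤ μ j) (hμh : 0 ≤ μh) (hsum : ∑ j ∈ J, μ j + μh = 1) :
    (p * ∑ j ∈ J, μ j * (g j * a j) + μh * B) * (∑ j ∈ J, μ j * (R j / g j) + μh * p) ≤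
      p * (n' + P + P' + 2 * A * (Γ + 6) * ∑ j ∈ J, μ j * E j) := by
  set n := n' + P + P' with hn0
  set C := A * (Γ + 6) with hC
  have hC0 : 0 ≤ C := by positivity
  have pair : ∀ i ∈ J, ∀ j ∈ J, g i * a i * (R j / g j) + g j * a j * (R i / g i) ≤
      2 * n + 2 * C * (E i + E j) := by
    have one : ∀ i ∈ J, ∀ j ∈ J, g i ≤ g j → g i * a i * (R j / g j) + g j * a j * (R i / g i) ≤
        2 * n + 2 * C * (E i + E j) := by
      intro i hi j hj hij
      have e1 := mul_nonneg (ha i hi).1 (hE j hj)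
      have e2 := mul_nonneg (ha j hj).1 (hE i hi)
      have e3 := mul_nonneg e1 (by linarith : 0 ≤ Γ + 1)
      have e4 := mul_nonneg e2 (by linarith : 0 ≤ Γ + 1)
      have := Q_hom (E := E i + E j) (P := P) (P' := P') (n' := n') hp (ha i hi).1 (ha j hj).1
        (ha i hi).2 (ha j hj).2 hΓ (hg i hi) hij
        (hU i hi).1 (hU i hi).2 (hU j hj).1 (hU j hj).2 hv0 hv1 (hR i hi) (hR j hj) (hR0 i hi)
        (hRm i hi j hj hij) hP0 (add_nonneg (hE i hi) (hE j hj)) (by linarith [hP i hi])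
        (by linarith [hP j hj]) (by linarith [hQ i hi]) (by linarith [hQ j hj]) hPv hQv
        (by linarith [hn i hi]) (by linarith [hn j hj])
      rw [hC, hn0]
      linarith
    intro i hi j hj
    rcases le_total (g i) (g j) with h | h
    · exact one i hi j hj h
    · linarith [one j hj i hi h]
  have ph : ∀ j ∈ J, g j * a j * p * p + B * (R j / g j) ≤ p * (2 * n + 2 * C * E j) := by
    intro j hj
    have := Qh_hom (P := P) (P' := P') (n' := n') hp (ha j hj).1 (ha j hj).2 hΓ (hg j hj)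
      (hU j hj).1 (hU j hj).2 hv0 (hR j hj) (hE j hj) (hP j hj) (hQ j hj) hPv hQv (hn j hj) hB0 hB
    rw [hC, hn0]
    linarith
  set M := ∑ j ∈ J, μ j with hM
  set X := ∑ j ∈ J, μ j * (g j * a j) with hX
  set Y := ∑ j ∈ J, μ j * (R j / g j) with hY
  set Z := ∑ j ∈ J, μ j * E j with hZ
  have hZ0 : 0 ≤ Z := sum_nonneg (fun j hj => mul_nonneg (hμ j hj) (hE j hj))
  have s1 : 2 * (X * Y) ≤ 2 * n * (M * M) + 4 * C * (M * Z) := by
    have e1 : 2 * (X * Y) = ∑ i ∈ J, ∑ j ∈ J, μ i * μ j *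
        (g i * a i * (R j / g j) + g j * a j * (R i / g i)) := by
      rw [two_mul]
      conv_lhs => rw [hX, hY, sum_mul_sum]; enter [2]; rw [sum_comm]
      rw [← sum_add_distrib]
      refine sum_congr rfl (fun i _ => ?_)
      rw [← sum_add_distrib]
      refine sum_congr rfl (fun j _ => ?_)
      ring
    have e2 : 2 * n * (M * M) + 4 * C * (M * Z) = ∑ i ∈ J, ∑ j ∈ J, μ i * μ j *
        (2 * n + 2 * C * (E i + E j)) := by
      have e3 : 2 * n * (M * M) + 4 * C * (M * Z) =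
          (2 * n) * (M * M) + (2 * C) * (Z * M) + (2 * C) * (M * Z) := by ring
      rw [e3, hM, hZ, sum_mul_sum, sum_mul_sum, sum_mul_sum, mul_sum, mul_sum, mul_sum,
        ← sum_add_distrib, ← sum_add_distrib]
      refine sum_congr rfl (fun i _ => ?_)
      rw [mul_sum, mul_sum, mul_sum, ← sum_add_distrib, ← sum_add_distrib]
      refine sum_congr rfl (fun j _ => ?_)
      ring
    rw [e1, e2]
    exact sum_le_sum (fun i hi => sum_le_sum (fun j hj =>
      mul_le_mul_of_nonneg_left (pair i hi j hj) (mul_nonneg (hμ i hi) (hμ j hj))))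
  have s2 : X * p * p + B * Y ≤ p * (2 * n * M + 2 * C * Z) := by
    have e1 : X * p * p + B * Y = ∑ j ∈ J, μ j * (g j * a j * p * p + B * (R j / g j)) := by
      rw [hX, hY, sum_mul, sum_mul, mul_sum, ← sum_add_distrib]
      refine sum_congr rfl (fun j _ => ?_)
      ring
    have e2 : p * (2 * n * M + 2 * C * Z) = ∑ j ∈ J, μ j * (p * (2 * n + 2 * C * E j)) := by
      rw [hM, hZ, mul_sum, mul_sum, ← sum_add_distrib, mul_sum]
      refine sum_congr rfl (fun j _ => ?_)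
      ring
    rw [e1, e2]
    exact sum_le_sum (fun j hj => mul_le_mul_of_nonneg_left (ph j hj) (hμ j hj))
  have s3 : B ≤ n := by rw [hn0]; linarith
  have hM1 : M = 1 - μh := by linarith
  have t1 := mul_le_mul_of_nonneg_left s1 hp.le
  have t2 := mul_le_mul_of_nonneg_left s2 hμh
  have t3 := mul_le_mul_of_nonneg_left s3 (mul_nonneg (mul_nonneg hμh hμh) hp.le)
  have t4 : 0 ≤ p * C * Z * μh := by positivity
  rw [hM1] at t1 t2
  have e : 2 * A * (Γ + 6) * Z = 2 * C * Z := by rw [hC]; ring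
  rw [e]
  linarith

end Pool.Agent.Lib.MP_299528_co
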