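import Mathlib

set_option autoImplicit false

namespace Pool.Agent.Lib.MP_299528_co

open Finset

variable {d : ℕ}

/-- The largest `k` with `y - k g` in `S`. -/
noncomputable def mu (S : Set (Fin d → ℕ)) (g y : Fin d → ℕ) : ℕ := by
  classical exact Nat.findGreatest (fun k => ∃ s ∈ S, y = s + k • g) (∑ j, y j)

theorem le_mu {S : Set (Fin d → ℕ)} {g y s : Fin d → ℕ} {k : ℕ} (hg : g ≠ 0) (hs : s ∈ S)
    (h : y = s + k • g) : k ≤ mu S g y := by
  classical
  unfold mu
  apply Nat.le_findGreatest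
  · obtain ⟨j, hj⟩ : ∃ j, g j ≠ 0 := by
      by_contra hh
      push Not at hh
      exact hg (funext hh)
    have h1 : y j ≤ ∑ j, y j := single_le_sum (f := y) (fun _ _ => Nat.zero_le _) (mem_univ j)
    have h2 : y j = s j + k * g j := by rw [h]; simp
    have h3 : 1 ≤ g j := Nat.one_le_iff_ne_zero.mpr hj
    nlinarith [Nat.zero_le (s j)]
  · exact ⟨s, hs, h⟩

theorem mu_spec {S : Set (Fin d → ℕ)} {g y : Fin d → ℕ} (h : mu S g y ≠ 0 ∨ y ∈ S) :
    ∃ s ∈ S, y = s + mu S g y • g := by
  classical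
  by_cases h0 : mu S g y = 0
  · rcases h with h | h
    · exact absurd h0 h
    · exact ⟨y, h, by simp [h0]⟩
  · unfold mu at h0 ⊢
    exact Nat.findGreatest_of_ne_zero rfl h0

theorem nsmul_mem' {S : Set (Fin d → ℕ)} (h0 : (0 : Fin d → ℕ) ∈ S)
    (hadd : ∀ x ∈ S, ∀ y ∈ S, x + y ∈ S) {g : Fin d → ℕ} (hg : g ∈ S) (k : ℕ) : k • g ∈ S := by
  induction k with
  | zero => simpa using h0
  | succ k ih => rw [succ_nsmul]; exact hadd _ ih _ hg

theorem mu_mono {S : Set (Fin d → ℕ)} (hadd : ∀ x ∈ S, ∀ y ∈ S, x + y ∈ S) {g s : Fin d → ℕ}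
    (hg : g ≠ 0) (hs : s ∈ S) (y : Fin d → ℕ) : mu S g y ≤ mu S g (y + s) := by
  by_cases h0 : mu S g y = 0
  · omega
  · obtain ⟨t, ht, h⟩ := mu_spec (S := S) (g := g) (y := y) (Or.inl h0)
    refine le_mu hg (hadd _ ht _ hs) ?_
    conv_lhs => rw [h]
    abel

theorem mu_superadd {S : Set (Fin d → ℕ)} (hadd : ∀ x ∈ S, ∀ y ∈ S, x + y ∈ S)
    {g p q : Fin d → ℕ} (hg : g ≠ 0) (hp : p ∈ S) (hq : q ∈ S) :
    mu S g p + mu S g q ≤ mu S g (p + q) := by
  obtain ⟨t, ht, h⟩ := mu_spec (S := S) (g := g) (y := p) (Or.inr hp)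
  obtain ⟨t', ht', h'⟩ := mu_spec (S := S) (g := g) (y := q) (Or.inr hq)
  refine le_mu hg (hadd _ ht _ ht') ?_
  conv_lhs => rw [h, h']
  rw [add_nsmul]
  abel

theorem mu_of_not_le {S : Set (Fin d → ℕ)} {g y : Fin d → ℕ} (h : ¬ g ≤ y) : mu S g y = 0 := by
  by_contra h0
  obtain ⟨t, -, ht⟩ := mu_spec (S := S) (g := g) (y := y) (Or.inl h0)
  apply h
  intro j
  have : y j = t j + mu S g y * g j := by conv_lhs => rw [ht]; simp
  have h3 : 1 ≤ mu S g y := Nat.one_le_iff_ne_zero.mpr h0
  have h4 : g j ≤ mu S g y * g j := Nat.le_mul_of_pos_left _ h3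
  show g j ≤ y j
  omega

open Classical in
theorem mu_succ {S : Set (Fin d → ℕ)} (h0 : (0 : Fin d → ℕ) ∈ S)
    (hadd : ∀ x ∈ S, ∀ y ∈ S, x + y ∈ S) {g : Fin d → ℕ} (hg : g ≠ 0) (hgS : g ∈ S)
    (y : Fin d → ℕ) : mu S g (y + g) = mu S g y + if y ∈ S then 1 else 0 := by
  have key : mu S g (y + g) ≠ 0 → y ∈ S ∧ mu S g (y + g) ≤ mu S g y + 1 := by
    intro h
    obtain ⟨t, ht, h1⟩ := mu_spec (S := S) (g := g) (y := y + g) (Or.inl h)
    obtain ⟨k, hk⟩ := Nat.exists_eq_succ_of_ne_zero h
    rw [hk, succ_nsmul, ← add_assoc] at h1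
    have h2 : y = t + k • g := add_right_cancel h1
    refine ⟨h2 ▸ hadd _ ht _ (nsmul_mem' h0 hadd hgS k), ?_⟩
    have := le_mu hg ht h2
    omega
  by_cases hy : y ∈ S
  · rw [if_pos hy]
    obtain ⟨t, ht, h1⟩ := mu_spec (S := S) (g := g) (y := y) (Or.inr hy)
    have h2 : mu S g y + 1 ≤ mu S g (y + g) := by
      refine le_mu hg ht ?_
      rw [succ_nsmul, ← add_assoc, ← h1]
    have := key (by omega)
    omega
  · rw [if_neg hy]
    have h1 : mu S g (y + g) = 0 := by
      by_contra h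
      exact hy (key h).1
    have h2 : mu S g y = 0 := by
      by_contra h
      obtain ⟨t, ht, h3⟩ := mu_spec (S := S) (g := g) (y := y) (Or.inl h)
      exact hy (h3 ▸ hadd _ ht _ (nsmul_mem' h0 hadd hgS _))
    omega

/-- Points below a shifted element of `H`. -/
def CC (H : Finset (Fin d → ℕ)) (r : Fin d → ℕ) : Finset (Fin d → ℕ) :=
  H.biUnion (fun h => Finset.Iic (h + r))

theorem mem_CC {H : Finset (Fin d → ℕ)} {r x : Fin d → ℕ} :
    x ∈ CC H r ↔ ∃ h ∈ H, x ≤ h + r := by
  simp [CC]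

theorem CC_mono (H : Finset (Fin d → ℕ)) (r u : Fin d → ℕ) : CC H r ⊆ CC H (r + u) := by
  intro x hx
  obtain ⟨h, hh, hx⟩ := mem_CC.mp hx
  exact mem_CC.mpr ⟨h, hh, hx.trans (by rw [← add_assoc]; exact le_self_add)⟩

theorem add_mem_CC {H : Finset (Fin d → ℕ)} {r x s : Fin d → ℕ} :
    x + s ∈ CC H (r + s) ↔ x ∈ CC H r := by
  simp only [mem_CC, ← add_assoc, add_le_add_iff_right]

theorem sum_CC_shift (H : Finset (Fin d → ℕ)) (r g : Fin d → ℕ) (f : (Fin d → ℕ) → ℤ)
    (hf : ∀ y, ¬ g ≤ y → f y = 0) :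
    ∑ y ∈ CC H (r + g), f y = ∑ y ∈ CC H r, f (y + g) := by
  rw [← sum_image (s := CC H r) (g := fun y => y + g) (f := f)
    (fun x _ y _ h => add_right_cancel h)]
  symm
  apply sum_subset
  · intro x hx
    obtain ⟨y, hy, rfl⟩ := mem_image.mp hx
    exact add_mem_CC.mpr hy
  · intro x hx hn
    apply hf
    intro hle
    apply hn
    obtain ⟨z, rfl⟩ := exists_add_of_le hle
    rw [add_comm g z] at hx ⊢
    exact mem_image.mpr ⟨z, add_mem_CC.mp hx, rfl⟩

theorem supermod (H : Finset (Fin d → ℕ)) (r u s : Fin d → ℕ) (f : (Fin d → ℕ) → ℤ)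
    (hf0 : ∀ y, 0 ≤ f y) (hf : ∀ y, f y ≤ f (y + s)) :
    ∑ y ∈ CC H (r + u), f y - ∑ y ∈ CC H r, f y ≤
      ∑ y ∈ CC H (r + u + s), f y - ∑ y ∈ CC H (r + s), f y := by
  have h1 := sum_sdiff (f := f) (CC_mono H r u)
  have h2' : CC H (r + s) ⊆ CC H (r + u + s) := by
    rw [add_right_comm]; exact CC_mono H _ _
  have h2 := sum_sdiff (f := f) h2'
  have h3 : ∑ y ∈ CC H (r + u) \ CC H r, f y ≤ ∑ y ∈ CC H (r + u + s) \ CC H (r + s), f y := by
    calc ∑ y ∈ CC H (r + u) \ CC H r, f y ≤ ∑ y ∈ CC H (r + u) \ CC H r, f (y + s) :=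
          sum_le_sum (fun y _ => hf y)
      _ = ∑ y ∈ (CC H (r + u) \ CC H r).image (fun y => y + s), f y :=
          (sum_image (fun x _ y _ h => add_right_cancel h)).symm
      _ ≤ _ := by
          apply sum_le_sum_of_subset_of_nonneg
          · intro x hx
            obtain ⟨y, hy, rfl⟩ := mem_image.mp hx
            rw [mem_sdiff] at hy ⊢
            exact ⟨add_mem_CC.mpr hy.1, fun h => hy.2 (add_mem_CC.mp h)⟩
          · intro y _ _
            exact hf0 y
  linarith

/-- Supermodular set functions along lattice shifts. -/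
theorem shift_le (F : (Fin d → ℕ) → ℤ) (a : Fin d → ℕ)
    (hF : ∀ j r u, F (r + Pi.single j (a j)) - F r ≤
      F (r + u + Pi.single j (a j)) - F (r + u)) (κ : Fin d → ℕ) :
    ∀ r, ∑ j, (κ j : ℤ) * (F (r + Pi.single j (a j)) - F r) ≤ F (r + a * κ) - F r := by
  induction κ using Pi.single_induction with
  | zero => intro r; simp
  | add κ1 κ2 h1 h2 =>
    intro r
    have e1 := h1 r
    have e2 := h2 (r + a * κ1)
    have e3 : ∑ j, (κ2 j : ℤ) * (F (r + Pi.single j (a j)) - F r) ≤
        ∑ j, (κ2 j : ℤ) * (F (r + a * κ1 + Pi.single j (a j)) - F (r + a * κ1)) :=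
      sum_le_sum (fun j _ => mul_le_mul_of_nonneg_left (hF j r _) (by positivity))
    have e4 : ∑ j, ((κ1 + κ2) j : ℤ) * (F (r + Pi.single j (a j)) - F r) =
        ∑ j, (κ1 j : ℤ) * (F (r + Pi.single j (a j)) - F r) +
          ∑ j, (κ2 j : ℤ) * (F (r + Pi.single j (a j)) - F r) := by
      rw [← sum_add_distrib]
      apply sum_congr rfl
      intro j _
      simp only [Pi.add_apply]
      push_cast
      ring
    rw [e4, mul_add, ← add_assoc]
    linarith
  | single i m =>
    intro r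
    rw [sum_eq_single i (fun j _ hj => by simp [Pi.single_eq_of_ne hj]) (by simp)]
    simp only [Pi.single_eq_same]
    induction m with
    | zero => simp
    | succ m ih =>
      have e1 : a * Pi.single i (m + 1) = a * Pi.single i m + Pi.single i (a i) := by
        funext j
        by_cases hj : j = i
        · subst hj; simp [mul_add]
        · simp [Pi.single_eq_of_ne hj]
      have e2 := hF i r (a * Pi.single i m)
      rw [e1, ← add_assoc]
      push_cast
      linarith

/-- The fundamental box. -/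
def RR (a : Fin d → ℕ) : Finset (Fin d → ℕ) := Fintype.piFinset (fun j => range (a j))

theorem mem_RR {a r : Fin d → ℕ} : r ∈ RR a ↔ ∀ j, r j < a j := by
  simp [RR]

theorem sum_rot (a : Fin d → ℕ) (ha : ∀ j, 0 < a j) (g : Fin d → ℕ) (Φ : (Fin d → ℕ) → ℤ) :
    ∑ r ∈ RR a, Φ (fun j => (r j + g j) % a j) = ∑ r ∈ RR a, Φ r := by
  have hinj : Set.InjOn (fun r : Fin d → ℕ => fun j => (r j + g j) % a j) (RR a) := by
    intro r hr r' hr' h
    funext j
    have h1 : (r j + g j) % a j = (r' j + g j) % a j := congrFun h j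
    have h2 : r j ≡ r' j [MOD a j] := Nat.ModEq.add_right_cancel' (g j) h1
    exact Nat.ModEq.eq_of_lt_of_lt h2 (mem_RR.mp hr j) (mem_RR.mp hr' j)
  rw [← sum_image (f := Φ) hinj]
  congr 1
  apply eq_of_subset_of_card_le
  · intro x hx
    obtain ⟨r, -, rfl⟩ := mem_image.mp hx
    exact mem_RR.mpr (fun j => Nat.mod_lt _ (ha j))
  · rw [card_image_of_injOn hinj]

theorem sum_upd (a : Fin d → ℕ) (j : Fin d) (Φ : (Fin d → ℕ) → ℤ) :
    ∑ r ∈ RR a, ∑ t ∈ range (a j), Φ (Function.update r j t) = a j * ∑ r ∈ RR a, Φ r := by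
  have h1 : (a j : ℤ) * ∑ r ∈ RR a, Φ r = ∑ r ∈ RR a, ∑ _t ∈ range (a j), Φ r := by
    rw [mul_sum]
    apply sum_congr rfl
    intro r _
    simp
  rw [h1, ← sum_product', ← sum_product']
  apply sum_nbij' (fun p => (Function.update p.1 j p.2, p.1 j))
    (fun p => (Function.update p.1 j p.2, p.1 j))
  all_goals
    rintro ⟨r, t⟩ hp
    simp only [mem_product, mem_RR, mem_range] at hp ⊢
  · refine ⟨fun i => ?_, hp.1 j⟩
    by_cases hi : i = j
    · subst hi; simp [hp.2]
    · simp [Function.update_of_ne hi, hp.1 i]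
  · refine ⟨fun i => ?_, hp.1 j⟩
    by_cases hi : i = j
    · subst hi; simp [hp.2]
    · simp [Function.update_of_ne hi, hp.1 i]
  · simp
  · simp

theorem sum_divmod (a : Fin d → ℕ) (ha : ∀ j, 0 < a j) (g : Fin d → ℕ) (j : Fin d)
    (Φ : (Fin d → ℕ) → ℤ) :
    (a j : ℤ) * ∑ r ∈ RR a, (((r j + g j) / a j : ℕ) : ℤ) *
        Φ (Function.update (fun i => (r i + g i) % a i) j 0) =
      g j * ∑ r ∈ RR a, Φ (Function.update r j 0) := by
  have e1 := sum_rot a ha g (fun r => Φ (Function.update r j 0))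
  have e2 := sum_rot a ha g (fun r => (r j : ℤ) * Φ (Function.update r j 0))
  have e3 := sum_rot a ha (Function.update g j 0) (fun r => (r j : ℤ) * Φ (Function.update r j 0))
  have e4 : ∑ r ∈ RR a, (r j : ℤ) * Φ (Function.update (fun i => (r i + g i) % a i) j 0) =
      ∑ r ∈ RR a, (r j : ℤ) * Φ (Function.update r j 0) := by
    rw [← e3]
    apply sum_congr rfl
    intro r hr
    have : Function.update (fun i => (r i + g i) % a i) j 0 =
        Function.update (fun i => (r i + Function.update g j 0 i) % a i) j 0 := by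
      funext i
      by_cases hi : i = j
      · subst hi; simp
      · simp [Function.update_of_ne hi]
    rw [this]
    simp [Nat.mod_eq_of_lt (mem_RR.mp hr j)]
  rw [← e1, mul_sum, mul_sum]
  have e5 : ∀ r ∈ RR a, (a j : ℤ) * ((((r j + g j) / a j : ℕ) : ℤ) *
        Φ (Function.update (fun i => (r i + g i) % a i) j 0)) =
      (g j : ℤ) * Φ (Function.update (fun i => (r i + g i) % a i) j 0) +
        ((r j : ℤ) * Φ (Function.update (fun i => (r i + g i) % a i) j 0) -
        (((r j + g j) % a j : ℕ) : ℤ) * Φ (Function.update (fun i => (r i + g i) % a i) j 0)) := by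
    intro r _
    have h := Nat.div_add_mod (r j + g j) (a j)
    have h' : (a j : ℤ) * (((r j + g j) / a j : ℕ) : ℤ) + (((r j + g j) % a j : ℕ) : ℤ) =
        (r j : ℤ) + g j := by exact_mod_cast h
    linear_combination Φ (Function.update (fun i => (r i + g i) % a i) j 0) * h'
  rw [sum_congr rfl e5, sum_add_distrib, sum_sub_distrib, e4]
  simp only [] at e2
  rw [e2]
  ring

/-- The minimal generators. -/
def Gen (S : Set (Fin d → ℕ)) : Set (Fin d → ℕ) :=
  {x | x ∈ S ∧ x ≠ 0 ∧ ∀ a ∈ S, ∀ b ∈ S, a + b = x → a = 0 ∨ b = 0}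

theorem exists_bound {S : Set (Fin d → ℕ)} (hfin : Sᶜ.Finite) :
    ∃ B : ℕ, ∀ y : Fin d → ℕ, ∀ j, B ≤ y j → y ∈ S := by
  obtain ⟨b, hb⟩ := hfin.bddAbove
  refine ⟨(∑ j, b j) + 1, fun y j hj => ?_⟩
  by_contra hy
  have h1 : y j ≤ b j := hb hy j
  have h2 : b j ≤ ∑ j, b j := single_le_sum (f := b) (fun _ _ => Nat.zero_le _) (mem_univ j)
  omega

theorem gen_finite {S : Set (Fin d → ℕ)} (hfin : Sᶜ.Finite) : (Gen S).Finite := by
  obtain ⟨B, hB⟩ := exists_bound hfin
  refine (Set.finite_Iic (fun _ => 2 * B + 2 : Fin d → ℕ)).subset ?_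
  rintro x ⟨-, -, hx⟩ j
  by_contra hj
  simp only [not_le] at hj
  have h1 : (Pi.single j (B + 1) : Fin d → ℕ) ≤ x := by
    intro i
    by_cases hi : i = j
    · subst hi; simp; omega
    · simp [Pi.single_eq_of_ne hi]
  obtain ⟨z, hz⟩ := exists_add_of_le h1
  have hzj : x j = B + 1 + z j := by rw [hz]; simp
  rcases hx _ (hB (Pi.single j (B + 1)) j (by simp)) z (hB z j (by omega)) hz.symm with h | h
  · have := congrFun h j
    simp at this
  · have := congrFun h j
    simp at this
    omega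

theorem gen_induction {S : Set (Fin d → ℕ)} (P : (Fin d → ℕ) → Prop) (h0 : P 0)
    (hg : ∀ g ∈ Gen S, P g) (hadd : ∀ p ∈ S, ∀ q ∈ S, P p → P q → P (p + q)) :
    ∀ y ∈ S, P y := by
  intro y
  induction' hn : ∑ j, y j using Nat.strong_induction_on with n ih generalizing y
  intro hy
  by_cases hy0 : y = 0
  · rw [hy0]; exact h0
  by_cases hG : y ∈ Gen S
  · exact hg y hG
  have : ∃ p ∈ S, ∃ q ∈ S, p + q = y ∧ p ≠ 0 ∧ q ≠ 0 := by
    by_contra hh
    push Not at hh
    refine hG ⟨hy, hy0, fun p hp q hq h => ?_⟩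
    by_cases hp0 : p = 0
    · exact Or.inl hp0
    · exact Or.inr (hh p hp q hq h hp0)
  obtain ⟨p, hp, q, hq, rfl, hp0, hq0⟩ := this
  have pos : ∀ z : Fin d → ℕ, z ≠ 0 → 0 < ∑ j, z j := by
    intro z hz
    by_contra hh
    apply hz
    funext j
    have : z j ≤ ∑ j, z j := single_le_sum (f := z) (fun _ _ => Nat.zero_le _) (mem_univ j)
    simp only [Pi.zero_apply]
    omega
  have hs : ∑ j, (p + q) j = ∑ j, p j + ∑ j, q j := by simp [sum_add_distrib]
  have := pos p hp0
  have := pos q hq0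
  exact hadd p hp q hq (ih _ (by omega) p rfl hp) (ih _ (by omega) q rfl hq)

theorem coord_le {S : Set (Fin d → ℕ)} (h0 : (0 : Fin d → ℕ) ∈ S)
    (hadd : ∀ x ∈ S, ∀ y ∈ S, x + y ∈ S) (G : Finset (Fin d → ℕ)) (hG : ∀ g, g ∈ G ↔ g ∈ Gen S)
    (j : Fin d) : ∀ y ∈ S, y j ≤ ∑ g ∈ G, g j * mu S g y := by
  apply gen_induction
  · simp
  · intro g hg
    have h1 : 1 ≤ mu S g g := le_mu hg.2.1 h0 (by simp)
    have h2 : g j * mu S g g ≤ ∑ g' ∈ G, g' j * mu S g' g :=
      single_le_sum (f := fun g' => g' j * mu S g' g) (fun _ _ => Nat.zero_le _) ((hG g).mpr hg)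
    have h3 : g j ≤ g j * mu S g g := Nat.le_mul_of_pos_right _ h1
    omega
  · intro p hp q hq h1 h2
    have : ∑ g ∈ G, g j * mu S g p + ∑ g ∈ G, g j * mu S g q ≤ ∑ g ∈ G, g j * mu S g (p + q) := by
      rw [← sum_add_distrib]
      apply sum_le_sum
      intro g hg
      rw [← mul_add]
      exact Nat.mul_le_mul_left _ (mu_superadd hadd ((hG g).mp hg).2.1 hp hq)
    simp only [Pi.add_apply]
    omega

theorem axis_gen {S : Set (Fin d → ℕ)} {j : Fin d} {t : ℕ}
    (ht : IsLeast {t : ℕ | 0 < t ∧ (Pi.single j t : Fin d → ℕ) ∈ S} t) :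
    (Pi.single j t : Fin d → ℕ) ∈ Gen S := by
  refine ⟨ht.1.2, fun h => ?_, fun p hp q hq h => ?_⟩
  · have := congrFun h j
    have h1 := ht.1.1
    simp at this
    omega
  · have hp' : p = Pi.single j (p j) := by
      funext i
      by_cases hi : i = j
      · subst hi; simp
      · have := congrFun h i
        simp only [Pi.add_apply, Pi.single_eq_of_ne hi] at this ⊢
        omega
    have hq' : q = Pi.single j (q j) := by
      funext i
      by_cases hi : i = j
      · subst hi; simp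
      · have := congrFun h i
        simp only [Pi.add_apply, Pi.single_eq_of_ne hi] at this ⊢
        omega
    have hj : p j + q j = t := by simpa using congrFun h j
    by_cases hp0 : p j = 0
    · left; rw [hp', hp0]; simp
    · right
      have : t ≤ p j := ht.2 ⟨by omega, hp' ▸ hp⟩
      have hq0 : q j = 0 := by omega
      rw [hq', hq0]; simp

section Main

open Classical

variable {S : Set (Fin d → ℕ)} (h0 : (0 : Fin d → ℕ) ∈ S) (hadd : ∀ x ∈ S, ∀ y ∈ S, x + y ∈ S)
  (H : Finset (Fin d → ℕ)) (hH : ∀ h, h ∈ H ↔ h ∉ S)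

/-- Total multiplicity of `g` below the shifted gaps. -/
noncomputable def MM (S : Set (Fin d → ℕ)) (H : Finset (Fin d → ℕ)) (g r : Fin d → ℕ) : ℤ :=
  ∑ y ∈ CC H r, (mu S g y : ℤ)

/-- Number of elements of `S` below the shifted gaps. -/
noncomputable def NN (S : Set (Fin d → ℕ)) (H : Finset (Fin d → ℕ)) (r : Fin d → ℕ) : ℤ :=
  (((CC H r).filter (fun y => y ∈ S)).card : ℤ)

include h0 hadd in
theorem MM_shift {g : Fin d → ℕ} (hg : g ≠ 0) (hgS : g ∈ S) (r : Fin d → ℕ) :
    MM S H g (r + g) = MM S H g r + NN S H r := by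
  unfold MM NN
  rw [sum_CC_shift H r g (fun y => (mu S g y : ℤ)) (fun y hy => by simp [mu_of_not_le hy])]
  simp only [mu_succ h0 hadd hg hgS]
  push_cast
  rw [sum_add_distrib, sum_boole]

include hH in
theorem NN_eq (r u : Fin d → ℕ) :
    NN S H (r + u) = NN S H r + ((CC H (r + u)).card - (CC H r).card) := by
  have key : ∀ r : Fin d → ℕ, NN S H r = (CC H r).card - H.card := by
    intro r
    unfold NN
    have h1 := card_filter_add_card_filter_not (s := CC H r) (fun y => y ∈ S)
    have h2 : (CC H r).filter (fun y => ¬ y ∈ S) = H := by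
      ext y
      simp only [mem_filter, hH]
      exact ⟨fun h => h.2, fun h => ⟨mem_CC.mpr ⟨y, (hH y).mpr h, le_self_add⟩, h⟩⟩
    rw [h2] at h1
    omega
  rw [key, key]
  ring

include h0 hadd in
theorem gen_bound (a : Fin d → ℕ) (ha : ∀ j, 0 < a j)
    (haS : ∀ j, (Pi.single j (a j) : Fin d → ℕ) ∈ S) {g : Fin d → ℕ} (hg : g ≠ 0) (hgS : g ∈ S) :
    ∑ j, ((g j : ℚ) / a j) * ((∑ r ∈ RR a,
      (MM S H g (Function.update r j 0 + Pi.single j (a j)) -
        MM S H g (Function.update r j 0)) : ℤ) : ℚ) ≤ ((∑ r ∈ RR a, NN S H r : ℤ) : ℚ) := by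
  have hF : ∀ j r u, MM S H g (r + Pi.single j (a j)) - MM S H g r ≤
      MM S H g (r + u + Pi.single j (a j)) - MM S H g (r + u) := by
    intro j r u
    have := supermod H r u (Pi.single j (a j)) (fun y => (mu S g y : ℤ)) (fun y => by positivity)
      (fun y => by exact_mod_cast mu_mono hadd hg (haS j) y)
    unfold MM
    linarith
  have h1 : ∑ r ∈ RR a, NN S H r =
      ∑ r ∈ RR a, (MM S H g (r + g) - MM S H g (fun i => (r i + g i) % a i)) := by
    rw [sum_sub_distrib, sum_rot a ha g (MM S H g), ← sum_sub_distrib]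
    apply sum_congr rfl
    intro r _
    rw [MM_shift h0 hadd H hg hgS]
    ring
  have h2 : ∀ r ∈ RR a, ∑ j, (((r j + g j) / a j : ℕ) : ℤ) *
      (MM S H g (Function.update (fun i => (r i + g i) % a i) j 0 + Pi.single j (a j)) -
        MM S H g (Function.update (fun i => (r i + g i) % a i) j 0)) ≤
      MM S H g (r + g) - MM S H g (fun i => (r i + g i) % a i) := by
    intro r _
    have e1 := shift_le (MM S H g) a hF (fun i => (r i + g i) / a i) (fun i => (r i + g i) % a i)
    have e2 : (fun i => (r i + g i) % a i) + a * (fun i => (r i + g i) / a i) = r + g := by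
      funext i
      simp [Nat.mod_add_div]
    rw [e2] at e1
    refine le_trans (sum_le_sum (fun j _ => mul_le_mul_of_nonneg_left ?_ (by positivity))) e1
    have e3 := hF j (Function.update (fun i => (r i + g i) % a i) j 0)
      (Pi.single j ((r j + g j) % a j))
    have e4 : Function.update (fun i => (r i + g i) % a i) j 0 + Pi.single j ((r j + g j) % a j) =
        (fun i => (r i + g i) % a i) := by
      funext i
      by_cases hi : i = j
      · subst hi; simp
      · simp [Function.update_of_ne hi, Pi.single_eq_of_ne hi]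
    rw [e4] at e3
    exact e3
  have h3 := sum_le_sum h2
  rw [← h1, sum_comm] at h3
  refine le_trans (le_of_eq ?_) (Int.cast_le.mpr h3)
  rw [Int.cast_sum (R := ℚ) univ]
  apply sum_congr rfl
  intro j _
  have e5 := sum_divmod a ha g j (fun ρ => MM S H g (ρ + Pi.single j (a j)) - MM S H g ρ)
  have e6 : (((a j : ℤ) * _ : ℤ) : ℚ) = _ := congrArg (fun z : ℤ => (z : ℚ)) e5
  rw [Int.cast_mul, Int.cast_mul, Int.cast_natCast, Int.cast_natCast] at e6
  have ha' : (a j : ℚ) ≠ 0 := by have := ha j; positivity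
  rw [div_mul_eq_mul_div, div_eq_iff ha', mul_comm _ (a j : ℚ)]
  exact e6.symm

theorem coord_sum (r : Fin d → ℕ) (j : Fin d) (t : ℕ) :
    ∑ y ∈ CC H (r + Pi.single j t), (y j : ℤ) - ∑ y ∈ CC H r, (y j : ℤ) =
      ∑ k ∈ range t, ((CC H (r + Pi.single j k)).card : ℤ) := by
  induction t with
  | zero => simp
  | succ t ih =>
    have e1 : r + Pi.single j (t + 1) = r + Pi.single j t + Pi.single j 1 := by
      rw [Pi.single_add, add_assoc]
    rw [sum_range_succ, ← ih, e1, sum_CC_shift H _ (Pi.single j 1) (fun y => (y j : ℤ))]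
    · simp [sum_add_distrib]
      ring
    · intro y hy
      by_contra hh
      apply hy
      intro i
      by_cases hi : i = j
      · subst hi
        simp only [Pi.single_eq_same]
        have : y i ≠ 0 := by exact_mod_cast hh
        omega
      · simp [Pi.single_eq_of_ne hi]

theorem card_telescope (r : Fin d → ℕ) :
    ((CC H r).card : ℤ) - (CC H 0).card ≤
      ∑ j, (((CC H r).card : ℤ) - (CC H (Function.update r j 0)).card) := by
  have sm : ∀ r u s : Fin d → ℕ, ((CC H (r + u)).card : ℤ) - (CC H r).card ≤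
      ((CC H (r + u + s)).card : ℤ) - (CC H (r + s)).card := by
    intro r u s
    simpa using supermod H r u s (fun _ => (1 : ℤ)) (fun _ => by norm_num) (fun _ => le_rfl)
  have key : ∀ T : Finset (Fin d), ((CC H (fun i => if i ∈ T then r i else 0)).card : ℤ) -
      (CC H 0).card ≤ ∑ j ∈ T, (((CC H r).card : ℤ) - (CC H (Function.update r j 0)).card) := by
    intro T
    induction T using Finset.induction_on with
    | empty =>
      have : (fun i => if i ∈ (∅ : Finset (Fin d)) then r i else 0) = 0 := by funext i; simp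
      rw [this]; simp
    | insert j T hj ih =>
      rw [sum_insert hj]
      have e := sm (fun i => if i ∈ T then r i else 0) (Pi.single j (r j))
        (fun i => if i ∈ insert j T then 0 else r i)
      have e1 : (fun i => if i ∈ T then r i else 0) + Pi.single j (r j) =
          (fun i => if i ∈ insert j T then r i else 0) := by
        funext i
        by_cases hi : i = j
        · subst hi; simp [hj]
        · simp [hi]
      have e2 : (fun i => if i ∈ insert j T then r i else 0) +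
          (fun i => if i ∈ insert j T then 0 else r i) = r := by
        funext i
        simp only [Pi.add_apply]
        split_ifs <;> simp
      have e3 : (fun i => if i ∈ T then r i else 0) +
          (fun i => if i ∈ insert j T then 0 else r i) = Function.update r j 0 := by
        funext i
        by_cases hi : i = j
        · subst hi; simp [hj]
        · simp only [Pi.add_apply, Function.update_of_ne hi, mem_insert, hi, false_or]
          split_ifs <;> simp
      rw [e1, e2, e3] at e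
      linarith
  simpa using key univ

include h0 hadd hH in
theorem main_ineq (G : Finset (Fin d → ℕ)) (hG : ∀ g, g ∈ G ↔ g ∈ Gen S) (a : Fin d → ℕ)
    (hl : ∀ j, IsLeast {t : ℕ | 0 < t ∧ (Pi.single j t : Fin d → ℕ) ∈ S} (a j)) :
    ((d : ℤ) + 1) * ∑ r ∈ RR a, ((CC H r).card : ℤ) - (RR a).card * (CC H 0).card ≤
      G.card * ∑ r ∈ RR a, NN S H r := by
  have ha : ∀ j, 0 < a j := fun j => (hl j).1.1
  have haS : ∀ j, (Pi.single j (a j) : Fin d → ℕ) ∈ S := fun j => (hl j).1.2
  set X : ℤ := ∑ r ∈ RR a, NN S H r with hX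
  set W : ℤ := ∑ r ∈ RR a, ((CC H r).card : ℤ) with hW
  set E : (Fin d → ℕ) → Fin d → ℤ := fun g j => ∑ r ∈ RR a,
      (MM S H g (Function.update r j 0 + Pi.single j (a j)) -
        MM S H g (Function.update r j 0)) with hE
  set L : (Fin d → ℕ) → ℚ := fun g => ∑ j, ((g j : ℚ) / a j) * (E g j : ℚ) with hL
  have hb : ∀ g ∈ G, L g ≤ X := fun g hg =>
    gen_bound h0 hadd H a ha haS ((hG g).mp hg).2.1 ((hG g).mp hg).1
  have hupd : ∀ (r : Fin d → ℕ) j t, Function.update r j 0 + Pi.single j t =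
      Function.update r j t := by
    intro r j t
    funext i
    by_cases hi : i = j
    · subst hi; simp
    · simp [Function.update_of_ne hi, Pi.single_eq_of_ne hi]
  have hax : ∀ j, (X : ℚ) - L (Pi.single j (a j)) =
      ((∑ r ∈ RR a, (((CC H r).card : ℤ) - (CC H (Function.update r j 0)).card) : ℤ) : ℚ) := by
    intro j
    have ha' : (a j : ℚ) ≠ 0 := by have := ha j; positivity
    have e1 : L (Pi.single j (a j)) = E (Pi.single j (a j)) j := by
      simp only [hL]
      rw [sum_eq_single j (fun i _ hi => by simp [Pi.single_eq_of_ne hi]) (by simp)]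
      simp [ha']
    rw [e1, ← Int.cast_sub]
    congr 1
    simp only [hX, hE]
    rw [← sum_sub_distrib]
    apply sum_congr rfl
    intro r _
    have e2 := MM_shift h0 hadd H (axis_gen (hl j)).2.1 (haS j) (Function.update r j 0)
    have e3 := NN_eq H hH (Function.update r j 0) (Pi.single j (r j))
    rw [hupd r j (r j), Function.update_eq_self] at e3
    linarith
  have hinj : Function.Injective (fun j : Fin d => (Pi.single j (a j) : Fin d → ℕ)) := by
    intro i j h
    by_contra hij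
    have h1 := congrFun h i
    have h2 := ha i
    simp only [Pi.single_eq_same, Pi.single_eq_of_ne hij] at h1
    omega
  have h1 : ∑ j, ((X : ℚ) - L (Pi.single j (a j))) ≤ ∑ g ∈ G, ((X : ℚ) - L g) := by
    rw [← sum_image (s := univ) (f := fun g => (X : ℚ) - L g) (fun i _ j _ h => hinj h)]
    apply sum_le_sum_of_subset_of_nonneg
    · intro g hg
      obtain ⟨j, -, rfl⟩ := mem_image.mp hg
      exact (hG _).mpr (axis_gen (hl j))
    · intro g hg _
      linarith [hb g hg]
  have h2 : W - (RR a).card * (CC H 0).card ≤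
      ∑ j, ∑ r ∈ RR a, (((CC H r).card : ℤ) - (CC H (Function.update r j 0)).card) := by
    rw [sum_comm]
    refine le_trans (le_of_eq ?_) (sum_le_sum (fun r _ => card_telescope H r))
    rw [sum_sub_distrib]
    simp [hW]
  have h3 : ∀ j, (a j : ℤ) * W ≤ ∑ g ∈ G, (g j : ℤ) * E g j := by
    intro j
    rw [hW, ← sum_upd a j (fun r => ((CC H r).card : ℤ))]
    simp only [hE, mul_sum]
    rw [sum_comm (s := G)]
    apply sum_le_sum
    intro r _
    have e1 := coord_sum H (Function.update r j 0) j (a j)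
    simp only [hupd] at e1 ⊢
    rw [← e1]
    have hsub : CC H (Function.update r j 0) ⊆ CC H (Function.update r j (a j)) := by
      rw [← hupd r j (a j)]; exact CC_mono H _ _
    rw [← sum_sdiff_eq_sub hsub]
    have e2 : ∀ g ∈ G, (g j : ℤ) * (MM S H g (Function.update r j (a j)) -
        MM S H g (Function.update r j 0)) =
        ∑ y ∈ CC H (Function.update r j (a j)) \ CC H (Function.update r j 0),
          ((g j * mu S g y : ℕ) : ℤ) := by
      intro g _
      unfold MM
      rw [← sum_sdiff_eq_sub hsub, mul_sum]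
      simp
    rw [sum_congr rfl e2, sum_comm]
    apply sum_le_sum
    intro y hy
    have hyS : y ∈ S := by
      by_contra hh
      exact (mem_sdiff.mp hy).2 (mem_CC.mpr ⟨y, (hH y).mpr hh, le_self_add⟩)
    exact_mod_cast coord_le h0 hadd G hG j y hyS
  have h4 : (d : ℚ) * W ≤ ∑ g ∈ G, L g := by
    simp only [hL]
    rw [sum_comm]
    have : (d : ℚ) * W = ∑ _j : Fin d, (W : ℚ) := by simp
    rw [this]
    apply sum_le_sum
    intro j _
    have ha' : (0 : ℚ) < a j := by exact_mod_cast ha j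
    have e1 : ((a j : ℚ)) * W ≤ ∑ g ∈ G, (g j : ℚ) * (E g j : ℚ) := by exact_mod_cast h3 j
    have e2 : ∑ g ∈ G, (g j : ℚ) / a j * (E g j : ℚ) =
        (∑ g ∈ G, (g j : ℚ) * (E g j : ℚ)) / a j := by
      rw [sum_div]
      apply sum_congr rfl
      intro g _
      ring
    rw [e2, le_div_iff₀ ha']
    linarith
  simp only [hax] at h1
  rw [← Int.cast_sum, sum_sub_distrib, sum_const, nsmul_eq_mul] at h1
  have h2' := (Int.cast_le (R := ℚ)).mpr h2
  have h5 : ((d : ℚ) + 1) * W - ((RR a).card : ℚ) * (CC H 0).card ≤ G.card * (X : ℚ) := by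
    rw [Int.cast_sub, Int.cast_mul, Int.cast_natCast, Int.cast_natCast] at h2'
    linarith
  exact_mod_cast h5

end Main

end Pool.Agent.Lib.MP_299528_co
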