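import Pool.Agent.Lib.MP_299528_co.Defs
import Pool.Agent.Lib.MP_299528_co.Zhai

set_option autoImplicit false

namespace Pool.Agent.Lib.MP_299528_co

open Finset

variable {d : ℕ}

theorem cShift_eq {S : Set (Fin d → ℕ)} (hfin : Sᶜ.Finite) (r : Fin d → ℕ) :
    cShift S r = (CC hfin.toFinset r).card := by
  unfold cShift
  rw [← Set.ncard_coe_finset]
  congr 1
  ext x
  simp [mem_CC]

theorem cS_eq (S : Set (Fin d → ℕ)) : cS S = cShift S 0 := by
  simp [cS, cShift]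

theorem nS_eq {S : Set (Fin d → ℕ)} (hfin : Sᶜ.Finite) :
    (nS S : ℤ) = NN S hfin.toFinset 0 := by
  unfold nS NN
  rw [← Set.ncard_coe_finset]
  congr 2
  ext x
  simp [mem_CC, and_comm]

theorem eS_eq {S : Set (Fin d → ℕ)} (hfin : Sᶜ.Finite) :
    eS S = (gen_finite hfin).toFinset.card :=
  Set.ncard_eq_toFinset_card _ (gen_finite hfin)

theorem zhai {S : Set (Fin d → ℕ)} (h0 : (0 : Fin d → ℕ) ∈ S)
    (hadd : ∀ x ∈ S, ∀ y ∈ S, x + y ∈ S) (hfin : Sᶜ.Finite) (a : Fin d → ℕ)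
    (hl : ∀ j, IsLeast {t : ℕ | 0 < t ∧ (Pi.single j t : Fin d → ℕ) ∈ S} (a j)) :
    (d : ℝ) * cS S - (eS S : ℝ) * nS S ≤ ((eS S : ℝ) - d - 1) *
      ((∑ r ∈ Fintype.piFinset (fun j => range (a j)), (cShift S r : ℝ)) / (∏ j, (a j : ℝ)) -
        cS S) := by
  have hH : ∀ h, h ∈ hfin.toFinset ↔ h ∉ S := by simp
  have h := main_ineq h0 hadd hfin.toFinset hH (gen_finite hfin).toFinset (by simp) a hl
  have e1 : ∑ r ∈ RR a, NN S hfin.toFinset r =
      (RR a).card * ((nS S : ℤ) - cS S) + ∑ r ∈ RR a, (cShift S r : ℤ) := by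
    rw [← nsmul_eq_mul, ← sum_const, ← sum_add_distrib]
    apply sum_congr rfl
    intro r _
    have := NN_eq hfin.toFinset hH 0 r
    rw [zero_add] at this
    rw [this, nS_eq hfin, cS_eq, cShift_eq hfin, cShift_eq hfin]
    ring
  rw [e1, ← eS_eq hfin, ← cShift_eq hfin, ← cS_eq] at h
  simp only [← cShift_eq hfin] at h
  have e2 : ((RR a).card : ℝ) = ∏ j, (a j : ℝ) := by simp [RR]
  have hA : (0 : ℝ) < ∏ j, (a j : ℝ) :=
    prod_pos (fun j _ => by exact_mod_cast (hl j).1.1)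
  have h' := (Int.cast_le (R := ℝ)).mpr h
  push_cast at h'
  rw [e2] at h'
  change _ ≤ _ * ((∑ r ∈ RR a, (cShift S r : ℝ)) / _ - _)
  set W := ∑ r ∈ RR a, (cShift S r : ℝ)
  set A := ∏ j, (a j : ℝ)
  have e3 : W = A * (W / A) := by field_simp
  set V := W / A
  rw [e3] at h'
  have : A * ((d : ℝ) * cS S - (eS S : ℝ) * nS S) ≤ A * (((eS S : ℝ) - d - 1) * (V - cS S)) := by
    linarith
  exact le_of_mul_le_mul_left this hA

theorem exists_fact {S : Set (Fin d → ℕ)} (G : Finset (Fin d → ℕ)) (hG : ∀ g, g ∈ G ↔ g ∈ Gen S) :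
    ∀ y ∈ S, ∃ v : G → ℕ, y = ∑ g : G, v g • (g : Fin d → ℕ) := by
  classical
  apply gen_induction
  · exact ⟨0, by simp⟩
  · intro g hg
    refine ⟨Pi.single ⟨g, (hG g).mpr hg⟩ 1, ?_⟩
    rw [sum_eq_single ⟨g, (hG g).mpr hg⟩ (fun i _ hi => by simp [Pi.single_eq_of_ne hi]) (by simp)]
    simp
  · rintro p - q - ⟨v, rfl⟩ ⟨w, rfl⟩
    exact ⟨v + w, by simp [add_smul, sum_add_distrib]⟩

theorem axis_count {S : Set (Fin d → ℕ)} (hfin : Sᶜ.Finite) {j : Fin d} {t N : ℕ}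
    (ht : IsLeast {t : ℕ | 0 < t ∧ (Pi.single j t : Fin d → ℕ) ∈ S} t)
    (hN : ∀ k, N < k → (Pi.single j k : Fin d → ℕ) ∈ S) :
    t ≤ ((N + t) / t + 1) ^ eS S := by
  classical
  set G := (gen_finite hfin).toFinset with hGdef
  have hG : ∀ g, g ∈ G ↔ g ∈ Gen S := by simp [hGdef]
  have hex : ∀ k : ℕ, ∃ v : G → ℕ, N < k →
      (Pi.single j k : Fin d → ℕ) = ∑ g : G, v g • (g : Fin d → ℕ) := by
    intro k
    by_cases hk : N < k
    · obtain ⟨v, hv⟩ := exists_fact G hG _ (hN k hk)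
      exact ⟨v, fun _ => hv⟩
    · exact ⟨0, fun h => absurd h hk⟩
  choose v hv using hex
  have h1 : (Ioc N (N + t)).card ≤
      (Fintype.piFinset (fun _ : G => range ((N + t) / t + 1))).card := by
    apply card_le_card_of_injOn v
    · intro k hk
      have hk' := mem_Ioc.mp hk
      simp only [mem_coe, Fintype.mem_piFinset, mem_range]
      intro g
      rw [Nat.lt_succ_iff, Nat.le_div_iff_mul_le ht.1.1]
      by_cases hv0 : v k g = 0
      · simp [hv0]
      have hle : v k g • (g : Fin d → ℕ) ≤ Pi.single j k := by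
        rw [hv k hk'.1]
        exact single_le_sum (f := fun g : G => v k g • (g : Fin d → ℕ))
          (fun _ _ _ => Nat.zero_le _) (mem_univ g)
      have hg := (hG g).mp g.2
      have hg' : (g : Fin d → ℕ) = Pi.single j ((g : Fin d → ℕ) j) := by
        funext i
        by_cases hi : i = j
        · subst hi; simp
        · have := hle i
          simp only [Pi.smul_apply, smul_eq_mul, Pi.single_eq_of_ne hi, Nat.le_zero,
            mul_eq_zero] at this ⊢
          tauto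
      have hpos : 0 < (g : Fin d → ℕ) j := by
        by_contra hh
        apply hg.2.1
        rw [hg', show (g : Fin d → ℕ) j = 0 by omega]
        simp
      have h2 : t ≤ (g : Fin d → ℕ) j := ht.2 ⟨hpos, hg' ▸ hg.1⟩
      have h3 := hle j
      simp only [Pi.smul_apply, smul_eq_mul, Pi.single_eq_same] at h3
      calc v k g * t ≤ v k g * (g : Fin d → ℕ) j := Nat.mul_le_mul_left _ h2
        _ ≤ k := h3
        _ ≤ N + t := hk'.2
    · intro k hk k' hk' h
      have e1 := hv k (mem_Ioc.mp hk).1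
      have e2 := hv k' (mem_Ioc.mp hk').1
      rw [h, ← e2] at e1
      simpa using congrFun e1 j
  rw [eS_eq hfin]
  simpa using h1

theorem cShift_frob {S : Set (Fin d → ℕ)} {f : Fin d → ℕ} (hf : f ∉ S) (hmax : ∀ h, h ∉ S → h ≤ f)
    (r : Fin d → ℕ) : cShift S r = ∏ j, (f j + r j + 1) := by
  have : {x : Fin d → ℕ | ∃ h : Fin d → ℕ, h ∉ S ∧ x ≤ h + r} = ↑(Finset.Iic (f + r)) := by
    ext x
    simp only [Set.mem_ofPred_eq, coe_Iic, Set.mem_Iic]
    exact ⟨fun ⟨h, hh, hx⟩ => hx.trans (add_le_add_left (hmax h hh) r), fun hx => ⟨f, hf, hx⟩⟩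
  unfold cShift
  rw [this, Set.ncard_coe_finset, Pi.card_Iic]
  simp

theorem asym (d e₀ : ℕ) (ε : ℝ) (hε : 0 < ε) :
    ∃ M : ℕ, ∀ (S : Set (Fin d → ℕ)) (f : Fin d → ℕ), (0 : Fin d → ℕ) ∈ S →
      (∀ x ∈ S, ∀ y ∈ S, x + y ∈ S) → f ∉ S → (∀ h, h ∉ S → h ≤ f) → eS S ≤ e₀ →
      (∀ j, (Pi.single j 1 : Fin d → ℕ) ∉ S → M ≤ f j) →
      (1 - ε) * ((d : ℝ) * cS S) ≤ (eS S : ℝ) * nS S := by
  obtain ⟨K, hK1, hK⟩ : ∃ K : ℕ, 1 ≤ K ∧ (e₀ : ℝ) * ((1 + 1 / (K : ℝ)) ^ d - 1) ≤ ε := by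
    have h1 : Filter.Tendsto (fun K : ℕ => (e₀ : ℝ) * ((1 + 1 / (K : ℝ)) ^ d - 1)) Filter.atTop
        (nhds ((e₀ : ℝ) * ((1 + 0) ^ d - 1))) :=
      ((((tendsto_one_div_atTop_nhds_zero_nat).const_add 1).pow d).sub_const 1).const_mul _
    have h2 := h1.eventually (eventually_le_nhds (by simpa using hε))
    obtain ⟨K, hK⟩ := ((Filter.eventually_ge_atTop 1).and h2).exists
    exact ⟨K, hK.1, hK.2⟩
  refine ⟨K * (K + 1) ^ e₀, fun S f h0 hadd hf hmax he hM => ?_⟩
  rcases Nat.eq_zero_or_pos d with hd | hd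
  · have : (d : ℝ) = 0 := by exact_mod_cast hd
    rw [this]
    simp only [zero_mul, mul_zero]
    positivity
  have hfin : Sᶜ.Finite := (Set.finite_Iic f).subset (fun h hh => hmax h hh)
  have hax : ∀ j k, f j < k → (Pi.single j k : Fin d → ℕ) ∈ S := by
    intro j k hk
    by_contra hh
    have := hmax _ hh j
    simp at this
    omega
  have hex : ∀ j, ∃ t, IsLeast {t : ℕ | 0 < t ∧ (Pi.single j t : Fin d → ℕ) ∈ S} t := by
    intro j
    classical
    exact ⟨_, Nat.isLeast_find ⟨f j + 1, by omega, hax j _ (by omega)⟩⟩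
  choose a hl using hex
  have hz := zhai h0 hadd hfin a hl
  have hsmall : ∀ j r, r < a j → K * r ≤ f j + 1 := by
    intro j r hr
    by_contra hh
    have ha1 : (Pi.single j 1 : Fin d → ℕ) ∉ S := by
      intro h1
      have : a j ≤ 1 := (hl j).2 ⟨by omega, h1⟩
      have : r = 0 := by omega
      subst this
      omega
    have hc := axis_count hfin (hl j) (hax j)
    have h1 : f j < K * a j := by
      have : K * r ≤ K * a j := Nat.mul_le_mul_left _ hr.le
      omega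
    have h2 : (f j + a j) / a j ≤ K := by
      rw [← Nat.lt_succ_iff, Nat.div_lt_iff_lt_mul (by omega), Nat.succ_mul]
      omega
    have h3 : a j ≤ (K + 1) ^ e₀ :=
      hc.trans ((Nat.pow_le_pow_left (by omega) _).trans (Nat.pow_le_pow_right (by omega) he))
    have h4 := hM j ha1
    have h5 : K * a j ≤ K * (K + 1) ^ e₀ := Nat.mul_le_mul_left _ h3
    omega
  have hKpos : (0 : ℝ) < K := by exact_mod_cast hK1
  have hc : (cS S : ℝ) = ∏ j, ((f j : ℝ) + 1) := by
    rw [cS_eq, cShift_frob hf hmax]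
    simp
  have hcpos : (0 : ℝ) ≤ cS S := by positivity
  have hup : ∀ r ∈ Fintype.piFinset (fun j => range (a j)),
      (cS S : ℝ) ≤ cShift S r ∧ (cShift S r : ℝ) ≤ (1 + 1 / (K : ℝ)) ^ d * cS S := by
    intro r hr
    rw [cShift_frob hf hmax, hc]
    push_cast
    constructor
    · apply prod_le_prod (fun j _ => by positivity)
      intro j _
      have : (0 : ℝ) ≤ r j := by positivity
      linarith
    · have : (1 + 1 / (K : ℝ)) ^ d = ∏ _j : Fin d, (1 + 1 / (K : ℝ)) := by simp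
      rw [this, ← prod_mul_distrib]
      apply prod_le_prod (fun j _ => by positivity)
      intro j _
      have h1 : (K : ℝ) * r j ≤ f j + 1 := by
        exact_mod_cast hsmall j (r j) (mem_RR.mp hr j)
      have h2 : (r j : ℝ) ≤ 1 / (K : ℝ) * (f j + 1) := by
        rw [one_div, inv_mul_eq_div, le_div_iff₀ hKpos]
        linarith
      linarith
  have hA : (0 : ℝ) < ∏ j, (a j : ℝ) :=
    prod_pos (fun j _ => by exact_mod_cast (hl j).1.1)
  have hcard : ((Fintype.piFinset (fun j => range (a j))).card : ℝ) = ∏ j, (a j : ℝ) := by simp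
  have hlo := card_nsmul_le_sum _ _ _ (fun r hr => (hup r hr).1)
  have hhi := sum_le_card_nsmul _ _ _ (fun r hr => (hup r hr).2)
  rw [nsmul_eq_mul, hcard] at hlo hhi
  set W := ∑ r ∈ Fintype.piFinset (fun j => range (a j)), (cShift S r : ℝ)
  set A := ∏ j, (a j : ℝ)
  have h1 : (cS S : ℝ) ≤ W / A := by rw [le_div_iff₀ hA]; linarith
  have h2 : W / A ≤ (1 + 1 / (K : ℝ)) ^ d * cS S := by rw [div_le_iff₀ hA]; linarith
  set V := W / A
  have he' : (eS S : ℝ) ≤ e₀ := by exact_mod_cast he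
  have hd' : (1 : ℝ) ≤ d := by exact_mod_cast hd
  have h3 : ((eS S : ℝ) - d - 1) * (V - cS S) ≤ e₀ * (V - cS S) :=
    mul_le_mul_of_nonneg_right (by linarith) (by linarith)
  have h4 : (e₀ : ℝ) * (V - cS S) ≤ e₀ * (((1 + 1 / (K : ℝ)) ^ d - 1) * cS S) :=
    mul_le_mul_of_nonneg_left (by linarith) (by positivity)
  have h5 : (e₀ : ℝ) * (((1 + 1 / (K : ℝ)) ^ d - 1) * cS S) ≤ ε * cS S := by
    rw [← mul_assoc]
    exact mul_le_mul_of_nonneg_right hK hcpos
  have h6 : ε * cS S ≤ ε * (d * cS S) :=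
    mul_le_mul_of_nonneg_left (by nlinarith) hε.le
  linarith

end Pool.Agent.Lib.MP_299528_co
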