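import Pool.Agent.Lib.MP_299528_co.AsyStd
import Pool.Agent.Lib.MP_299528_co.AsyQ
import Pool.Agent.Lib.MP_299528_co.Asym

-- part Pool.Agent.Lib.MP_299528_co.AsyComb
section

set_option autoImplicit false

namespace Pool.Agent.Lib.MP_299528_co

open Finset

/-- The number of lifts `x + i m` below `g`. -/
def KK (m g x : ℕ) : ℕ := (g - x + m - 1) / m

/-- The residue of `x - g` modulo `m`. -/
def UU (m g x : ℕ) : ℕ := m * KK m g x + x - g

theorem KU {m g x : ℕ} (hx : x < m) (hg : m ≤ g) :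
    m * KK m g x + x = g + UU m g x ∧ UU m g x < m ∧ 1 ≤ KK m g x := by
  have hm : 0 < m := by omega
  have h1 : 1 ≤ KK m g x := (Nat.le_div_iff_mul_le hm).mpr (by omega)
  have h2 := Nat.div_add_mod (g - x + m - 1) m
  have h3 := Nat.mod_lt (g - x + m - 1) hm
  unfold UU
  unfold KK at h1 ⊢
  omega

theorem KK_mono {m g g' x : ℕ} (h : g ≤ g') : KK m g x ≤ KK m g' x :=
  Nat.div_le_div_right (by omega)

theorem sum_UU {m g : ℕ} (hg : m ≤ g) (H : ℕ → ℝ) :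
    ∑ x ∈ range m, H (UU m g x) = ∑ t ∈ range m, H t := by
  have hinj : Set.InjOn (UU m g) (range m) := by
    intro x hx y hy h
    have hx' := mem_range.mp hx
    have hy' := mem_range.mp hy
    have h1 := (KU hx' hg).1
    have h2 := (KU hy' hg).1
    have h3 : m * KK m g x + x = m * KK m g y + y := by omega
    have h4 := congrArg (· % m) h3
    simpa [Nat.mul_add_mod, Nat.mod_eq_of_lt hx', Nat.mod_eq_of_lt hy'] using h4
  rw [← sum_image (f := H) hinj]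
  congr 1
  apply eq_of_subset_of_card_le
  · intro t ht
    obtain ⟨x, hx, rfl⟩ := mem_image.mp ht
    exact mem_range.mpr (KU (mem_range.mp hx) hg).2.1
  · rw [card_image_of_injOn hinj]

theorem sum_KK {m g : ℕ} (hm : 0 < m) (hg : m ≤ g) : ∑ x ∈ range m, (KK m g x : ℝ) = g := by
  have h1 : ∑ x ∈ range m, ((m : ℝ) * KK m g x + x) = ∑ x ∈ range m, ((g : ℝ) + UU m g x) :=
    sum_congr rfl (fun x hx => by exact_mod_cast (KU (mem_range.mp hx) hg).1)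
  rw [sum_add_distrib, sum_add_distrib, sum_UU hg (fun t => (t : ℝ)), ← mul_sum] at h1
  simp only [sum_const, card_range, nsmul_eq_mul] at h1
  have hm' : (m : ℝ) ≠ 0 := by positivity
  exact mul_left_cancel₀ hm' (by linarith)

theorem sum_lift {m c g : ℕ} (hmc : m ≤ c) (hg : m ≤ g) (F : ℕ → ℝ) (h0 : ∀ u, 0 ≤ F u)
    (hF : ∀ x i, F (c + x + i * m) = F (c + x)) :
    ∑ u ∈ range c, F u + ∑ x ∈ range m, ((KK m g x : ℝ) - 1) * F (c + x) ≤
      ∑ u ∈ range (g + (c - m)), F u := by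
  have e : g + (c - m) = c + (g - m) := by omega
  rw [e, sum_range_add, add_le_add_iff_left]
  set A : Finset (Σ _ : ℕ, ℕ) := (range m).sigma (fun x => range (KK m g x - 1)) with hA
  have h1 : ∑ x ∈ range m, ((KK m g x : ℝ) - 1) * F (c + x) =
      ∑ p ∈ A, F (c + (p.1 + p.2 * m)) := by
    rw [hA, sum_sigma]
    refine sum_congr rfl (fun x hx => ?_)
    have := (KU (mem_range.mp hx) hg).2.2
    simp only [← add_assoc, hF, sum_const, card_range, nsmul_eq_mul]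
    rw [Nat.cast_sub this, Nat.cast_one]
  have hinj : Set.InjOn (fun p : (Σ _ : ℕ, ℕ) => p.1 + p.2 * m) A := by
    rintro ⟨x, i⟩ hx ⟨y, k⟩ hy h
    simp only [hA, coe_sigma, Set.mem_sigma_iff, coe_range, Set.mem_Iio] at hx hy
    simp only at h
    have e2 : x = y := by
      have := congrArg (· % m) h
      simpa [Nat.add_mul_mod_self_right, Nat.mod_eq_of_lt hx.1, Nat.mod_eq_of_lt hy.1] using this
    subst e2
    have e3 : i = k := Nat.eq_of_mul_eq_mul_right (by omega : 0 < m) (by omega)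
    rw [e3]
  rw [h1, ← sum_image (f := fun y => F (c + y)) hinj]
  apply sum_le_sum_of_subset_of_nonneg
  · intro y hy
    obtain ⟨⟨x, i⟩, hp, rfl⟩ := mem_image.mp hy
    simp only [hA, mem_sigma, mem_range] at hp ⊢
    obtain ⟨k1, k2, k3⟩ := KU hp.1 hg
    have k4 : m * (i + 2) ≤ m * KK m g x := Nat.mul_le_mul_left _ (by omega)
    have k5 : m * (i + 2) = i * m + m + m := by ring
    omega
  · intro y _ _
    exact h0 _

/-- The parameters of the classification of generators and elements. -/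
structure Par extends Sys where
  Γ : ℕ
  w : ℕ
  L : ℕ
  N : ℕ
  hw : 0 < w
  hL : 0 < L
  hmc : m ≤ c
  hN : Γ * m ≤ N * w
  hΓ : 2 ≤ Γ

namespace Par

variable (Y : Par) (o : ℕ)

/-- The light generators of class `j`. -/
def cls (j : ℕ) : Finset ℕ := Y.G.filter (fun g => g < Y.Γ * Y.m ∧ (g - Y.m) / Y.w = j)

/-- The heavy generators. -/
def hv : Finset ℕ := Y.G.filter (fun g => ¬ g < Y.Γ * Y.m)

/-- The left end point of class `j`. -/
def le (j : ℕ) : ℕ := Y.m + j * Y.w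

/-- The indices of the classes. -/
def J : Finset ℕ := (range Y.N).filter (fun j => Y.le j < Y.Γ * Y.m)

/-- The number of generators of class `j` in the factorization of `s`. -/
def b (j s : ℕ) : ℕ := ∑ g ∈ Y.cls j, Y.a s g

/-- The type of `s`. -/
def ty (s : ℕ) : ℕ → ℕ := fun j => (Y.b j s + o) / Y.L

open Classical in
/-- The indicator of the elements of type `τ`. -/
noncomputable def χ (τ : ℕ → ℕ) (u : ℕ) : ℝ := if u ∈ Y.S ∧ Y.ty o u = τ then 1 else 0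

/-- The indicator of the boundary elements for class `j`. -/
def bd (j u : ℕ) : ℝ := if (Y.b j u + o) % Y.L = 0 then 1 else 0

/-- The lower end of the range of `b j` on the type `τ`. -/
def β (τ : ℕ → ℕ) (j : ℕ) : ℕ := Y.L * τ j - o

theorem χ_nonneg (τ : ℕ → ℕ) (u : ℕ) : 0 ≤ Y.χ o τ u := by
  unfold χ
  split_ifs <;> norm_num

theorem bd_nonneg (j u : ℕ) : 0 ≤ Y.bd o j u := by
  unfold bd
  split_ifs <;> norm_num

theorem bd_le (j u : ℕ) : 0 ≤ 1 - Y.bd o j u := by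
  unfold bd
  split_ifs <;> norm_num

theorem cls_spec {j g : ℕ} (hg : g ∈ Y.cls j) :
    Y.m < g ∧ Y.le j ≤ g ∧ g + 1 ≤ Y.le j + Y.w := by
  obtain ⟨h1, -, h3⟩ := mem_filter.mp hg |>.imp_right id
  have h4 := Y.hG g h1
  have h5 := Nat.div_add_mod (g - Y.m) Y.w
  have h6 := Nat.mod_lt (g - Y.m) Y.hw
  rw [h3, mul_comm] at h5
  unfold le
  omega

theorem m_le (j : ℕ) : Y.m ≤ Y.le j := Nat.le_add_right _ _

theorem sum_G (f : ℕ → ℝ) :
    ∑ g ∈ Y.G, f g = ∑ j ∈ Y.J, ∑ g ∈ Y.cls j, f g + ∑ g ∈ Y.hv, f g := by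
  rw [← sum_filter_add_sum_filter_not Y.G (fun g => g < Y.Γ * Y.m)]
  congr 1
  rw [← sum_fiberwise_of_maps_to (t := Y.J) (g := fun g => (g - Y.m) / Y.w)]
  · refine sum_congr rfl (fun j _ => ?_)
    rw [filter_filter]
    rfl
  · intro g hg
    obtain ⟨h1, h2⟩ := mem_filter.mp hg
    have h3 := (Y.cls_spec (j := (g - Y.m) / Y.w) (mem_filter.mpr ⟨h1, h2, rfl⟩)).2.1
    refine mem_filter.mpr ⟨mem_range.mpr ?_, by omega⟩
    have := Y.hN
    exact (Nat.div_lt_iff_lt_mul Y.hw).mpr (by omega)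

theorem lift {s : ℕ} (hs : s ∈ Y.S) (i : ℕ) :
    s + i * Y.m ∈ Y.S ∧ ∀ h, h ≠ Y.m → Y.a (s + i * Y.m) h = Y.a s h := by
  induction i with
  | zero => simpa using hs
  | succ i ih =>
    have := Y.up _ ih.1
    rw [Nat.succ_mul, ← add_assoc]
    exact ⟨this.1, fun h hh => (this.2 h hh).trans (ih.2 h hh)⟩

theorem b_lift {s : ℕ} (hs : s ∈ Y.S) (i j : ℕ) : Y.b j (s + i * Y.m) = Y.b j s :=
  sum_congr rfl (fun _ hg => (Y.lift hs i).2 _ (Y.cls_spec hg).1.ne')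

theorem χ_lift {s : ℕ} (hs : s ∈ Y.S) (i : ℕ) (τ : ℕ → ℕ) :
    Y.χ o τ (s + i * Y.m) = Y.χ o τ s := by
  have : Y.ty o (s + i * Y.m) = Y.ty o s := by
    funext j
    simp only [ty, Y.b_lift hs]
  unfold χ
  by_cases h : Y.ty o s = τ
  · rw [if_pos ⟨(Y.lift hs i).1, this.trans h⟩, if_pos ⟨hs, h⟩]
  · rw [if_neg (fun k => h (this.symm.trans k.2)), if_neg (fun k => h k.2)]

theorem bd_lift {s : ℕ} (hs : s ∈ Y.S) (i j : ℕ) : Y.bd o j (s + i * Y.m) = Y.bd o j s := by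
  simp only [bd, Y.b_lift hs]

theorem χ_up (τ : ℕ → ℕ) (t : ℕ) : Y.χ o τ (Y.c - Y.m + t) ≤ Y.χ o τ (Y.c + t) := by
  by_cases hs : Y.c - Y.m + t ∈ Y.S
  · have := Y.χ_lift o hs 1 τ
    have e : Y.c - Y.m + t + 1 * Y.m = Y.c + t := by have := Y.hmc; omega
    rw [e] at this
    exact this.ge
  · have := Y.χ_nonneg o τ (Y.c + t)
    simpa [χ, hs] using this

theorem b_bounds (τ : ℕ → ℕ) (j u : ℕ) :
    (Y.β o τ j : ℝ) * Y.χ o τ u ≤ Y.b j u * Y.χ o τ u ∧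
      (Y.b j u : ℝ) * Y.χ o τ u ≤ (Y.β o τ j + Y.L) * Y.χ o τ u := by
  unfold χ
  split_ifs with h
  · have h1 : (Y.b j u + o) / Y.L = τ j := congrFun h.2 j
    have h2 := Nat.div_add_mod (Y.b j u + o) Y.L
    have h3 := Nat.mod_lt (Y.b j u + o) Y.hL
    rw [h1] at h2
    have h4 : Y.β o τ j ≤ Y.b j u := by unfold β; omega
    have h5 : Y.b j u ≤ Y.β o τ j + Y.L := by unfold β; omega
    rw [mul_one, mul_one, mul_one]
    exact ⟨by exact_mod_cast h4, by exact_mod_cast h5⟩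
  · simp

theorem step_aux {g s : ℕ} {τ : ℕ → ℕ} {z : ℝ} (hz0 : 0 ≤ z) (hz1 : z ≤ 1)
    (h : s + g ∈ Y.S → 1 ≤ Y.a (s + g) g → z ≠ 0 → Y.ty o s = Y.ty o (s + g)) :
    (Y.a (s + g) g : ℝ) * (Y.χ o τ (s + g) * z) ≤ (Y.a s g + 1) * Y.χ o τ s := by
  have h0 : 0 ≤ ((Y.a s g : ℝ) + 1) * Y.χ o τ s := mul_nonneg (by positivity) (Y.χ_nonneg o τ s)
  by_cases h1 : s + g ∈ Y.S ∧ Y.ty o (s + g) = τ
  · by_cases h2 : 1 ≤ Y.a (s + g) g
    · by_cases h3 : z = 0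
      · simpa [h3] using h0
      · obtain ⟨-, k2, k3, -⟩ := Y.down _ h1.1 g h2
        rw [Nat.add_sub_cancel] at k2 k3
        have k4 : Y.ty o s = τ := (h h1.1 h2 h3).trans h1.2
        have k5 : (Y.a (s + g) g : ℝ) = Y.a s g + 1 := by exact_mod_cast k3.symm
        simp only [χ, h1, k2, k4, and_self, if_true, k5, one_mul]
        exact mul_le_mul_of_nonneg_left hz1 (by positivity)
    · have : Y.a (s + g) g = 0 := by omega
      simpa [this] using h0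
  · simpa [χ, h1] using h0

theorem b_down {g s j : ℕ} (hs : s + g ∈ Y.S) (ha : 1 ≤ Y.a (s + g) g) (hg : g ∉ Y.cls j) :
    Y.b j s = Y.b j (s + g) := by
  obtain ⟨-, -, -, k4⟩ := Y.down _ hs g ha
  rw [Nat.add_sub_cancel] at k4
  exact sum_congr rfl (fun h hh => k4 h (fun e => hg (e ▸ hh)))

theorem step_light {j g : ℕ} (hg : g ∈ Y.cls j) (τ : ℕ → ℕ) (s : ℕ) :
    (Y.a (s + g) g : ℝ) * (Y.χ o τ (s + g) * (1 - Y.bd o j (s + g))) ≤
      (Y.a s g + 1) * Y.χ o τ s := by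
  refine Y.step_aux o (Y.bd_le o _ _) (by linarith [Y.bd_nonneg o j (s + g)]) ?_
  intro hs ha hz
  funext i
  by_cases hi : i = j
  · subst hi
    obtain ⟨-, -, k3, k4⟩ := Y.down _ hs g ha
    rw [Nat.add_sub_cancel] at k3 k4
    have e1 : Y.b i (s + g) = Y.b i s + 1 := by
      have e3 : ∑ h ∈ (Y.cls i).erase g, Y.a (s + g) h = ∑ h ∈ (Y.cls i).erase g, Y.a s h :=
        sum_congr rfl (fun h hh => (k4 h (ne_of_mem_erase hh)).symm)
      have e4 := add_sum_erase _ (fun h => Y.a s h) hg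
      have e5 := add_sum_erase _ (fun h => Y.a (s + g) h) hg
      unfold b
      omega
    have e2 : ¬ Y.L ∣ Y.b i s + o + 1 := by
      intro hd
      apply hz
      have : (Y.b i (s + g) + o) % Y.L = 0 := by
        rw [e1, add_right_comm]
        exact Nat.mod_eq_zero_of_dvd hd
      simp [bd, this]
    simp only [ty, e1]
    rw [add_right_comm, Nat.succ_div_of_not_dvd e2]
  · have : g ∉ Y.cls i := fun h => hi ((mem_filter.mp h).2.2.symm.trans (mem_filter.mp hg).2.2)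
    simp only [ty, Y.b_down hs ha this]

theorem step_other {g : ℕ} (hg : ∀ j, g ∉ Y.cls j) (τ : ℕ → ℕ) (s : ℕ) :
    (Y.a (s + g) g : ℝ) * Y.χ o τ (s + g) ≤ (Y.a s g + 1) * Y.χ o τ s := by
  have := Y.step_aux o (g := g) (s := s) (τ := τ) zero_le_one le_rfl (fun hs ha _ => by
    funext i
    simp only [ty, Y.b_down hs ha (hg i)])
  rwa [mul_one] at this

theorem aχ_zero {g u : ℕ} (h : u < g) (τ : ℕ → ℕ) : (Y.a u g : ℝ) * Y.χ o τ u = 0 := by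
  by_cases hs : u ∈ Y.S
  · have : Y.a u g = 0 := by
      by_contra h2
      have := (Y.down u hs g (by omega)).1
      omega
    simp [this]
  · simp [χ, hs]

theorem sum_src (τ : ℕ → ℕ) (j s : ℕ) :
    ∑ g ∈ Y.cls j, ((Y.a s g : ℝ) + 1) * Y.χ o τ s ≤
      (Y.β o τ j + Y.L + (Y.cls j).card) * Y.χ o τ s := by
  have h1 := (Y.b_bounds o τ j s).2
  rw [← sum_mul, sum_add_distrib]
  simp only [b, Nat.cast_sum] at h1
  simp only [sum_const, nsmul_eq_mul, mul_one]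
  linarith

/-- Sources in the last period below the conductor. -/
theorem ineq_src (τ : ℕ → ℕ) (j : ℕ) (f y : ℕ → ℝ) (hf : ∀ t, t < Y.m → 0 ≤ f t)
    (hy : ∀ x, x < Y.m → ∀ g ∈ Y.cls j, y x ≤ f (UU Y.m g x)) (hy1 : ∀ x, x < Y.m → y x ≤ 1) :
    (Y.β o τ j : ℝ) * (∑ x ∈ range Y.m, Y.χ o τ (Y.c + x) * y x -
        ∑ x ∈ range Y.m, Y.χ o τ (Y.c + x) * Y.bd o j (Y.c + x)) ≤
      (Y.β o τ j + Y.L + (Y.cls j).card) * ∑ t ∈ range Y.m, Y.χ o τ (Y.c - Y.m + t) * f t := by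
  have h1 : ∀ g ∈ Y.cls j, ∑ x ∈ range Y.m, (Y.a (Y.c + x) g : ℝ) *
      (Y.χ o τ (Y.c + x) * (1 - Y.bd o j (Y.c + x))) * f (UU Y.m g x) ≤
      ∑ t ∈ range Y.m, ((Y.a (Y.c - Y.m + t) g : ℝ) + 1) * Y.χ o τ (Y.c - Y.m + t) * f t := by
    intro g hg
    have hmg := (Y.cls_spec hg).1
    rw [← sum_UU hmg.le (fun t => ((Y.a (Y.c - Y.m + t) g : ℝ) + 1) *
      Y.χ o τ (Y.c - Y.m + t) * f t)]
    refine sum_le_sum (fun x hx => ?_)
    obtain ⟨k1, k2, k3⟩ := KU (mem_range.mp hx) hmg.le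
    refine mul_le_mul_of_nonneg_right ?_ (hf _ k2)
    have k4 := Y.step_light o hg τ (Y.c - Y.m + UU Y.m g x)
    obtain ⟨i, hi⟩ := Nat.exists_eq_add_of_le k3
    have e : Y.c - Y.m + UU Y.m g x + g = Y.c + x + i * Y.m := by
      have := Y.hmc
      rw [hi, mul_add, mul_comm Y.m i] at k1
      omega
    have hS : Y.c + x ∈ Y.S := Y.cond _ (Nat.le_add_right _ _)
    rwa [e, Y.χ_lift o hS, Y.bd_lift o hS, (Y.lift hS i).2 g hmg.ne'] at k4
  have h2 := sum_le_sum h1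
  rw [sum_comm, sum_comm (s := Y.cls j)] at h2
  rw [← sum_sub_distrib, mul_sum, mul_sum]
  refine le_trans (sum_le_sum (fun x hx => ?_)) (h2.trans (sum_le_sum (fun t ht => ?_)))
  · have hx' := mem_range.mp hx
    set z := Y.χ o τ (Y.c + x) with hz
    set v := 1 - Y.bd o j (Y.c + x) with hv
    have hz0 : 0 ≤ z := Y.χ_nonneg o _ _
    have hv0 : 0 ≤ v := Y.bd_le o _ _
    have hβ : (0 : ℝ) ≤ Y.β o τ j := Nat.cast_nonneg _
    have k0 : z * y x - z * Y.bd o j (Y.c + x) ≤ z * v * y x := by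
      have := mul_nonneg (mul_nonneg hz0 (Y.bd_nonneg o j (Y.c + x))) (sub_nonneg.mpr (hy1 x hx'))
      rw [hv]
      linarith
    refine (mul_le_mul_of_nonneg_left k0 hβ).trans ?_
    by_cases hyx : 0 ≤ y x
    · have k1 := mul_le_mul_of_nonneg_right (Y.b_bounds o τ j (Y.c + x)).1 (mul_nonneg hv0 hyx)
      have k2 : (Y.b j (Y.c + x) : ℝ) * z * (v * y x) =
          ∑ g ∈ Y.cls j, (Y.a (Y.c + x) g : ℝ) * (z * v) * y x := by
        simp only [b, Nat.cast_sum, sum_mul]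
        exact sum_congr rfl (fun g _ => by ring)
      have k3 : ∑ g ∈ Y.cls j, (Y.a (Y.c + x) g : ℝ) * (z * v) * y x ≤
          ∑ g ∈ Y.cls j, (Y.a (Y.c + x) g : ℝ) * (z * v) * f (UU Y.m g x) :=
        sum_le_sum (fun g hg => mul_le_mul_of_nonneg_left (hy x hx' g hg) (by positivity))
      rw [← hz] at k1
      linarith
    · have k1 : (Y.β o τ j : ℝ) * (z * v * y x) ≤ 0 :=
        mul_nonpos_of_nonneg_of_nonpos hβ
          (mul_nonpos_of_nonneg_of_nonpos (mul_nonneg hz0 hv0) (not_le.mp hyx).le)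
      refine k1.trans (sum_nonneg (fun g hg => mul_nonneg (by positivity) ?_))
      exact hf _ (KU hx' (Y.cls_spec hg).1.le).2.1
  · rw [← sum_mul, ← mul_assoc]
    exact mul_le_mul_of_nonneg_right (Y.sum_src o τ j _) (hf t (mem_range.mp ht))

theorem shift_sum (g : ℕ) (H : ℕ → ℝ) (hH : ∀ u, u < g → H u = 0) (t : ℕ) :
    ∑ u ∈ range (g + t), H u = ∑ s ∈ range t, H (s + g) := by
  rw [sum_range_add, sum_eq_zero (fun u hu => hH u (mem_range.mp hu)), zero_add]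
  exact sum_congr rfl (fun s _ => by rw [add_comm])

/-- Sources at least one period below the conductor, light generators. -/
theorem ineq_low (τ : ℕ → ℕ) (j : ℕ) :
    (Y.β o τ j : ℝ) * (∑ u ∈ range Y.c, Y.χ o τ u * (1 - Y.bd o j u) +
        ∑ x ∈ range Y.m, ((KK Y.m (Y.le j) x : ℝ) - 1) *
          (Y.χ o τ (Y.c + x) * (1 - Y.bd o j (Y.c + x)))) ≤
      (Y.β o τ j + Y.L + (Y.cls j).card) * ∑ s ∈ range (Y.c - Y.m), Y.χ o τ s := by
  have h1 : ∀ g ∈ Y.cls j, ∑ u ∈ range (Y.le j + (Y.c - Y.m)),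
      (Y.a u g : ℝ) * (Y.χ o τ u * (1 - Y.bd o j u)) ≤
      ∑ s ∈ range (Y.c - Y.m), ((Y.a s g : ℝ) + 1) * Y.χ o τ s := by
    intro g hg
    have k1 := (Y.cls_spec hg).2.1
    refine le_trans (sum_le_sum_of_subset_of_nonneg (t := range (g + (Y.c - Y.m)))
      (range_subset_range.mpr (by omega)) (fun u _ _ => mul_nonneg (Nat.cast_nonneg _)
        (mul_nonneg (Y.χ_nonneg o _ _) (Y.bd_le o _ _)))) ?_
    rw [shift_sum g _ (fun u hu => by rw [← mul_assoc, Y.aχ_zero o hu, zero_mul])]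
    exact sum_le_sum (fun s _ => Y.step_light o hg τ s)
  have h2 := sum_le_sum h1
  rw [sum_comm, sum_comm (s := Y.cls j)] at h2
  have h3 := sum_lift Y.hmc (Y.m_le j) (fun u => Y.χ o τ u * (1 - Y.bd o j u))
    (fun u => mul_nonneg (Y.χ_nonneg o _ _) (Y.bd_le o _ _)) (fun x i => by
      have hS : Y.c + x ∈ Y.S := Y.cond _ (Nat.le_add_right _ _)
      simp only [Y.χ_lift o hS, Y.bd_lift o hS])
  refine (mul_le_mul_of_nonneg_left h3 (Nat.cast_nonneg _)).trans ?_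
  rw [mul_sum, mul_sum]
  refine le_trans (sum_le_sum (fun u _ => ?_)) (h2.trans (sum_le_sum (fun s _ => ?_)))
  · have := mul_le_mul_of_nonneg_right (Y.b_bounds o τ j u).1 (Y.bd_le o j u)
    rw [← sum_mul]
    simp only [b, Nat.cast_sum] at this
    linarith
  · exact Y.sum_src o τ j s

/-- Sources at least one period below the conductor, heavy generators. -/
theorem ineq_heavy (τ : ℕ → ℕ) {g : ℕ} (hg : g ∈ Y.hv) :
    ∑ x ∈ range Y.m, ((KK Y.m g x : ℝ) - 1) * (Y.a (Y.c + x) g * Y.χ o τ (Y.c + x)) ≤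
      ∑ s ∈ range (Y.c - Y.m), Y.χ o τ s := by
  obtain ⟨k1, k2⟩ := mem_filter.mp hg
  have hmg := Y.hG g k1
  have h0 : ∀ u, 0 ≤ (Y.a u g : ℝ) * Y.χ o τ u :=
    fun u => mul_nonneg (Nat.cast_nonneg _) (Y.χ_nonneg o _ _)
  have h1 := sum_lift Y.hmc hmg.le (fun u => (Y.a u g : ℝ) * Y.χ o τ u) h0 (fun x i => by
      have hS : Y.c + x ∈ Y.S := Y.cond _ (Nat.le_add_right _ _)
      simp only [Y.χ_lift o hS, (Y.lift hS i).2 g hmg.ne'])
  rw [shift_sum g _ (fun u hu => Y.aχ_zero o hu τ)] at h1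
  have h2 := sum_le_sum (s := range (Y.c - Y.m)) (fun s _ =>
    Y.step_other o (g := g) (fun j h => k2 (mem_filter.mp h).2.1) τ s)
  have h3 : ∑ u ∈ range (Y.c - Y.m), (Y.a u g : ℝ) * Y.χ o τ u ≤
      ∑ u ∈ range Y.c, (Y.a u g : ℝ) * Y.χ o τ u :=
    sum_le_sum_of_subset_of_nonneg (range_subset_range.mpr (Nat.sub_le _ _)) (fun u _ _ => h0 u)
  simp only [add_mul, one_mul, sum_add_distrib] at h2
  linarith

/-- The exponent of the multiplicity. -/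
theorem ineq_m (τ : ℕ → ℕ) :
    ∑ x ∈ range Y.m, (Y.a (Y.c + x) Y.m : ℝ) * Y.χ o τ (Y.c + x) ≤ ∑ s ∈ range Y.c, Y.χ o τ s := by
  have h1 := shift_sum Y.m (fun u => (Y.a u Y.m : ℝ) * Y.χ o τ u) (fun u hu => Y.aχ_zero o hu τ) Y.c
  rw [add_comm, sum_range_add] at h1
  have h2 := sum_le_sum (s := range Y.c) (fun s _ =>
    Y.step_other o (g := Y.m) (fun j h => lt_irrefl _ (Y.cls_spec h).1) τ s)
  simp only [add_mul, one_mul, sum_add_distrib] at h2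
  linarith

end Par

end Pool.Agent.Lib.MP_299528_co
end

-- part Pool.Agent.Lib.MP_299528_co.AsyMain
section

set_option autoImplicit false

namespace Pool.Agent.Lib.MP_299528_co

open Finset

namespace Par

variable (Y : Par) (o : ℕ)

/-- Sums over the elements of type `τ` in the window above the conductor. -/
noncomputable def W (τ : ℕ → ℕ) (f : ℕ → ℝ) : ℝ := ∑ x ∈ range Y.m, Y.χ o τ (Y.c + x) * f x

/-- Sums over the elements of type `τ` in the window below the conductor. -/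
noncomputable def Z (τ : ℕ → ℕ) (f : ℕ → ℝ) : ℝ :=
  ∑ t ∈ range Y.m, Y.χ o τ (Y.c - Y.m + t) * f t

/-- The number of elements of type `τ` below `t`. -/
noncomputable def nn (τ : ℕ → ℕ) (t : ℕ) : ℝ := ∑ s ∈ range t, Y.χ o τ s

/-- The number of boundary elements of type `τ` below the conductor. -/
noncomputable def eN (τ : ℕ → ℕ) (j : ℕ) : ℝ := ∑ s ∈ range Y.c, Y.χ o τ s * Y.bd o j s

/-- The padded number of generators. -/
noncomputable def ee : ℝ := Y.G.card + Y.J.card * Y.L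

/-- The weight of a class. -/
noncomputable def μ (j : ℕ) : ℝ := ((Y.cls j).card + Y.L) / Y.ee

/-- The normalized left end point of a class. -/
noncomputable def γ (j : ℕ) : ℝ := (Y.le j : ℝ) / Y.m

/-- The normalized width of a class. -/
noncomputable def δ : ℝ := ((Y.w : ℝ) - 1) / Y.m

/-- The dual weight of a point of the window. -/
noncomputable def Yw (x : ℕ) : ℝ :=
  ∑ j ∈ Y.J, Y.μ j * (KK Y.m (Y.le j) x / Y.γ j) + Y.hv.card / Y.ee

/-- The points of the window where the class is cut. -/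
def cut (j x : ℕ) : ℝ := if UU Y.m (Y.le j) x + 1 < Y.w then 1 else 0

theorem W_mono (τ : ℕ → ℕ) {f g : ℕ → ℝ} (h : ∀ x, x < Y.m → f x ≤ g x) :
    Y.W o τ f ≤ Y.W o τ g :=
  sum_le_sum (fun x hx => mul_le_mul_of_nonneg_left (h x (mem_range.mp hx)) (Y.χ_nonneg o _ _))

theorem W_nonneg (τ : ℕ → ℕ) {f : ℕ → ℝ} (h : ∀ x, x < Y.m → 0 ≤ f x) : 0 ≤ Y.W o τ f :=
  sum_nonneg (fun x hx => mul_nonneg (Y.χ_nonneg o _ _) (h x (mem_range.mp hx)))

theorem W_add (τ : ℕ → ℕ) (f g : ℕ → ℝ) :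
    Y.W o τ (fun x => f x + g x) = Y.W o τ f + Y.W o τ g := by
  simp only [W, mul_add, sum_add_distrib]

theorem W_sub (τ : ℕ → ℕ) (f g : ℕ → ℝ) :
    Y.W o τ (fun x => f x - g x) = Y.W o τ f - Y.W o τ g := by
  simp only [W, mul_sub, sum_sub_distrib]

theorem W_mul (τ : ℕ → ℕ) (r : ℝ) (f : ℕ → ℝ) : Y.W o τ (fun x => r * f x) = r * Y.W o τ f := by
  simp only [W, mul_sum]
  exact sum_congr rfl (fun x _ => by ring)

theorem W_const (τ : ℕ → ℕ) (r : ℝ) : Y.W o τ (fun _ => r) = r * Y.W o τ (fun _ => 1) := by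
  rw [← W_mul, mul_one]

theorem W_sum (τ : ℕ → ℕ) (T : Finset ℕ) (f : ℕ → ℕ → ℝ) :
    Y.W o τ (fun x => ∑ j ∈ T, f j x) = ∑ j ∈ T, Y.W o τ (f j) := by
  simp only [W, mul_sum]
  exact sum_comm

theorem Z_le (τ : ℕ → ℕ) {f : ℕ → ℝ} (h : ∀ x, x < Y.m → 0 ≤ f x) :
    0 ≤ Y.Z o τ f ∧ Y.Z o τ f ≤ Y.W o τ f :=
  ⟨sum_nonneg (fun x hx => mul_nonneg (Y.χ_nonneg o _ _) (h x (mem_range.mp hx))),
    sum_le_sum (fun x hx => mul_le_mul_of_nonneg_right (Y.χ_up o τ x) (h x (mem_range.mp hx)))⟩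

theorem m_pos : (0 : ℝ) < Y.m := by exact_mod_cast Y.hm

theorem nn_split (τ : ℕ → ℕ) : Y.nn o τ Y.c = Y.nn o τ (Y.c - Y.m) +
    Y.Z o τ (fun t => t / Y.m) + Y.Z o τ (fun t => 1 - t / Y.m) := by
  have e : Y.c = Y.c - Y.m + Y.m := by have := Y.hmc; omega
  unfold nn Z
  conv_lhs => rw [e, sum_range_add]
  rw [add_assoc, ← sum_add_distrib]
  congr 1
  exact sum_congr rfl (fun x _ => by ring)

theorem J_pos : 0 < Y.J.card := by
  have h1 := Y.hm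
  have h2 : 2 * Y.m ≤ Y.Γ * Y.m := Nat.mul_le_mul_right _ Y.hΓ
  have h3 := Y.hN
  refine card_pos.mpr ⟨0, mem_filter.mpr ⟨mem_range.mpr ?_, by simp only [le]; omega⟩⟩
  by_contra h
  have : Y.N = 0 := by omega
  rw [this] at h3
  omega

theorem ee_pos : 0 < Y.ee := by
  have h1 : (0 : ℝ) < Y.J.card := by exact_mod_cast Y.J_pos
  have h2 : (0 : ℝ) < Y.L := by exact_mod_cast Y.hL
  unfold ee
  positivity

theorem μ_pos (j : ℕ) : 0 < Y.μ j := by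
  have h1 := Y.ee_pos
  have h2 : (0 : ℝ) < Y.L := by exact_mod_cast Y.hL
  unfold μ
  positivity

theorem sum_μ : ∑ j ∈ Y.J, Y.μ j + Y.hv.card / Y.ee = 1 := by
  have h1 := Y.sum_G (fun _ => 1)
  simp only [sum_const, nsmul_eq_mul, mul_one] at h1
  simp only [μ]
  rw [← sum_div, ← add_div, div_eq_one_iff_eq Y.ee_pos.ne', sum_add_distrib]
  simp only [sum_const, nsmul_eq_mul, ee]
  linarith

theorem γ_ge (j : ℕ) : 1 ≤ Y.γ j :=
  (one_le_div Y.m_pos).mpr (by exact_mod_cast Y.m_le j)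

theorem γ_le {j : ℕ} (hj : j ∈ Y.J) : Y.γ j ≤ Y.Γ := by
  rw [γ, div_le_iff₀ Y.m_pos]
  exact_mod_cast (mem_filter.mp hj).2.le

theorem δ_nonneg : 0 ≤ Y.δ := by
  have : (1 : ℝ) ≤ Y.w := by exact_mod_cast Y.hw
  exact div_nonneg (by linarith) Y.m_pos.le

theorem KK_real {g x : ℕ} (hx : x < Y.m) (hg : Y.m ≤ g) :
    (KK Y.m g x : ℝ) = g / Y.m - x / Y.m + UU Y.m g x / Y.m ∧ (UU Y.m g x : ℝ) / Y.m ≤ 1 ∧
      (x : ℝ) / Y.m ≤ 1 ∧ (1 : ℝ) ≤ KK Y.m g x := by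
  obtain ⟨k1, k2, k3⟩ := KU hx hg
  have k4 : (Y.m : ℝ) * KK Y.m g x + x = g + UU Y.m g x := by exact_mod_cast k1
  have hm := Y.m_pos
  refine ⟨?_, (div_le_one hm).mpr (by exact_mod_cast k2.le),
    (div_le_one hm).mpr (by exact_mod_cast hx.le), by exact_mod_cast k3⟩
  field_simp
  linarith

theorem Yw_bounds {x : ℕ} (hx : x < Y.m) : 0 ≤ Y.Yw x ∧ Y.Yw x ≤ 2 := by
  have h0 : (0 : ℝ) ≤ Y.hv.card / Y.ee := div_nonneg (Nat.cast_nonneg _) Y.ee_pos.le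
  have h1 : ∀ j ∈ Y.J, 0 ≤ (KK Y.m (Y.le j) x : ℝ) / Y.γ j ∧
      (KK Y.m (Y.le j) x : ℝ) / Y.γ j ≤ 2 := by
    intro j _
    have k0 := Y.γ_ge j
    obtain ⟨k1, k2, -, -⟩ := Y.KK_real hx (Y.m_le j)
    have k3 : (0 : ℝ) ≤ x / Y.m := div_nonneg (Nat.cast_nonneg _) Y.m_pos.le
    refine ⟨div_nonneg (Nat.cast_nonneg _) (by linarith), (div_le_iff₀ (by linarith)).mpr ?_⟩
    unfold γ at k0 ⊢
    linarith
  constructor
  · exact add_nonneg (sum_nonneg (fun j hj => mul_nonneg (Y.μ_pos j).le (h1 j hj).1)) h0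
  · have h2 := sum_le_sum (fun j hj => mul_le_mul_of_nonneg_left (h1 j hj).2 (Y.μ_pos j).le)
    rw [← sum_mul] at h2
    have := Y.sum_μ
    unfold Yw
    linarith

theorem sum_Yw : ∑ x ∈ range Y.m, Y.Yw x = Y.m := by
  unfold Yw
  rw [sum_add_distrib, sum_comm]
  have h1 : ∀ j ∈ Y.J, ∑ x ∈ range Y.m, Y.μ j * (KK Y.m (Y.le j) x / Y.γ j) = Y.μ j * Y.m := by
    intro j _
    have k0 := Y.m_pos
    have k1 : (0 : ℝ) < Y.le j := lt_of_lt_of_le k0 (by exact_mod_cast Y.m_le j)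
    rw [← mul_sum, ← sum_div, sum_KK Y.hm (Y.m_le j), γ]
    field_simp
  rw [sum_congr rfl h1, ← sum_mul, sum_const, card_range, nsmul_eq_mul]
  linear_combination (Y.m : ℝ) * Y.sum_μ

theorem cut_nonneg (j x : ℕ) : 0 ≤ Y.cut j x := by
  unfold cut
  split_ifs <;> norm_num

theorem sum_cut (j : ℕ) : ∑ x ∈ range Y.m, Y.cut j x ≤ Y.δ * Y.m := by
  have h1 := sum_UU (Y.m_le j) (fun t => if t + 1 < Y.w then (1 : ℝ) else 0)
  unfold cut
  rw [h1, sum_boole, δ, div_mul_cancel₀ _ Y.m_pos.ne']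
  have h2 : ((range Y.m).filter (fun t => t + 1 < Y.w)).card ≤ (range (Y.w - 1)).card :=
    card_le_card (fun t ht => mem_range.mpr (by have := (mem_filter.mp ht).2; omega))
  rw [card_range] at h2
  have h3 : ((Y.w - 1 : ℕ) : ℝ) = (Y.w : ℝ) - 1 := by rw [Nat.cast_sub Y.hw, Nat.cast_one]
  rw [← h3]
  exact_mod_cast h2

theorem cmp_UU {j g x : ℕ} (hg : g ∈ Y.cls j) (hx : x < Y.m) :
    UU Y.m (Y.le j) x + 1 ≤ UU Y.m g x + Y.w ∧
      (¬ UU Y.m (Y.le j) x + 1 < Y.w → UU Y.m g x ≤ UU Y.m (Y.le j) x) := by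
  obtain ⟨k1, k2, k3⟩ := Y.cls_spec hg
  obtain ⟨a1, a2, -⟩ := KU hx k1.le
  obtain ⟨b1, b2, -⟩ := KU hx (Y.m_le j)
  have h1 : KK Y.m (Y.le j) x ≤ KK Y.m g x := KK_mono k2
  have h2 := Nat.mul_le_mul_left Y.m h1
  refine ⟨by omega, fun h => ?_⟩
  rcases h1.eq_or_lt with h3 | h3
  · rw [h3] at b1
    omega
  · have h4 := Nat.mul_le_mul_left Y.m (Nat.succ_le_of_lt h3)
    rw [Nat.mul_succ] at h4
    omega

/-- The ratio attached to a class and a type. -/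
noncomputable def α (τ : ℕ → ℕ) (j : ℕ) : ℝ := Y.β o τ j / ((Y.cls j).card + Y.L)

theorem α_nonneg (τ : ℕ → ℕ) (j : ℕ) : 0 ≤ Y.α o τ j := by
  unfold α
  positivity

theorem α_of (τ : ℕ → ℕ) (j : ℕ) {X P : ℝ}
    (h : (Y.β o τ j : ℝ) * X ≤ (Y.β o τ j + Y.L + (Y.cls j).card) * P) :
    Y.α o τ j * X ≤ (1 + Y.α o τ j) * P := by
  have h2 : (0 : ℝ) < Y.L := by exact_mod_cast Y.hL
  have h3 : (0 : ℝ) < (Y.cls j).card + Y.L := by positivity
  have e : (Y.β o τ j : ℝ) = Y.α o τ j * ((Y.cls j).card + Y.L) := by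
    unfold α
    field_simp
  rw [e] at h
  exact le_of_mul_le_mul_right (by linarith) h3

theorem raw_P (τ : ℕ → ℕ) (j : ℕ) :
    Y.α o τ j * (Y.W o τ (fun x => UU Y.m (Y.le j) x / Y.m) - Y.δ * Y.W o τ (fun _ => 1) -
      Y.W o τ (fun x => Y.bd o j (Y.c + x))) ≤ (1 + Y.α o τ j) * Y.Z o τ (fun t => t / Y.m) := by
  apply α_of
  rw [← W_const, ← W_sub]
  have hm := Y.m_pos
  refine Y.ineq_src o τ j (fun t => t / Y.m) _ (fun t _ => by positivity) (fun x hx g hg => ?_)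
    (fun x hx => ?_)
  · have h1 : (UU Y.m (Y.le j) x : ℝ) + 1 ≤ UU Y.m g x + Y.w := by
      exact_mod_cast (Y.cmp_UU hg hx).1
    rw [δ, ← sub_div]
    exact div_le_div_of_nonneg_right (by linarith) hm.le
  · linarith [(Y.KK_real hx (Y.m_le j)).2.1, Y.δ_nonneg]

theorem raw_Q (τ : ℕ → ℕ) (j : ℕ) :
    Y.α o τ j * (Y.W o τ (fun _ => 1) - Y.W o τ (fun x => UU Y.m (Y.le j) x / Y.m) -
      Y.W o τ (Y.cut j) - Y.W o τ (fun x => Y.bd o j (Y.c + x))) ≤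
      (1 + Y.α o τ j) * Y.Z o τ (fun t => 1 - t / Y.m) := by
  apply α_of
  rw [← W_sub, ← W_sub]
  have hm := Y.m_pos
  refine Y.ineq_src o τ j (fun t => 1 - t / Y.m) _ (fun t ht => ?_) (fun x hx g hg => ?_)
    (fun x hx => ?_)
  · exact sub_nonneg.mpr ((div_le_one hm).mpr (by exact_mod_cast ht.le))
  · have h0 : (0 : ℝ) ≤ UU Y.m (Y.le j) x / Y.m := by positivity
    unfold cut
    split_ifs with h
    · linarith [(Y.KK_real hx (Y.cls_spec hg).1.le).2.1]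
    · have h1 : (UU Y.m g x : ℝ) ≤ UU Y.m (Y.le j) x := by exact_mod_cast (Y.cmp_UU hg hx).2 h
      linarith [div_le_div_of_nonneg_right h1 hm.le]
  · have h0 : (0 : ℝ) ≤ UU Y.m (Y.le j) x / Y.m := by positivity
    linarith [Y.cut_nonneg j x]

theorem raw_one (τ : ℕ → ℕ) (j : ℕ) :
    Y.α o τ j * (Y.W o τ (fun _ => 1) - Y.W o τ (fun x => Y.bd o j (Y.c + x))) ≤
      (1 + Y.α o τ j) * (Y.Z o τ (fun t => t / Y.m) + Y.Z o τ (fun t => 1 - t / Y.m)) := by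
  apply α_of
  have e : Y.Z o τ (fun t => t / Y.m) + Y.Z o τ (fun t => 1 - t / Y.m) = Y.Z o τ (fun _ => 1) := by
    unfold Z
    rw [← sum_add_distrib]
    exact sum_congr rfl (fun x _ => by ring)
  rw [e]
  exact Y.ineq_src o τ j (fun _ => 1) _ (fun _ _ => zero_le_one) (fun _ _ _ _ => le_rfl)
    (fun _ _ => le_rfl)

theorem raw_low (τ : ℕ → ℕ) (j : ℕ) :
    Y.α o τ j * (Y.Z o τ (fun t => t / Y.m) + Y.Z o τ (fun t => 1 - t / Y.m) - Y.eN o τ j +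
      Y.W o τ (fun x => (KK Y.m (Y.le j) x - 1) * (1 - Y.bd o j (Y.c + x)))) ≤
      Y.nn o τ (Y.c - Y.m) := by
  have h1 := Y.α_of o τ j (Y.ineq_low o τ j)
  have e1 : ∑ u ∈ range Y.c, Y.χ o τ u * (1 - Y.bd o j u) = Y.nn o τ Y.c - Y.eN o τ j := by
    simp only [nn, eN, mul_sub, mul_one, sum_sub_distrib]
  have e2 : ∑ x ∈ range Y.m, ((KK Y.m (Y.le j) x : ℝ) - 1) *
      (Y.χ o τ (Y.c + x) * (1 - Y.bd o j (Y.c + x))) =
      Y.W o τ (fun x => (KK Y.m (Y.le j) x - 1) * (1 - Y.bd o j (Y.c + x))) :=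
    sum_congr rfl (fun x _ => by ring)
  rw [e1, e2, nn_split] at h1
  change _ ≤ _ * Y.nn o τ (Y.c - Y.m) at h1
  linarith

/-- The normalized degree carried by heavy generators. -/
noncomputable def hd (x : ℕ) : ℝ := ∑ g ∈ Y.hv, (Y.a (Y.c + x) g : ℝ) * (g / Y.m)

theorem hd_nonneg (x : ℕ) : 0 ≤ Y.hd x := sum_nonneg (fun g _ => by positivity)

theorem Γ_ge : (2 : ℝ) ≤ Y.Γ := by exact_mod_cast Y.hΓ

theorem ζ_bounds : (0 : ℝ) ≤ 1 - 2 / Y.Γ ∧ (1 : ℝ) - 2 / Y.Γ ≤ 1 := by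
  have h := Y.Γ_ge
  have h1 : (2 : ℝ) / Y.Γ ≤ 1 := (div_le_one (by linarith)).mpr h
  have h2 : (0 : ℝ) ≤ 2 / Y.Γ := by positivity
  constructor <;> linarith

theorem raw_heavy (τ : ℕ → ℕ) :
    (1 - 2 / Y.Γ) * Y.W o τ Y.hd ≤ Y.hv.card * Y.nn o τ (Y.c - Y.m) := by
  have h1 := sum_le_sum (fun g hg => Y.ineq_heavy o τ (g := g) hg)
  rw [sum_const, nsmul_eq_mul, sum_comm] at h1
  refine le_trans ?_ h1
  rw [← W_mul]
  refine sum_le_sum (fun x hx => ?_)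
  simp only [hd, mul_sum]
  refine sum_le_sum (fun g hg => ?_)
  obtain ⟨k1, k2⟩ := mem_filter.mp hg
  obtain ⟨k3, -, k4, -⟩ := Y.KK_real (mem_range.mp hx) (Y.hG g k1).le
  have hm := Y.m_pos
  have hΓ := Y.Γ_ge
  have k5 : (Y.Γ : ℝ) ≤ g / Y.m := (le_div_iff₀ hm).mpr (by exact_mod_cast not_lt.mp k2)
  have k6 : (0 : ℝ) ≤ UU Y.m g x / Y.m := by positivity
  have k7 : (2 : ℝ) ≤ 2 / Y.Γ * (g / Y.m) := by
    rw [div_mul_eq_mul_div, le_div_iff₀ (by linarith)]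
    linarith
  have k8 : (1 - 2 / Y.Γ) * ((g : ℝ) / Y.m) ≤ KK Y.m g x - 1 := by linarith
  have k9 := mul_le_mul_of_nonneg_right k8
    (mul_nonneg (Nat.cast_nonneg (Y.a (Y.c + x) g)) (Y.χ_nonneg o τ (Y.c + x)))
  linarith

theorem raw_deg (hδ : Y.δ ≤ 1) (τ : ℕ → ℕ) :
    (Y.c : ℝ) / Y.m * Y.W o τ (fun _ => 1) ≤ Y.W o τ (fun x => Y.a (Y.c + x) Y.m) +
      ((1 + Y.δ) * ∑ j ∈ Y.J, Y.γ j * Y.β o τ j + Y.J.card * Y.L * (Y.Γ + 1)) *
        Y.W o τ (fun _ => 1) + Y.W o τ Y.hd := by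
  rw [← W_const, ← W_const, ← W_add, ← W_add]
  refine sum_le_sum (fun x _ => ?_)
  have hm := Y.m_pos
  have hS : Y.c + x ∈ Y.S := Y.cond _ (Nat.le_add_right _ _)
  have h1 : ((Y.c : ℝ) + x) = Y.a (Y.c + x) Y.m * Y.m + ∑ g ∈ Y.G, (Y.a (Y.c + x) g : ℝ) * g := by
    exact_mod_cast Y.deg _ hS
  have h2 : (Y.c : ℝ) / Y.m ≤ Y.a (Y.c + x) Y.m +
      ∑ j ∈ Y.J, ∑ g ∈ Y.cls j, (Y.a (Y.c + x) g : ℝ) * (g / Y.m) + Y.hd x := by
    rw [add_assoc, hd, ← Y.sum_G (fun g => (Y.a (Y.c + x) g : ℝ) * (g / Y.m))]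
    simp only [← mul_div_assoc]
    rw [← sum_div, div_le_iff₀ hm, add_mul, div_mul_cancel₀ _ hm.ne']
    linarith [(Nat.cast_nonneg x : (0 : ℝ) ≤ x)]
  have hz := Y.χ_nonneg o τ (Y.c + x)
  have h3 : ∀ j ∈ Y.J, Y.χ o τ (Y.c + x) * ∑ g ∈ Y.cls j, (Y.a (Y.c + x) g : ℝ) * (g / Y.m) ≤
      Y.χ o τ (Y.c + x) * ((1 + Y.δ) * (Y.γ j * Y.β o τ j) + Y.L * (Y.Γ + 1)) := by
    intro j hj
    have k1 : ∑ g ∈ Y.cls j, (Y.a (Y.c + x) g : ℝ) * (g / Y.m) ≤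
        Y.b j (Y.c + x) * (Y.γ j + Y.δ) := by
      simp only [b, Nat.cast_sum, sum_mul]
      refine sum_le_sum (fun g hg => mul_le_mul_of_nonneg_left ?_ (Nat.cast_nonneg _))
      have : (g : ℝ) + 1 ≤ Y.le j + Y.w := by exact_mod_cast (Y.cls_spec hg).2.2
      rw [γ, δ, ← add_div]
      exact div_le_div_of_nonneg_right (by linarith) hm.le
    have k2 := Y.γ_ge j
    have k3 := Y.γ_le hj
    have k4 := Y.δ_nonneg
    have k5 := mul_le_mul_of_nonneg_right (Y.b_bounds o τ j (Y.c + x)).2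
      (by linarith : 0 ≤ Y.γ j + Y.δ)
    have k6 := mul_le_mul_of_nonneg_left k1 hz
    have hβ : (0 : ℝ) ≤ Y.β o τ j := Nat.cast_nonneg _
    have k7 : ((Y.β o τ j : ℝ) + Y.L) * (Y.γ j + Y.δ) ≤
        (1 + Y.δ) * (Y.γ j * Y.β o τ j) + Y.L * (Y.Γ + 1) := by
      have m1 := mul_nonneg (mul_nonneg hβ k4) (sub_nonneg.mpr k2)
      have m2 := mul_le_mul_of_nonneg_left (add_le_add k3 hδ) (Nat.cast_nonneg (α := ℝ) Y.L)
      linarith
    have k8 := mul_le_mul_of_nonneg_left k7 hz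
    linarith
  have h4 := sum_le_sum h3
  rw [← mul_sum, ← mul_sum, sum_add_distrib, ← mul_sum, sum_const, nsmul_eq_mul] at h4
  have h5 := mul_le_mul_of_nonneg_left h2 hz
  linarith

/-- The error term of a type. -/
noncomputable def err (τ : ℕ → ℕ) : ℝ :=
  ∑ j ∈ Y.J, Y.μ j * Y.W o τ (Y.cut j) + Y.δ * Y.W o τ (fun _ => 1) +
    ∑ j ∈ Y.J, (Y.W o τ (fun x => Y.bd o j (Y.c + x)) + Y.eN o τ j)

theorem eN_nonneg (τ : ℕ → ℕ) (j : ℕ) : 0 ≤ Y.eN o τ j :=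
  sum_nonneg (fun _ _ => mul_nonneg (Y.χ_nonneg o _ _) (Y.bd_nonneg o _ _))

theorem type_main (hδ : Y.δ ≤ 2 / Y.Γ) (τ : ℕ → ℕ) :
    (1 - 2 / Y.Γ) / Y.ee * (((Y.c : ℝ) / Y.m - Y.J.card * Y.L * (Y.Γ + 1)) * Y.W o τ Y.Yw -
      2 * Y.W o τ (fun x => Y.a (Y.c + x) Y.m)) ≤
      Y.nn o τ Y.c + 2 * (2 * (Y.c / Y.m) / Y.ee) * (Y.Γ + 6) * Y.err o τ := by
  obtain ⟨hζ0, hζ1⟩ := Y.ζ_bounds
  have hΓ := Y.Γ_ge
  have hm := Y.m_pos
  have hee := Y.ee_pos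
  have hδ0 := Y.δ_nonneg
  set ζ : ℝ := 1 - 2 / Y.Γ with hζ
  set q : ℝ := Y.c / Y.m with hq
  set D : ℝ := Y.J.card * Y.L * (Y.Γ + 1) with hD
  set A : ℝ := 2 * q / Y.ee with hA
  set p := Y.W o τ (fun _ => 1) with hp
  set M := Y.W o τ (fun x => Y.a (Y.c + x) Y.m) with hM
  set Yb := Y.W o τ Y.Yw with hYb
  set P := Y.Z o τ (fun t => t / Y.m) with hP
  set P' := Y.Z o τ (fun t => 1 - t / Y.m) with hP'
  set n' := Y.nn o τ (Y.c - Y.m) with hn'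
  have hq0 : 0 ≤ q := by positivity
  have hD0 : 0 ≤ D := by positivity
  have hA0 : 0 ≤ A := by positivity
  have hp0 : 0 ≤ p := Y.W_nonneg o τ (fun _ _ => zero_le_one)
  have hM0 : 0 ≤ M := Y.W_nonneg o τ (fun _ _ => Nat.cast_nonneg _)
  have hY0 : 0 ≤ Yb := Y.W_nonneg o τ (fun _ hx => (Y.Yw_bounds hx).1)
  have hY2 : Yb ≤ 2 * p := by
    rw [hp, ← W_const]
    exact Y.W_mono o τ (fun _ hx => (Y.Yw_bounds hx).2)
  have hPb := Y.Z_le o τ (f := fun t => t / Y.m) (fun _ _ => by positivity)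
  have hQb := Y.Z_le o τ (f := fun t => 1 - t / Y.m)
    (fun t ht => sub_nonneg.mpr ((div_le_one hm).mpr (by exact_mod_cast ht.le)))
  rw [W_sub] at hQb
  have hn0 : 0 ≤ n' := sum_nonneg (fun _ _ => Y.χ_nonneg o _ _)
  have hW0 : ∀ j, 0 ≤ Y.W o τ (fun x => Y.bd o j (Y.c + x)) :=
    fun j => Y.W_nonneg o τ (fun _ _ => Y.bd_nonneg o _ _)
  have hc0 : ∀ j, 0 ≤ Y.W o τ (Y.cut j) := fun j => Y.W_nonneg o τ (fun _ _ => Y.cut_nonneg _ _)
  have hs1 : 0 ≤ ∑ j ∈ Y.J, Y.μ j * Y.W o τ (Y.cut j) :=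
    sum_nonneg (fun j _ => mul_nonneg (Y.μ_pos j).le (hc0 j))
  have hs2 : 0 ≤ ∑ j ∈ Y.J, (Y.W o τ (fun x => Y.bd o j (Y.c + x)) + Y.eN o τ j) :=
    sum_nonneg (fun j _ => add_nonneg (hW0 j) (Y.eN_nonneg o τ j))
  have hδp : 0 ≤ Y.δ * p := by positivity
  have herr0 : 0 ≤ Y.err o τ := by unfold err; linarith
  have htriv : ζ / Y.ee * ((q - D) * Yb - 2 * M) ≤ A * p := by
    have k1 : (q - D) * Yb - 2 * M ≤ 2 * q * p := by
      linarith [mul_nonneg hD0 hY0, mul_le_mul_of_nonneg_left hY2 hq0]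
    have k2 : ζ * (2 * q * p) ≤ 2 * q * p := by
      linarith [mul_nonneg (sub_nonneg.mpr hζ1) (by positivity : 0 ≤ 2 * q * p)]
    have k3 := mul_le_mul_of_nonneg_left k1 hζ0
    rw [hA, div_mul_eq_mul_div, div_mul_eq_mul_div]
    exact div_le_div_of_nonneg_right (by linarith) hee.le
  rw [nn_split, ← hn', ← hP, ← hP']
  have hAe : 0 ≤ A * Y.err o τ := by positivity
  have hAe2 : A * Y.err o τ ≤ 2 * A * (Y.Γ + 6) * Y.err o τ := by
    linarith [mul_nonneg hAe (by linarith : (0 : ℝ) ≤ 2 * Y.Γ + 11)]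
  by_cases hcap : ∃ j ∈ Y.J, A < Y.α o τ j
  · obtain ⟨j, hj, hA'⟩ := hcap
    have k1 := Y.raw_one o τ j
    have k2 := Y.raw_low o τ j
    have k3 : 0 ≤ Y.W o τ (fun x => (KK Y.m (Y.le j) x - 1) * (1 - Y.bd o j (Y.c + x))) :=
      Y.W_nonneg o τ (fun x hx => mul_nonneg
        (sub_nonneg.mpr (Y.KK_real hx (Y.m_le j)).2.2.2) (Y.bd_le o _ _))
    have k4 := mul_nonneg (Y.α_nonneg o τ j) k3
    rw [← hp, ← hP, ← hP'] at k1
    rw [← hn', ← hP, ← hP'] at k2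
    set X := Y.W o τ (fun x => Y.bd o j (Y.c + x)) + Y.eN o τ j with hX
    have k5 : Y.α o τ j * (p - X) ≤ n' + P + P' := by rw [hX]; linarith
    have k6 : A * (p - X) ≤ n' + P + P' := by
      by_cases h : 0 ≤ p - X
      · linarith [mul_le_mul_of_nonneg_right hA'.le h]
      · linarith [mul_nonneg hA0 (neg_nonneg.mpr (not_le.mp h).le), hPb.1, hQb.1]
    have k7 : X ≤ Y.err o τ := by
      have := single_le_sum (f := fun j => Y.W o τ (fun x => Y.bd o j (Y.c + x)) + Y.eN o τ j)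
        (fun j _ => add_nonneg (hW0 j) (Y.eN_nonneg o τ j)) hj
      unfold err
      linarith
    linarith [mul_le_mul_of_nonneg_left k7 hA0]
  push Not at hcap
  rcases hp0.eq_or_lt with hp1 | hp1
  · rw [← hp1, mul_zero] at htriv
    linarith [hPb.1, hQb.1]
  set H := Y.W o τ Y.hd with hH
  have hH0 : 0 ≤ H := Y.W_nonneg o τ (fun x _ => Y.hd_nonneg x)
  have hB : ζ * H / Y.hv.card ≤ n' := by
    rcases (Nat.cast_nonneg (α := ℝ) Y.hv.card).eq_or_lt with h | h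
    · rw [← h, div_zero]
      exact hn0
    · rw [div_le_iff₀ h, mul_comm n']
      exact Y.raw_heavy o τ
  have hB2 : Y.hv.card / Y.ee * (ζ * H / Y.hv.card) = ζ * H / Y.ee := by
    rcases (Nat.cast_nonneg (α := ℝ) Y.hv.card).eq_or_lt with h | h
    · have h1 : Y.hv = ∅ := card_eq_zero.mp (by exact_mod_cast h.symm)
      have h2 : H = 0 := by simp [hH, W, hd, h1]
      simp [h2]
    · field_simp
  have key := type_ineq Y.J (Y.α o τ) Y.γ (fun j => Y.W o τ (fun x => UU Y.m (Y.le j) x / Y.m))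
    (fun j => Y.W o τ (fun x => KK Y.m (Y.le j) x))
    (fun j => Y.W o τ (Y.cut j) + Y.δ * p + (Y.W o τ (fun x => Y.bd o j (Y.c + x)) + Y.eN o τ j))
    Y.μ (V := Y.W o τ (fun x => x / Y.m)) (P := P) (P' := P') (n' := n') (A := A) (Γ := Y.Γ)
    (B := ζ * H / Y.hv.card) (μh := Y.hv.card / Y.ee) hp1 hA0 (by linarith)
    (fun j hj => ⟨Y.α_nonneg o τ j, hcap j hj⟩) (fun j _ => Y.γ_ge j)
    (fun j _ => ⟨Y.W_nonneg o τ (fun _ _ => by positivity),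
      Y.W_mono o τ (fun x hx => (Y.KK_real hx (Y.m_le j)).2.1)⟩)
    (Y.W_nonneg o τ (fun _ _ => by positivity))
    (Y.W_mono o τ (fun x hx => (Y.KK_real hx le_rfl).2.2.1))
    (fun j _ => by
      rw [hp, ← W_const, ← W_sub, ← W_add]
      exact sum_congr rfl (fun x hx => by
        simp only [(Y.KK_real (mem_range.mp hx) (Y.m_le j)).1, γ]))
    (fun j _ => Y.W_mono o τ (fun x hx => (Y.KK_real hx (Y.m_le j)).2.2.2))
    (fun i _ j _ hij => Y.W_mono o τ (fun x _ => by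
      have : (Y.le i : ℝ) ≤ Y.le j := (div_le_div_iff_of_pos_right hm).mp hij
      exact_mod_cast KK_mono (by exact_mod_cast this)))
    hPb.1 hQb.1
    (fun j _ => add_nonneg (add_nonneg (hc0 j) hδp) (add_nonneg (hW0 j) (Y.eN_nonneg o τ j)))
    (fun j _ => by
      have := mul_nonneg (Y.α_nonneg o τ j) (add_nonneg (hc0 j) (Y.eN_nonneg o τ j))
      linarith [Y.raw_P o τ j])
    (fun j _ => by
      have := mul_nonneg (Y.α_nonneg o τ j) (add_nonneg hδp (Y.eN_nonneg o τ j))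
      linarith [Y.raw_Q o τ j])
    hPb.2 hQb.2
    (fun j hj => by
      have k1 : Y.W o τ (fun x => KK Y.m (Y.le j) x) - p -
          Y.Γ * Y.W o τ (fun x => Y.bd o j (Y.c + x)) ≤
          Y.W o τ (fun x => (KK Y.m (Y.le j) x - 1) * (1 - Y.bd o j (Y.c + x))) := by
        rw [hp, ← W_mul, ← W_sub, ← W_sub]
        refine Y.W_mono o τ (fun x hx => ?_)
        obtain ⟨a1, a2, -, -⟩ := Y.KK_real hx (Y.m_le j)
        have a3 := Y.γ_le hj
        have a4 : (0 : ℝ) ≤ x / Y.m := by positivity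
        have a5 : (KK Y.m (Y.le j) x : ℝ) - 1 ≤ Y.Γ := by unfold γ at a3; linarith
        linarith [mul_le_mul_of_nonneg_right a5 (Y.bd_nonneg o j (Y.c + x))]
      have k2 : 0 ≤ (Y.Γ + 1) * (Y.W o τ (Y.cut j) + Y.δ * p) +
          Y.W o τ (fun x => Y.bd o j (Y.c + x)) + Y.Γ * Y.eN o τ j := by
        have := hc0 j
        have := hW0 j
        have := Y.eN_nonneg o τ j
        positivity
      have k3 := mul_nonneg (Y.α_nonneg o τ j) k2
      have k4 := mul_le_mul_of_nonneg_left k1 (Y.α_nonneg o τ j)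
      linarith [Y.raw_low o τ j])
    (by positivity) hB (fun j _ => (Y.μ_pos j).le) (by positivity) Y.sum_μ
  have e1 : ∑ j ∈ Y.J, Y.μ j * (Y.W o τ (fun x => KK Y.m (Y.le j) x) / Y.γ j) +
      Y.hv.card / Y.ee * p = Yb := by
    rw [hYb, hp, ← W_const]
    unfold Yw
    rw [W_add, W_sum]
    congr 1
    refine sum_congr rfl (fun j _ => ?_)
    rw [W_mul, div_eq_inv_mul, ← W_mul]
    simp only [div_eq_inv_mul]
  set T := ∑ j ∈ Y.J, Y.γ j * Y.β o τ j with hT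
  have hT0 : 0 ≤ T := sum_nonneg (fun j _ =>
    mul_nonneg (zero_le_one.trans (Y.γ_ge j)) (Nat.cast_nonneg _))
  have e2 : ∑ j ∈ Y.J, Y.μ j * (Y.γ j * Y.α o τ j) = T / Y.ee := by
    rw [hT, sum_div]
    refine sum_congr rfl (fun j _ => ?_)
    have h2 : (0 : ℝ) < Y.L := by exact_mod_cast Y.hL
    unfold μ α
    field_simp
  have e3 : ∑ j ∈ Y.J, Y.μ j * (Y.W o τ (Y.cut j) + Y.δ * p +
      (Y.W o τ (fun x => Y.bd o j (Y.c + x)) + Y.eN o τ j)) ≤ Y.err o τ := by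
    have h0 : (0 : ℝ) ≤ Y.hv.card / Y.ee := by positivity
    have h1 : ∑ j ∈ Y.J, Y.μ j ≤ 1 := by linarith [Y.sum_μ]
    have h2 : ∀ j ∈ Y.J, Y.μ j * (Y.W o τ (fun x => Y.bd o j (Y.c + x)) + Y.eN o τ j) ≤
        Y.W o τ (fun x => Y.bd o j (Y.c + x)) + Y.eN o τ j := fun j hj =>
      mul_le_of_le_one_left (add_nonneg (hW0 j) (Y.eN_nonneg o τ j))
        ((single_le_sum (fun j _ => (Y.μ_pos j).le) hj).trans h1)
    have h3 := sum_le_sum h2
    have h4 := mul_le_mul_of_nonneg_right h1 hδp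
    simp only [mul_add (Y.μ _) (_ + _), mul_add (Y.μ _) (Y.W o τ (Y.cut _)), sum_add_distrib]
    rw [← sum_mul]
    unfold err
    linarith
  rw [e1, e2, hB2] at key
  have d1 := Y.raw_deg o (by linarith) τ
  rw [← hq, ← hp, ← hM, ← hT, ← hD, ← hH] at d1
  have d2 : ζ * (1 + Y.δ) ≤ 1 := by
    have := mul_nonneg (sub_nonneg.mpr hζ1) hδ0
    linarith
  have d3 : ζ * ((q - D) * p - M) ≤ p * T + ζ * H := by
    have m1 := mul_le_mul_of_nonneg_left d1 hζ0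
    have m2 := mul_le_mul_of_nonneg_right d2 (mul_nonneg hp0 hT0)
    linarith
  have d4 : p * (ζ / Y.ee * ((q - D) * Yb - 2 * M)) ≤ (p * (T / Y.ee) + ζ * H / Y.ee) * Yb := by
    have m1 := mul_le_mul_of_nonneg_right d3 hY0
    have m2 := mul_le_mul_of_nonneg_left hY2 (mul_nonneg hζ0 hM0)
    have m3 : p * (ζ / Y.ee * ((q - D) * Yb - 2 * M)) =
        (p * ζ * ((q - D) * Yb - 2 * M)) / Y.ee := by ring
    have m4 : (p * (T / Y.ee) + ζ * H / Y.ee) * Yb = ((p * T + ζ * H) * Yb) / Y.ee := by ring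
    rw [m3, m4]
    exact div_le_div_of_nonneg_right (by linarith) hee.le
  have d5 := le_of_mul_le_mul_left (d4.trans key) hp1
  have d6 := mul_le_mul_of_nonneg_left e3 (by positivity : 0 ≤ 2 * A * (Y.Γ + 6))
  linarith

open Classical in
/-- The indicator of the semigroup. -/
noncomputable def one (u : ℕ) : ℝ := if u ∈ Y.S then 1 else 0

open Classical in
/-- The types that occur. -/
noncomputable def Ty : Finset (ℕ → ℕ) := (range (Y.c + Y.m)).image (Y.ty o)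

theorem sum_χ {u : ℕ} (hu : u < Y.c + Y.m) : ∑ τ ∈ Y.Ty o, Y.χ o τ u = Y.one u := by
  classical
  unfold χ one
  by_cases hs : u ∈ Y.S
  · rw [sum_eq_single (Y.ty o u), if_pos ⟨hs, rfl⟩, if_pos hs]
    · exact fun τ _ h => if_neg (fun k => h k.2.symm)
    · exact fun h => absurd (mem_image_of_mem _ (mem_range.mpr hu)) h
  · rw [if_neg hs]
    exact sum_eq_zero (fun τ _ => if_neg (fun k => hs k.1))

theorem one_win (x : ℕ) : Y.one (Y.c + x) = 1 := if_pos (Y.cond _ (Nat.le_add_right _ _))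

theorem sum_W (f : ℕ → ℝ) : ∑ τ ∈ Y.Ty o, Y.W o τ f = ∑ x ∈ range Y.m, f x := by
  unfold W
  rw [sum_comm]
  refine sum_congr rfl (fun x hx => ?_)
  rw [← sum_mul, Y.sum_χ o (by have := mem_range.mp hx; omega), one_win, one_mul]

theorem sum_low (f : ℕ → ℝ) : ∑ τ ∈ Y.Ty o, ∑ s ∈ range Y.c, Y.χ o τ s * f s =
    ∑ s ∈ range Y.c, Y.one s * f s := by
  rw [sum_comm]
  refine sum_congr rfl (fun x hx => ?_)
  rw [← sum_mul, Y.sum_χ o (by have := mem_range.mp hx; omega)]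

/-- The number of elements below the conductor. -/
noncomputable def n : ℝ := ∑ s ∈ range Y.c, Y.one s

theorem sum_nn : ∑ τ ∈ Y.Ty o, Y.nn o τ Y.c = Y.n := by
  simpa [nn, n] using Y.sum_low o (fun _ => 1)

/-- The total number of boundary elements. -/
noncomputable def BD : ℝ := ∑ j ∈ Y.J,
  (∑ x ∈ range Y.m, Y.bd o j (Y.c + x) + ∑ s ∈ range Y.c, Y.one s * Y.bd o j s)

theorem sum_err : ∑ τ ∈ Y.Ty o, Y.err o τ ≤ 2 * (Y.δ * Y.m) + Y.BD o := by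
  have h0 : (0 : ℝ) ≤ Y.hv.card / Y.ee := div_nonneg (Nat.cast_nonneg _) Y.ee_pos.le
  have h1 : ∑ τ ∈ Y.Ty o, ∑ j ∈ Y.J, Y.μ j * Y.W o τ (Y.cut j) ≤ Y.δ * Y.m := by
    rw [sum_comm]
    have k1 : ∀ j ∈ Y.J, ∑ τ ∈ Y.Ty o, Y.μ j * Y.W o τ (Y.cut j) ≤ Y.μ j * (Y.δ * Y.m) := by
      intro j _
      rw [← mul_sum, sum_W]
      exact mul_le_mul_of_nonneg_left (Y.sum_cut j) (Y.μ_pos j).le
    refine (sum_le_sum k1).trans ?_
    rw [← sum_mul]
    exact mul_le_of_le_one_left (mul_nonneg Y.δ_nonneg Y.m_pos.le) (by linarith [Y.sum_μ])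
  have h2 : ∑ τ ∈ Y.Ty o, Y.δ * Y.W o τ (fun _ => 1) = Y.δ * Y.m := by
    rw [← mul_sum, sum_W]
    simp
  have h3 : ∑ τ ∈ Y.Ty o, ∑ j ∈ Y.J, (Y.W o τ (fun x => Y.bd o j (Y.c + x)) + Y.eN o τ j) =
      Y.BD o := by
    rw [sum_comm]
    refine sum_congr rfl (fun j _ => ?_)
    rw [sum_add_distrib, sum_W]
    congr 1
    exact Y.sum_low o _
  unfold err
  rw [sum_add_distrib, sum_add_distrib, h2, h3]
  linarith

theorem sum_bd (j u : ℕ) : ∑ o ∈ range Y.L, Y.bd o j u ≤ 1 := by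
  unfold bd
  rw [sum_boole]
  have : ((range Y.L).filter (fun o => (Y.b j u + o) % Y.L = 0)).card ≤ 1 := by
    refine card_le_one.mpr (fun x hx y hy => ?_)
    obtain ⟨k1, k2⟩ := mem_filter.mp hx
    obtain ⟨k3, k4⟩ := mem_filter.mp hy
    have h : Y.b j u + x ≡ Y.b j u + y [MOD Y.L] := k2.trans k4.symm
    exact Nat.ModEq.eq_of_lt_of_lt (Nat.ModEq.add_left_cancel' _ h) (mem_range.mp k1)
      (mem_range.mp k3)
  exact_mod_cast this

theorem one_nonneg (u : ℕ) : 0 ≤ Y.one u := by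
  unfold one
  split_ifs <;> norm_num

theorem exists_o : ∃ o, Y.BD o ≤ Y.J.card * (Y.m + Y.n) / Y.L := by
  have hL : (0 : ℝ) < Y.L := by exact_mod_cast Y.hL
  have h1 : ∑ o ∈ range Y.L, Y.BD o ≤ ∑ _o ∈ range Y.L, (Y.J.card * (Y.m + Y.n) / Y.L : ℝ) := by
    rw [sum_const, card_range, nsmul_eq_mul, mul_div_cancel₀ _ hL.ne', ← nsmul_eq_mul, ← sum_const]
    unfold BD
    rw [sum_comm]
    refine sum_le_sum (fun j _ => ?_)
    rw [sum_add_distrib, sum_comm, sum_comm (s := range Y.L)]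
    refine add_le_add ?_ (sum_le_sum (fun s _ => ?_))
    · simpa using sum_le_sum (s := range Y.m) (fun x _ => Y.sum_bd j (Y.c + x))
    · rw [← mul_sum]
      exact mul_le_of_le_one_right (Y.one_nonneg s) (Y.sum_bd j s)
  obtain ⟨o, -, ho⟩ := exists_le_of_sum_le (nonempty_range_iff.mpr Y.hL.ne') h1
  exact ⟨o, ho⟩

theorem main (hδ : Y.δ ≤ 2 / Y.Γ) :
    (1 - 2 / Y.Γ) * (((Y.c : ℝ) / Y.m - Y.J.card * Y.L * (Y.Γ + 1)) * Y.m - 2 * Y.n) ≤
      Y.ee * Y.n + 4 * (Y.c / Y.m) * (Y.Γ + 6) *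
        (2 * (Y.δ * Y.m) + Y.J.card * (Y.m + Y.n) / Y.L) := by
  obtain ⟨o, ho⟩ := Y.exists_o
  have hee := Y.ee_pos
  have hm := Y.m_pos
  have h1 := sum_le_sum (s := Y.Ty o) (fun τ _ => Y.type_main o hδ τ)
  rw [← mul_sum, sum_sub_distrib, ← mul_sum, ← mul_sum, sum_W, sum_Yw, sum_add_distrib, sum_nn,
    ← mul_sum] at h1
  have h2 : ∑ τ ∈ Y.Ty o, Y.W o τ (fun x => Y.a (Y.c + x) Y.m) ≤ Y.n := by
    rw [← Y.sum_nn o]
    refine sum_le_sum (fun τ _ => le_trans (le_of_eq ?_) (Y.ineq_m o τ))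
    exact sum_congr rfl (fun x _ => mul_comm _ _)
  have h3 := (Y.sum_err o).trans (add_le_add_right ho _)
  have h4 := mul_le_mul_of_nonneg_left h3
    (by positivity : 0 ≤ 2 * (2 * ((Y.c : ℝ) / Y.m) / Y.ee) * (Y.Γ + 6))
  have h5 := mul_le_mul_of_nonneg_left h2 (div_nonneg Y.ζ_bounds.1 hee.le)
  have h6 : (1 - 2 / Y.Γ) / Y.ee *
      (((Y.c : ℝ) / Y.m - Y.J.card * Y.L * (Y.Γ + 1)) * Y.m - 2 * Y.n) ≤
      Y.n + 2 * (2 * ((Y.c : ℝ) / Y.m) / Y.ee) * (Y.Γ + 6) *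
        (2 * (Y.δ * Y.m) + Y.J.card * (Y.m + Y.n) / Y.L) := by linarith
  have h7 := mul_le_mul_of_nonneg_left h6 hee.le
  have e1 : ∀ x y : ℝ, Y.ee * (x / Y.ee * y) = x * y := fun x y => by field_simp
  have e2 : ∀ x y z t : ℝ, Y.ee * (x + 2 * (2 * y / Y.ee) * z * t) = Y.ee * x + 4 * y * z * t :=
    fun x y z t => by field_simp; ring
  rwa [e1, e2] at h7

end Par

theorem zhai_one {S : Set (Fin 1 → ℕ)} (h0 : (0 : Fin 1 → ℕ) ∈ S)
    (hadd : ∀ x ∈ S, ∀ y ∈ S, x + y ∈ S) (hfin : Sᶜ.Finite) {m : ℕ}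
    (hm : IsLeast {t : ℕ | 0 < t ∧ (Pi.single 0 t : Fin 1 → ℕ) ∈ S} m) :
    (cS S : ℝ) - (eS S : ℝ) * nS S ≤ eS S * m := by
  have h := zhai h0 hadd hfin (fun _ => m) (fun j => by rw [Subsingleton.elim j 0]; exact hm)
  have hm0 : (0 : ℝ) < m := by exact_mod_cast hm.1.1
  have hb : ∀ r ∈ Fintype.piFinset (fun _ : Fin 1 => range m),
      (cS S : ℝ) ≤ cShift S r ∧ (cShift S r : ℝ) ≤ cS S + m := by
    intro r hr
    have hr0 : r 0 < m := mem_range.mp (Fintype.mem_piFinset.mp hr 0)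
    have hsub : {x : Fin 1 → ℕ | ∃ h : Fin 1 → ℕ, h ∉ S ∧ x ≤ h + r} ⊆
        pt '' ((range (cS S + m) : Finset ℕ) : Set ℕ) := by
      rintro x ⟨h, hh, hx⟩
      have k1 := (below_iff hfin h).mp ⟨h, hh, le_rfl⟩
      have k2 : x 0 ≤ h 0 + r 0 := hx 0
      exact ⟨x 0, by simp only [coe_range, Set.mem_Iio]; omega, pt_eq x⟩
    have hf : (pt '' ((range (cS S + m) : Finset ℕ) : Set ℕ)).Finite :=
      (Finset.finite_toSet _).image _
    have k1 := Set.ncard_le_ncard hsub hf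
    rw [Set.ncard_image_of_injective _ pt_inj, Set.ncard_coe_finset, card_range] at k1
    have k2 : cS S ≤ cShift S r := Set.ncard_le_ncard
      (fun x ⟨h, hh, hx⟩ => ⟨h, hh, hx.trans le_self_add⟩) (hf.subset hsub)
    exact ⟨by exact_mod_cast k2, by exact_mod_cast k1⟩
  have k1 := sum_le_sum (fun r hr => (hb r hr).1)
  have k2 := sum_le_sum (fun r hr => (hb r hr).2)
  simp only [sum_const, Fintype.card_piFinset, card_range, prod_const, card_univ, Fintype.card_fin,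
    pow_one, nsmul_eq_mul, Nat.cast_one, one_mul] at h k1 k2
  set X := ∑ r ∈ Fintype.piFinset (fun _ : Fin 1 => range m), (cShift S r : ℝ)
  have k3 : (cS S : ℝ) ≤ X / m := (le_div_iff₀ hm0).mpr (by linarith)
  have k4 : X / m ≤ cS S + m := (div_le_iff₀ hm0).mpr (by linarith)
  have k5 := mul_le_mul_of_nonneg_left k4 (Nat.cast_nonneg (α := ℝ) (eS S))
  linarith

theorem exists_big (C : ℝ) {t : ℝ} (ht : 0 < t) (k₀ : ℕ) : ∃ k : ℕ, k₀ ≤ k ∧ C ≤ t * k := by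
  obtain ⟨k, hk⟩ := exists_nat_ge (C / t)
  refine ⟨k + k₀, Nat.le_add_left _ _, ?_⟩
  rw [div_le_iff₀ ht] at hk
  push_cast
  linarith [mul_nonneg ht.le (Nat.cast_nonneg (α := ℝ) k₀)]

theorem asym_unif (ε : ℝ) (hε : 0 < ε) : ∃ q₀ : ℕ, ∀ (S : Set (Fin 1 → ℕ)) (m : ℕ),
    (0 : Fin 1 → ℕ) ∈ S → (∀ x ∈ S, ∀ y ∈ S, x + y ∈ S) → Sᶜ.Finite →
    IsLeast {t : ℕ | 0 < t ∧ (Pi.single 0 t : Fin 1 → ℕ) ∈ S} m → q₀ * m ≤ cS S →
    (1 - ε) * (cS S : ℝ) ≤ (eS S : ℝ) * nS S := by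
  have ht : 0 < ε / 4 := by positivity
  obtain ⟨Γ, hΓ2, hΓ⟩ := exists_big 2 ht 2
  obtain ⟨K, hKΓ, hK⟩ := exists_big (8 * (Γ + 6)) ht Γ
  obtain ⟨L, hL1, hL⟩ := exists_big (4 * (Γ + 6) * (Γ * K) * (1 + 1 / ε)) ht 1
  obtain ⟨q₀, hq1, hq⟩ := exists_big (Γ * K * L * (Γ + 1) + 2 / ε + Γ * K * L / ε) ht 1
  refine ⟨q₀, fun S m h0 hadd hfin hm hc => ?_⟩
  have hm0 : (0 : ℝ) < m := by exact_mod_cast hm.1.1
  have hc0 : (0 : ℝ) ≤ cS S := Nat.cast_nonneg _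
  have hn0 : (0 : ℝ) ≤ nS S := Nat.cast_nonneg _
  by_cases h1 : (eS S : ℝ) * m ≤ ε * cS S
  · linarith [zhai_one h0 hadd hfin hm]
  by_cases h2 : (cS S : ℝ) ≤ (eS S : ℝ) * nS S
  · linarith [mul_nonneg hε.le hc0]
  push Not at h1 h2
  have hn : (nS S : ℝ) ≤ m / ε := by
    rw [le_div_iff₀ hε]
    by_contra h3
    push Not at h3
    have k1 := mul_le_mul_of_nonneg_left h3.le (Nat.cast_nonneg (α := ℝ) (eS S))
    have k2 := mul_lt_mul_of_pos_left h2 hε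
    linarith
  obtain ⟨Y₀, e1, e2, e3, e4⟩ := exists_sys h0 hadd hfin hm
  have hK0 : 0 < K := by omega
  have hmc : m ≤ cS S := le_trans (Nat.le_mul_of_pos_left _ hq1) hc
  have hN : Γ * m ≤ Γ * K * (m / K + 1) := by
    rw [mul_assoc]
    exact Nat.mul_le_mul_left _ (Nat.lt_mul_div_succ m hK0).le
  let Y : Par := ⟨Y₀, Γ, m / K + 1, L, Γ * K, Nat.succ_pos _, hL1, e1 ▸ e2 ▸ hmc, e1 ▸ hN, hΓ2⟩
  have hK' : (0 : ℝ) < K := by exact_mod_cast hK0
  have hΓ' : (2 : ℝ) ≤ Γ := by exact_mod_cast hΓ2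
  have hL' : (0 : ℝ) < L := by exact_mod_cast hL1
  have hδ : Y.δ ≤ 1 / K := by
    show (((m / K + 1 : ℕ) : ℝ) - 1) / (Y₀.m : ℝ) ≤ 1 / K
    rw [e1, Nat.cast_succ, add_sub_cancel_right, div_le_iff₀ hm0, one_div_mul_eq_div]
    exact Nat.cast_div_le
  have hδ2 : Y.δ ≤ 2 / Y.Γ := by
    refine hδ.trans (div_le_div₀ (by norm_num) (by norm_num) (by show (0 : ℝ) < Γ; linarith) ?_)
    show (Γ : ℝ) ≤ K
    exact_mod_cast hKΓ
  have key := Y.main hδ2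
  have hζ := Y.ζ_bounds
  have hJ : (Y.J.card : ℝ) ≤ Γ * K := by
    have : Y.J.card ≤ Γ * K := (card_filter_le _ _).trans (card_range _).le
    exact_mod_cast this
  have hJ0 : (0 : ℝ) ≤ Y.J.card := Nat.cast_nonneg _
  have hYn : Y.n = nS S := by
    classical
    rw [← e4]
    unfold Par.n Par.one
    rw [sum_boole]
  have hYe : Y.ee = eS S - 1 + Y.J.card * L := by
    rw [← e3]
    simp only [Par.ee, Nat.cast_succ, add_sub_cancel_right]
    rfl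
  rw [hYn, hYe] at key
  change (1 - 2 / (Γ : ℝ)) * (((Y₀.c : ℝ) / Y₀.m - Y.J.card * L * (Γ + 1)) * Y₀.m - 2 * nS S) ≤
    _ + 4 * ((Y₀.c : ℝ) / Y₀.m) * (Γ + 6) * (2 * (Y.δ * Y₀.m) + Y.J.card * (Y₀.m + nS S) / L) at key
  change 0 ≤ 1 - 2 / (Γ : ℝ) ∧ 1 - 2 / (Γ : ℝ) ≤ 1 at hζ
  rw [e1, e2] at key
  obtain ⟨q, hcq⟩ := exists_scale hm0 (cS S)
  obtain ⟨ν, hν⟩ := exists_scale hm0 (nS S)
  have hq0 : (q₀ : ℝ) ≤ q := by
    have : (q₀ : ℝ) * m ≤ cS S := by exact_mod_cast hc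
    exact le_of_mul_le_mul_left (by linarith) hm0
  have hqq : 0 ≤ q := (Nat.cast_nonneg _).trans hq0
  have hν0 : 0 ≤ ν := le_of_mul_le_mul_left (by linarith) hm0
  have hν1 : ν ≤ 1 / ε := le_of_mul_le_mul_left (by rw [mul_one_div]; linarith) hm0
  rw [hcq, hν, mul_div_cancel_left₀ _ hm0.ne'] at key
  rw [hcq, hν]
  set J : ℝ := (Y.J.card : ℝ)
  have key2 : (1 - 2 / (Γ : ℝ)) * (q - J * L * (Γ + 1) - 2 * ν) ≤
      (eS S - 1 + J * L) * ν + 4 * q * (Γ + 6) * (2 * Y.δ + J * (1 + ν) / L) := by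
    refine le_of_mul_le_mul_left ?_ hm0
    have e5 : J * ((m : ℝ) + m * ν) / L = m * (J * (1 + ν) / L) := by ring
    rw [e5] at key
    linarith
  have b1 : 2 / (Γ : ℝ) ≤ ε / 4 := (div_le_iff₀ (by linarith)).mpr hΓ
  have b2 : 8 * ((Γ : ℝ) + 6) * Y.δ ≤ ε / 4 := by
    refine (mul_le_mul_of_nonneg_left hδ (by positivity)).trans ?_
    rw [mul_one_div, div_le_iff₀ hK']
    exact hK
  have b3 : 4 * ((Γ : ℝ) + 6) * (J * (1 + ν) / L) ≤ ε / 4 := by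
    rw [← mul_div_assoc, div_le_iff₀ hL']
    refine le_trans ?_ hL
    rw [mul_assoc (4 * ((Γ : ℝ) + 6))]
    exact mul_le_mul_of_nonneg_left (mul_le_mul hJ (by linarith) (by linarith) (by positivity))
      (by positivity)
  have b4 : J * L * (Γ + 1) + 2 * ν + J * L * ν ≤ ε / 4 * q := by
    have k1 : J * L ≤ Γ * K * L := mul_le_mul_of_nonneg_right hJ hL'.le
    have k2 := mul_le_mul_of_nonneg_right k1 (by linarith : (0 : ℝ) ≤ Γ + 1)
    have k3 : J * L * ν ≤ Γ * K * L * (1 / ε) := mul_le_mul k1 hν1 hν0 (by positivity)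
    have k4 := mul_le_mul_of_nonneg_left hq0 ht.le
    rw [mul_one_div] at k3
    have k5 : 2 / ε = 2 * (1 / ε) := by ring
    linarith
  have b5 := mul_nonneg (sub_nonneg.mpr hζ.2) (by positivity : 0 ≤ J * L * (Γ + 1) + 2 * ν)
  have c1 := mul_le_mul_of_nonneg_right b1 hqq
  have c2 := mul_le_mul_of_nonneg_right b2 hqq
  have c3 := mul_le_mul_of_nonneg_right b3 hqq
  have key3 : (1 - ε) * q ≤ eS S * ν := by linarith
  linarith [mul_le_mul_of_nonneg_left key3 hm0.le]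

end Pool.Agent.Lib.MP_299528_co
end
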