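import Pool.Agent.Lib.MP_299528_co.LogTwo

set_option autoImplicit false

namespace Pool.Agent.Lib.MP_299528_co

open Finset

/-- A numerical semigroup with a compatible choice of factorizations: `a s g` is the exponent of
the generator `g` in the chosen factorization of `s`; `m` is the multiplicity, `G` the set of the
other generators and `c` the conductor. -/
structure Sys where
  m : ℕ
  c : ℕ
  G : Finset ℕ
  S : Set ℕ
  a : ℕ → ℕ → ℕ
  hm : 0 < m
  hG : ∀ g ∈ G, m < g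
  deg : ∀ s ∈ S, s = a s m * m + ∑ g ∈ G, a s g * g
  down : ∀ u ∈ S, ∀ g, 1 ≤ a u g →
    g ≤ u ∧ u - g ∈ S ∧ a (u - g) g + 1 = a u g ∧ ∀ h, h ≠ g → a (u - g) h = a u h
  up : ∀ s ∈ S, s + m ∈ S ∧ ∀ h, h ≠ m → a (s + m) h = a s h
  cond : ∀ u, c ≤ u → u ∈ S

/-- Factorizations of `s` over the set `T`. -/
def Fac (T : Finset ℕ) (s : ℕ) : Set (ℕ →₀ ℕ) :=
  {f | (∀ g, g ∉ T → f g = 0) ∧ ∑ g ∈ T, f g * g = s}

theorem Fac_finite {T : Finset ℕ} (hT : ∀ g ∈ T, 0 < g) (s : ℕ) : (Fac T s).Finite := by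
  classical
  refine (Set.finite_Icc (0 : ℕ →₀ ℕ) (∑ g ∈ T, Finsupp.single g s)).subset ?_
  rintro f ⟨h1, h2⟩
  refine ⟨zero_le, fun g => ?_⟩
  by_cases hg : g ∈ T
  · have h3 : f g * g ≤ ∑ g ∈ T, f g * g :=
      single_le_sum (f := fun g => f g * g) (fun _ _ => Nat.zero_le _) hg
    have h4 : f g ≤ f g * g := Nat.le_mul_of_pos_right _ (hT g hg)
    have h5 : (∑ g ∈ T, Finsupp.single g s : ℕ →₀ ℕ) g = s := by
      rw [Finsupp.finset_sum_apply, sum_eq_single g (fun b _ hb => by simp [Finsupp.single_apply, hb])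
        (fun h => absurd hg h)]
      simp
    omega
  · simp [h1 g hg]

theorem Fac_add {T : Finset ℕ} {s t : ℕ} {f h : ℕ →₀ ℕ} (hf : f ∈ Fac T s) (hh : h ∈ Fac T t) :
    f + h ∈ Fac T (s + t) := by
  refine ⟨fun g hg => by simp [hf.1 g hg, hh.1 g hg], ?_⟩
  rw [← hf.2, ← hh.2, ← sum_add_distrib]
  exact sum_congr rfl (fun g _ => by simp [add_mul])

theorem Fac_single {T : Finset ℕ} {g : ℕ} (hg : g ∈ T) : Finsupp.single g 1 ∈ Fac T g := by
  refine ⟨fun b hb => ?_, ?_⟩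
  · have : g ≠ b := fun h => hb (h ▸ hg)
    simp [Finsupp.single_apply, this]
  · rw [sum_eq_single g (fun b _ hb => by simp [Finsupp.single_apply, hb.symm])
      (fun h => absurd hg h)]
    simp

theorem Fac_sub {T : Finset ℕ} {u g : ℕ} {f : ℕ →₀ ℕ} (hf : f ∈ Fac T u) (hg : 1 ≤ f g) :
    g ∈ T ∧ g ≤ u ∧ ∃ h ∈ Fac T (u - g), f = h + Finsupp.single g 1 := by
  have hgT : g ∈ T := by
    by_contra h
    have := hf.1 g h
    omega
  have e : f = (f - Finsupp.single g 1) + Finsupp.single g 1 :=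
    (tsub_add_cancel_of_le (Finsupp.single_le_iff.mpr hg)).symm
  have h1 : f - Finsupp.single g 1 ∈ Fac T (∑ b ∈ T, (f - Finsupp.single g 1 : ℕ →₀ ℕ) b * b) :=
    ⟨fun b hb => by simp [hf.1 b hb], rfl⟩
  have h2 := Fac_add h1 (Fac_single hgT)
  rw [← e] at h2
  have h3 := h2.2.symm.trans hf.2
  refine ⟨hgT, by omega, f - Finsupp.single g 1, ?_, e⟩
  rw [← h3, Nat.add_sub_cancel]
  exact h1

theorem exists_std {T : Finset ℕ} (hT : ∀ g ∈ T, 0 < g) {m : ℕ} (hm : m ∈ T)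
    (hmin : ∀ g ∈ T, m ≤ g) : ∃ a : ℕ → ℕ →₀ ℕ,
      (∀ s, (Fac T s).Nonempty → a s ∈ Fac T s) ∧
      (∀ u, (Fac T u).Nonempty → ∀ g, 1 ≤ a u g → g ≤ u ∧ (Fac T (u - g)).Nonempty ∧
        a u = a (u - g) + Finsupp.single g 1) ∧
      (∀ s, (Fac T s).Nonempty → a (s + m) = a s + Finsupp.single m 1) := by
  have h1 : ∀ s, ∃ f : ℕ →₀ ℕ, (Fac T s).Nonempty →
      f ∈ Fac T s ∧ ∀ h ∈ Fac T s, toLex h ≤ toLex f := by
    intro s
    by_cases hs : (Fac T s).Nonempty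
    · obtain ⟨f, hf, h⟩ := Set.exists_max_image (Fac T s) toLex (Fac_finite hT s) hs
      exact ⟨f, fun _ => ⟨hf, h⟩⟩
    · exact ⟨0, fun h => absurd h hs⟩
  choose a ha using h1
  have hdown : ∀ u, (Fac T u).Nonempty → ∀ g, 1 ≤ a u g → g ≤ u ∧ (Fac T (u - g)).Nonempty ∧
      a u = a (u - g) + Finsupp.single g 1 := by
    intro u hu g hg
    obtain ⟨hgT, hgu, h, hh, e⟩ := Fac_sub (ha u hu).1 hg
    refine ⟨hgu, ⟨h, hh⟩, ?_⟩
    have k1 := (ha (u - g) ⟨h, hh⟩).2 h hh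
    have k2 := Fac_add (ha (u - g) ⟨h, hh⟩).1 (Fac_single hgT)
    rw [Nat.sub_add_cancel hgu] at k2
    have k3 := (ha u hu).2 _ k2
    rw [e, toLex_add, toLex_add] at k3
    have k4 : toLex h = toLex (a (u - g)) := le_antisymm k1 (le_of_add_le_add_right k3)
    rw [e, toLex.injective k4]
  refine ⟨a, fun s hs => (ha s hs).1, hdown, fun s hs => ?_⟩
  have k1 := Fac_add (ha s hs).1 (Fac_single hm)
  have k2 := ha (s + m) ⟨_, k1⟩
  have k3 : 1 ≤ a (s + m) m := by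
    by_contra h
    refine absurd (k2.2 _ k1) (not_le.mpr (Finsupp.Lex.lt_iff.mpr ⟨m, fun j hj => ?_, ?_⟩))
    · have hj' : j ∉ T := fun h => absurd (hmin j h) (not_le.mpr hj)
      exact (k2.1.1 j hj').trans (k1.1 j hj').symm
    · show a (s + m) m < (a s + Finsupp.single m 1 : ℕ →₀ ℕ) m
      simp only [Finsupp.add_apply, Finsupp.single_eq_same]
      omega
  simpa using (hdown (s + m) ⟨_, k1⟩ m k3).2.2

open Classical in
theorem exists_sys {S : Set (Fin 1 → ℕ)} (h0 : (0 : Fin 1 → ℕ) ∈ S)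
    (hadd : ∀ x ∈ S, ∀ y ∈ S, x + y ∈ S) (hfin : Sᶜ.Finite) {m : ℕ}
    (hm : IsLeast {t : ℕ | 0 < t ∧ (Pi.single 0 t : Fin 1 → ℕ) ∈ S} m) :
    ∃ Y : Sys, Y.m = m ∧ Y.c = cS S ∧ Y.G.card + 1 = eS S ∧
      ((range Y.c).filter (fun t => t ∈ Y.S)).card = nS S := by
  set T : Finset ℕ := (gen_finite hfin).toFinset.image (fun x => x 0) with hT
  have hTm : ∀ g, g ∈ T ↔ pt g ∈ Gen S := by
    intro g
    simp only [hT, mem_image, Set.Finite.mem_toFinset]
    exact ⟨fun ⟨x, hx, h⟩ => by rw [← h, pt_eq]; exact hx, fun h => ⟨_, h, rfl⟩⟩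
  have hpos : ∀ g ∈ T, 0 < g := by
    intro g hg
    by_contra h
    exact ((hTm g).mp hg).2.1 (ext_one (by simpa [pt] using h))
  have hmT : m ∈ T := (hTm m).mpr (single_eq_pt m ▸ axis_gen hm)
  have hmin : ∀ g ∈ T, m ≤ g := fun g hg =>
    hm.2 ⟨hpos g hg, by rw [single_eq_pt]; exact ((hTm g).mp hg).1⟩
  have hcard : T.card = eS S := by
    rw [hT, card_image_of_injective _ (fun x y h => ext_one h)]
    exact (Set.ncard_eq_toFinset_card _ (gen_finite hfin)).symm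
  have hmem : ∀ s, (Fac T s).Nonempty ↔ pt s ∈ S := by
    intro s
    constructor
    · rintro ⟨f, -, hf⟩
      have key : ∀ T' : Finset ℕ, T' ⊆ T → pt (∑ g ∈ T', f g * g) ∈ S := by
        intro T'
        induction T' using Finset.induction_on with
        | empty => intro _; exact h0
        | insert g T' hg ih =>
          intro hsub
          rw [sum_insert hg]
          have e : pt (f g * g + ∑ g ∈ T', f g * g) = f g • pt g + pt (∑ g ∈ T', f g * g) :=
            ext_one (by simp [pt])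
          rw [e]
          exact hadd _ (nsmul_mem' h0 hadd ((hTm g).mp (hsub (mem_insert_self _ _))).1 _) _
            (ih ((subset_insert _ _).trans hsub))
      exact hf ▸ key T subset_rfl
    · intro hs
      refine gen_induction (S := S) (fun y => (Fac T (y 0)).Nonempty) ⟨0, by simp [Fac]⟩
        (fun g hg => ⟨_, Fac_single ((hTm _).mpr (by rwa [pt_eq]))⟩)
        (fun p _ q _ ⟨f, hf⟩ ⟨h, hh⟩ => ⟨_, Fac_add hf hh⟩) (pt s) hs
  obtain ⟨a, ha1, ha2, ha3⟩ := exists_std hpos hmT hmin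
  refine ⟨⟨m, cS S, T.erase m, {s | pt s ∈ S}, fun s g => a s g, hm.1.1, ?_, ?_, ?_, ?_, ?_⟩,
    rfl, rfl, ?_, ?_⟩
  · intro g hg
    exact lt_of_le_of_ne (hmin g (mem_of_mem_erase hg)) (ne_of_mem_erase hg).symm
  · intro s hs
    have := (ha1 s ((hmem s).mpr hs)).2
    rw [← add_sum_erase T _ hmT] at this
    exact this.symm
  · intro u hu g hg
    obtain ⟨k1, k2, k3⟩ := ha2 u ((hmem u).mpr hu) g hg
    refine ⟨k1, (hmem _).mp k2, ?_, fun h hh => ?_⟩
    · conv_rhs => rw [k3]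
      simp
    · conv_rhs => rw [k3]
      simp [Finsupp.single_apply, hh.symm]
  · intro s hs
    refine ⟨?_, fun h hh => ?_⟩
    · have e : pt (s + m) = pt s + pt m := ext_one (by simp [pt])
      show pt (s + m) ∈ S
      rw [e]
      exact hadd _ hs _ ((hTm m).mp hmT).1
    · show a (s + m) h = a s h
      rw [ha3 s ((hmem s).mpr hs)]
      simp [Finsupp.single_apply, hh.symm]
  · intro u hu
    exact mem_of_cS_le hfin hu
  · show (T.erase m).card + 1 = eS S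
    rw [card_erase_add_one hmT, hcard]
  · rw [nS_one hfin]
    rfl

end Pool.Agent.Lib.MP_299528_co
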