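import Mathlib

set_option autoImplicit false

namespace Pool.Agent.Lib.MP_299528_co

/-- `e(S)`: the number of nonzero elements of `S` that are not a sum of two nonzero elements. -/
noncomputable def eS {d : ℕ} (S : Set (Fin d → ℕ)) : ℕ :=
  {x : Fin d → ℕ | x ∈ S ∧ x ≠ 0 ∧ ∀ a ∈ S, ∀ b ∈ S, a + b = x → a = 0 ∨ b = 0}.ncard

/-- `n(S)`: the number of elements of `S` below some gap. -/
noncomputable def nS {d : ℕ} (S : Set (Fin d → ℕ)) : ℕ :=
  {x : Fin d → ℕ | x ∈ S ∧ ∃ h : Fin d → ℕ, h ∉ S ∧ x ≤ h}.ncard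

/-- `c(S)`: the number of points below some gap. -/
noncomputable def cS {d : ℕ} (S : Set (Fin d → ℕ)) : ℕ :=
  {x : Fin d → ℕ | ∃ h : Fin d → ℕ, h ∉ S ∧ x ≤ h}.ncard

/-- The number of points below `h + r` for some gap `h`. -/
noncomputable def cShift {d : ℕ} (S : Set (Fin d → ℕ)) (r : Fin d → ℕ) : ℕ :=
  {x : Fin d → ℕ | ∃ h : Fin d → ℕ, h ∉ S ∧ x ≤ h + r}.ncard

end Pool.Agent.Lib.MP_299528_co
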