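import Mathlib

set_option autoImplicit false

namespace Pool.Agent.Lib.MP_299528_co

open Finset Function

/-- A finite lower set of `ℕ^ι` whose weights represent every residue modulo `m` exactly once and
are bounded by `T`. -/
structure Tile (ι : Type) [Fintype ι] [DecidableEq ι] where
  A : Finset (ι → ℕ)
  m : ℕ
  g : ι → ℕ
  T : ℕ
  low : ∀ a ∈ A, ∀ b, b ≤ a → b ∈ A
  inj : ∀ a ∈ A, ∀ b ∈ A, ((∑ i, a i * g i : ℕ) : ZMod m) = (∑ i, b i * g i : ℕ) → a = b
  surj : ∀ x : ZMod m, ∃ a ∈ A, ((∑ i, a i * g i : ℕ) : ZMod m) = x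
  gpos : ∀ i, 0 < g i
  le : ∀ a ∈ A, ∑ i, a i * g i ≤ T

namespace Tile

variable {ι : Type} [Fintype ι] [DecidableEq ι] (Y : Tile ι)

/-- The weight. -/
def w (a : ι → ℕ) : ℕ := ∑ i, a i * Y.g i

/-- The top coordinate of the line through `a` in direction `i`. -/
def M (i : ι) (a : ι → ℕ) : ℕ :=
  (Y.A.filter fun b => update b i 0 = update a i 0).sup fun b => b i

/-- The top point of the line through `a` in direction `i`. -/
def top (i : ι) (a : ι → ℕ) : ι → ℕ := update a i (Y.M i a)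

/-- The deficiency at the top of the line. -/
def H (i : ι) (a : ι → ℕ) : ℕ := Y.T - Y.w (Y.top i a)

/-- The total deficiency. -/
def D : ℕ := ∑ i, ∑ a ∈ Y.A, Y.H i a

/-- The points that are on top in direction `i`. -/
def Tp (i : ι) : Finset (ι → ℕ) := Y.A.filter fun a => update a i (a i + 1) ∉ Y.A

/-- The largest possible coordinate. -/
def N (i : ι) : ℕ := Y.T / Y.g i

theorem w_update (a : ι → ℕ) (i : ι) (n : ℕ) :
    Y.w (update a i n) + a i * Y.g i = Y.w a + n * Y.g i := by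
  unfold w
  rw [← add_sum_erase _ _ (mem_univ i), ← add_sum_erase _ (fun j => a j * Y.g j) (mem_univ i),
    update_self, sum_congr rfl fun j hj => by rw [update_of_ne (ne_of_mem_erase hj)]]
  ring

theorem w_succ (a : ι → ℕ) (i : ι) : Y.w (update a i (a i + 1)) = Y.w a + Y.g i := by
  have := Y.w_update a i (a i + 1)
  rw [add_mul] at this
  omega

theorem w_add (a b : ι → ℕ) : Y.w (a + b) = Y.w a + Y.w b := by
  simp [w, add_mul, sum_add_distrib]

theorem w_le {a : ι → ℕ} (ha : a ∈ Y.A) : Y.w a ≤ Y.T := Y.le a ha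

theorem coord_le_N {a : ι → ℕ} (ha : a ∈ Y.A) (i : ι) : a i ≤ Y.N i :=
  (Nat.le_div_iff_mul_le (Y.gpos i)).mpr
    ((single_le_sum (f := fun j => a j * Y.g j) (fun _ _ => Nat.zero_le _) (mem_univ i)).trans
      (Y.le a ha))

theorem M_update (a : ι → ℕ) (i : ι) (n : ℕ) : Y.M i (update a i n) = Y.M i a := by
  simp [M]

theorem mem_line {a : ι → ℕ} (ha : a ∈ Y.A) (i : ι) (n : ℕ) :
    update a i n ∈ Y.A ↔ n ≤ Y.M i a := by
  constructor
  · intro h
    have := le_sup (f := fun b : ι → ℕ => b i)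
      (mem_filter.mpr ⟨h, by simp⟩ : update a i n ∈ Y.A.filter fun b => update b i 0 = update a i 0)
    simpa [M] using this
  · intro h
    obtain ⟨b, hb, e⟩ := exists_mem_eq_sup (Y.A.filter fun b => update b i 0 = update a i 0)
      ⟨a, mem_filter.mpr ⟨ha, rfl⟩⟩ fun b => b i
    obtain ⟨h1, h2⟩ := mem_filter.mp hb
    refine Y.low b h1 _ fun j => ?_
    by_cases hj : j = i
    · subst hj
      rw [update_self]
      exact h.trans (le_of_eq e)
    · have := congrFun h2 j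
      rw [update_of_ne hj, update_of_ne hj] at this
      rw [update_of_ne hj, this]

theorem le_M {a : ι → ℕ} (ha : a ∈ Y.A) (i : ι) : a i ≤ Y.M i a :=
  (Y.mem_line ha i _).mp (by simpa using ha)

theorem top_mem {a : ι → ℕ} (ha : a ∈ Y.A) (i : ι) : Y.top i a ∈ Y.A :=
  (Y.mem_line ha i _).mpr le_rfl

theorem mem_Tp {a : ι → ℕ} {i : ι} : a ∈ Y.Tp i ↔ a ∈ Y.A ∧ update a i (a i + 1) ∉ Y.A :=
  mem_filter

theorem top_Tp {a : ι → ℕ} (ha : a ∈ Y.A) (i : ι) : Y.top i a ∈ Y.Tp i := by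
  refine Y.mem_Tp.mpr ⟨Y.top_mem ha i, ?_⟩
  rw [top, update_self, update_idem, Y.mem_line ha]
  omega

theorem M_of_Tp {a : ι → ℕ} {i : ι} (ha : a ∈ Y.Tp i) : Y.M i a = a i := by
  obtain ⟨h1, h2⟩ := Y.mem_Tp.mp ha
  rw [Y.mem_line h1] at h2
  have := Y.le_M h1 i
  omega

theorem top_of_Tp {a : ι → ℕ} {i : ι} (ha : a ∈ Y.Tp i) : Y.top i a = a := by
  rw [top, Y.M_of_Tp ha, update_eq_self]

theorem Tp_inj {a b : ι → ℕ} {i : ι} (ha : a ∈ Y.Tp i) (hb : b ∈ Y.Tp i)
    (h : update a i 0 = update b i 0) : a = b := by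
  have h1 : Y.M i a = Y.M i b := by simp only [M, h]
  rw [Y.M_of_Tp ha, Y.M_of_Tp hb] at h1
  funext j
  by_cases hj : j = i
  · rw [hj, h1]
  · simpa [hj] using congrFun h j

theorem H_add {a : ι → ℕ} (ha : a ∈ Y.A) (i : ι) : Y.H i a + Y.w (Y.top i a) = Y.T :=
  Nat.sub_add_cancel (Y.w_le (Y.top_mem ha i))

theorem sum_M (i : ι) : ∑ a ∈ Y.A, Y.M i a = 2 * ∑ a ∈ Y.A, a i := by
  have h : ∑ a ∈ Y.A, (Y.M i a - a i) = ∑ a ∈ Y.A, a i := by
    refine sum_nbij' (fun a => update a i (Y.M i a - a i)) (fun a => update a i (Y.M i a - a i))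
      (fun a ha => (Y.mem_line ha i _).mpr (Nat.sub_le _ _))
      (fun a ha => (Y.mem_line ha i _).mpr (Nat.sub_le _ _)) (fun a ha => ?_) (fun a ha => ?_)
      (fun a _ => by simp)
    all_goals
      have := Y.le_M ha i
      simp only [M_update, update_self, update_idem]
      rw [Nat.sub_sub_self this, update_eq_self]
  rw [two_mul]
  nth_rewrite 1 [← h]
  rw [← sum_add_distrib]
  exact sum_congr rfl fun a ha => (Nat.sub_add_cancel (Y.le_M ha i)).symm

/-- The exact form of the averaging inequality. -/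
theorem ident : Y.D + (Fintype.card ι + 1) * ∑ a ∈ Y.A, Y.w a =
    Fintype.card ι * (Y.T * #Y.A) := by
  have h1 : ∀ i, ∑ a ∈ Y.A, Y.H i a + (∑ a ∈ Y.A, Y.w a + ∑ a ∈ Y.A, a i * Y.g i) =
      Y.T * #Y.A := by
    intro i
    have k1 : ∑ a ∈ Y.A, Y.H i a + ∑ a ∈ Y.A, Y.w (Y.top i a) = Y.T * #Y.A := by
      rw [← sum_add_distrib, sum_congr rfl fun a ha => Y.H_add ha i, sum_const, smul_eq_mul,
        mul_comm]
    have k2 : ∑ a ∈ Y.A, Y.w (Y.top i a) + ∑ a ∈ Y.A, a i * Y.g i =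
        ∑ a ∈ Y.A, Y.w a + ∑ a ∈ Y.A, Y.M i a * Y.g i := by
      rw [← sum_add_distrib, ← sum_add_distrib]
      exact sum_congr rfl fun a _ => Y.w_update a i _
    rw [← sum_mul, ← sum_mul, sum_M, mul_assoc] at k2
    rw [← sum_mul]
    omega
  have h2 := sum_congr rfl fun i (_ : i ∈ (univ : Finset ι)) => h1 i
  rw [sum_add_distrib, sum_add_distrib, sum_const, sum_const, card_univ, smul_eq_mul, smul_eq_mul,
    sum_comm (s := univ) (t := Y.A) (f := fun i a => a i * Y.g i)] at h2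
  rw [← h2, add_mul, one_mul]
  rfl

/-- The representative of `a + e_i`. -/
noncomputable def σ (i : ι) (a : ι → ℕ) : ι → ℕ := (Y.surj (Y.w a + Y.g i)).choose

theorem σ_mem (i : ι) (a : ι → ℕ) : Y.σ i a ∈ Y.A := (Y.surj (Y.w a + Y.g i)).choose_spec.1

theorem σ_w (i : ι) (a : ι → ℕ) : (Y.w (Y.σ i a) : ZMod Y.m) = Y.w a + Y.g i :=
  (Y.surj (Y.w a + Y.g i)).choose_spec.2

theorem inj' {a b : ι → ℕ} (ha : a ∈ Y.A) (hb : b ∈ Y.A) (h : (Y.w a : ZMod Y.m) = Y.w b) :
    a = b := Y.inj a ha b hb h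

theorem σ_inj (i : ι) {a b : ι → ℕ} (ha : a ∈ Y.A) (hb : b ∈ Y.A) (h : Y.σ i a = Y.σ i b) :
    a = b := by
  have := Y.σ_w i a
  rw [h, Y.σ_w] at this
  exact Y.inj' ha hb (add_right_cancel this).symm

theorem σ_zero {a : ι → ℕ} {i : ι} (ha : a ∈ Y.Tp i) : Y.σ i a i = 0 := by
  by_contra h
  obtain ⟨h1, h2⟩ := Y.mem_Tp.mp ha
  set b := Y.σ i a with hb
  have k1 : update b i (b i - 1) ∈ Y.A :=
    (Y.mem_line (Y.σ_mem i a) i _).mpr ((Nat.sub_le _ _).trans (Y.le_M (Y.σ_mem i a) i))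
  have k2 := Y.w_succ (update b i (b i - 1)) i
  rw [update_self, update_idem, Nat.sub_add_cancel (by omega), update_eq_self] at k2
  have k3 := Y.σ_w i a
  rw [← hb, k2, Nat.cast_add] at k3
  have k4 := Y.inj' k1 h1 (add_right_cancel k3)
  refine h2 ?_
  rw [← k4, update_self, update_idem, Nat.sub_add_cancel (by omega), update_eq_self]
  exact Y.σ_mem i a

theorem two_up {b c : ι → ℕ} {i j : ι} (hij : i ≠ j) (hb : b i = 0)
    (h1 : update b j (b j + 1) ∈ Y.A) (h2 : update c i (c i + 1) ∈ Y.A)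
    (h : (Y.w b : ZMod Y.m) + Y.g j = Y.w c + Y.g i) : False := by
  have k := Y.inj' h1 h2 (by rw [w_succ, w_succ, Nat.cast_add, Nat.cast_add, h])
  have := congrFun k i
  rw [update_of_ne hij, update_self] at this
  omega

theorem σ_Tp {a : ι → ℕ} {i j : ι} (hij : i ≠ j) (hi : a ∈ Y.Tp i) :
    Y.σ i a ∈ Y.Tp j ∨ Y.σ j a ∈ Y.Tp i := by
  by_contra h
  simp only [mem_Tp, σ_mem, true_and, not_or, not_not] at h
  exact Y.two_up hij (Y.σ_zero hi) h.1 h.2 (by rw [σ_w, σ_w]; ring)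

theorem card_base_top {i j : ι} (hij : i ≠ j) :
    #((Y.Tp j).filter fun b => b i = 0) ≤ ∏ l ∈ (univ.erase i).erase j, (Y.N l + 1) := by
  have h : #(Fintype.piFinset fun l => if l = i ∨ l = j then {0} else range (Y.N l + 1)) =
      ∏ l ∈ (univ.erase i).erase j, (Y.N l + 1) := by
    rw [Fintype.card_piFinset, ← mul_prod_erase _ _ (mem_univ i),
      ← mul_prod_erase _ _ (mem_erase.mpr ⟨hij.symm, mem_univ j⟩)]
    simp only [true_or, or_true, if_true, card_singleton, one_mul]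
    refine prod_congr rfl fun l hl => ?_
    rw [if_neg (not_or.mpr ⟨ne_of_mem_erase (mem_of_mem_erase hl), ne_of_mem_erase hl⟩), card_range]
  rw [← h]
  refine card_le_card_of_injOn (fun b => update b j 0) (fun b hb => ?_) fun a ha b hb e =>
    Y.Tp_inj (mem_filter.mp ha).1 (mem_filter.mp hb).1 e
  obtain ⟨h1, h2⟩ := mem_filter.mp hb
  refine mem_coe.mpr (Fintype.mem_piFinset.mpr fun l => ?_)
  by_cases k1 : l = j
  · simp [k1]
  by_cases k2 : l = i
  · simp [k2, hij, h2]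
  · simp only [k1, k2, or_self, if_false, update_of_ne k1, mem_range]
    exact Nat.lt_succ_of_le (Y.coord_le_N (Y.mem_Tp.mp h1).1 l)

/-- The tiling inequality. -/
theorem card_corner {i j : ι} (hij : i ≠ j) :
    #(Y.Tp i ∩ Y.Tp j) ≤ 2 * ∏ l ∈ (univ.erase i).erase j, (Y.N l + 1) := by
  have h1 : #((Y.Tp i ∩ Y.Tp j).filter fun a => Y.σ i a ∈ Y.Tp j) ≤
      #((Y.Tp j).filter fun b => b i = 0) :=
    card_le_card_of_injOn (Y.σ i) (fun a ha => mem_coe.mpr (mem_filter.mpr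
      ⟨(mem_filter.mp ha).2, Y.σ_zero (mem_inter.mp (mem_filter.mp ha).1).1⟩))
      fun a ha b hb e => Y.σ_inj i (Y.mem_Tp.mp (mem_inter.mp (mem_filter.mp ha).1).1).1
        (Y.mem_Tp.mp (mem_inter.mp (mem_filter.mp hb).1).1).1 e
  have h2 : #((Y.Tp i ∩ Y.Tp j).filter fun a => ¬ Y.σ i a ∈ Y.Tp j) ≤
      #((Y.Tp i).filter fun b => b j = 0) :=
    card_le_card_of_injOn (Y.σ j) (fun a ha => mem_coe.mpr (mem_filter.mpr
      ⟨(Y.σ_Tp hij (mem_inter.mp (mem_filter.mp ha).1).1).resolve_left (mem_filter.mp ha).2,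
        Y.σ_zero (mem_inter.mp (mem_filter.mp ha).1).2⟩))
      fun a ha b hb e => Y.σ_inj j (Y.mem_Tp.mp (mem_inter.mp (mem_filter.mp ha).1).1).1
        (Y.mem_Tp.mp (mem_inter.mp (mem_filter.mp hb).1).1).1 e
  have h3 := Y.card_base_top hij
  have h4 := Y.card_base_top hij.symm
  rw [erase_right_comm] at h4
  rw [← card_filter_add_card_filter_not (s := Y.Tp i ∩ Y.Tp j) fun a => Y.σ i a ∈ Y.Tp j]
  omega

theorem card_shallow {i j : ι} (hij : i ≠ j) (s : ℕ) :
    #(Y.A.filter fun a => Y.H i a ≤ s) ≤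
      #(Y.Tp i ∩ Y.Tp j) * ((s / Y.g j + 1) * (Y.N i + 1)) := by
  rw [← card_range (s / Y.g j + 1), ← card_range (Y.N i + 1), ← card_product, ← card_product]
  refine card_le_card_of_injOn
    (fun a => (Y.top j (Y.top i a), Y.M j (Y.top i a) - Y.top i a j, a i)) (fun a ha => ?_)
    fun a ha b hb e => ?_
  · obtain ⟨h1, h2⟩ := mem_filter.mp ha
    have k1 := Y.top_mem h1 i
    have k2 := Y.le_M k1 j
    simp only [coe_product, Set.mem_prod, mem_coe, mem_inter, mem_range]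
    refine ⟨⟨Y.mem_Tp.mpr ⟨Y.top_mem k1 j, fun h => (Y.mem_Tp.mp (Y.top_Tp h1 i)).2
      (Y.low _ h _ fun l => ?_)⟩, Y.top_Tp k1 j⟩, ?_, Nat.lt_succ_of_le (Y.coord_le_N h1 i)⟩
    · by_cases hl : l = i
      · subst hl
        rw [update_self, update_self, top.eq_1 Y j, update_of_ne hij]
      · rw [update_of_ne hl, update_of_ne hl, top.eq_1 Y j]
        by_cases hl' : l = j
        · subst hl'
          rwa [update_self]
        · rw [update_of_ne hl']
    · refine Nat.lt_succ_of_le ((Nat.le_div_iff_mul_le (Y.gpos j)).mpr ?_)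
      have k3 := Y.w_update (Y.top i a) j (Y.M j (Y.top i a))
      have k4 := Y.w_le (Y.top_mem k1 j)
      have k5 := Y.H_add h1 i
      rw [Nat.sub_mul]
      rw [top.eq_1 Y j] at k4
      omega
  · simp only [Prod.mk.injEq] at e
    obtain ⟨e1, e2, e3⟩ := e
    have k1 := Y.le_M (Y.top_mem (mem_filter.mp ha).1 i) j
    have k2 := Y.le_M (Y.top_mem (mem_filter.mp hb).1 i) j
    have k3 := congrFun e1 j
    rw [top.eq_1 Y j, top.eq_1 Y j, update_self, update_self] at k3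
    funext l
    by_cases hl : l = i
    · rw [hl, e3]
    by_cases hl' : l = j
    · have : Y.top i a j = Y.top i b j := by omega
      rw [top, top, update_of_ne hij.symm, update_of_ne hij.symm] at this
      rw [hl', this]
    · have := congrFun e1 l
      rwa [top.eq_1 Y j, top.eq_1 Y j, update_of_ne hl', update_of_ne hl', top, top,
        update_of_ne hl, update_of_ne hl] at this

theorem card_half : #Y.A ≤ #(Y.A.filter fun a => 2 * Y.w a ≤ Y.T) * 2 ^ Fintype.card ι := by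
  have h : #(Fintype.piFinset fun _ : ι => range 2) = 2 ^ Fintype.card ι := by simp
  rw [← h, ← card_product]
  refine card_le_card_of_injOn (fun a => (fun l => a l / 2, fun l => a l % 2)) (fun a ha => ?_)
    fun a _ b _ e => ?_
  · simp only [coe_product, Set.mem_prod, mem_coe, mem_filter, Fintype.mem_piFinset, mem_range]
    refine ⟨⟨Y.low a ha _ fun l => Nat.div_le_self _ _, le_trans ?_ (Y.w_le ha)⟩,
      fun l => Nat.mod_lt _ two_pos⟩
    rw [w, w, mul_sum]
    refine sum_le_sum fun l _ => ?_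
    rw [← mul_assoc]
    exact Nat.mul_le_mul_right _ (Nat.mul_div_le _ _)
  · simp only [Prod.mk.injEq] at e
    funext l
    have k1 := congrFun e.1 l
    have k2 := congrFun e.2 l
    omega

theorem path (u : ι → ℕ) (hu : 4 * Y.w u ≤ Y.T) (s : Finset ι) :
    Y.T * #(Y.A.filter fun a => 2 * Y.w a ≤ Y.T ∧ (a + fun l => if l ∈ s then u l else 0) ∉ Y.A) ≤
      4 * ∑ l ∈ s, ∑ a ∈ Y.A, Y.H l a := by
  induction s using Finset.induction_on with
  | empty =>
    rw [filter_eq_empty_iff.mpr fun a ha h => h.2 (Y.low a ha _ fun l => by simp)]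
    simp
  | insert i s hi ih =>
    set v : ι → ℕ := fun l => if l ∈ s then u l else 0 with hv
    have h1 : (Y.A.filter fun a => 2 * Y.w a ≤ Y.T ∧
        (a + fun l => if l ∈ insert i s then u l else 0) ∉ Y.A) ⊆
        (Y.A.filter fun a => 2 * Y.w a ≤ Y.T ∧ a + v ∉ Y.A) ∪
          Y.A.filter fun a => a + v ∈ Y.A ∧ Y.T ≤ 4 * Y.H i (a + v) := by
      intro a ha
      obtain ⟨k1, k2, k3⟩ := mem_filter.mp ha
      by_cases k4 : a + v ∈ Y.A
      swap
      · exact mem_union_left _ (mem_filter.mpr ⟨k1, k2, k4⟩)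
      refine mem_union_right _ (mem_filter.mpr ⟨k1, k4, ?_⟩)
      have k5 : (a + fun l => if l ∈ insert i s then u l else 0) =
          update (a + v) i ((a + v) i + u i) := by
        funext l
        by_cases hl : l = i
        · subst hl; simp [hv, hi]
        · simp [hv, hl]
      have k6 : Y.w (a + fun l => if l ∈ insert i s then u l else 0) ≤ Y.w a + Y.w u := by
        rw [w_add]
        refine Nat.add_le_add_left (sum_le_sum fun l _ => Nat.mul_le_mul_right _ ?_) _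
        split_ifs <;> simp
      rw [k5] at k3 k6
      rw [Y.mem_line k4] at k3
      have k7 := Y.w_update (a + v) i ((a + v) i + u i)
      have k8 := Y.w_update (a + v) i (Y.M i (a + v))
      have k9 := Y.H_add k4 i
      have k10 := Nat.mul_le_mul_right (Y.g i) (not_le.mp k3).le
      rw [top] at k9
      omega
    have h2 : #(Y.A.filter fun a => a + v ∈ Y.A ∧ Y.T ≤ 4 * Y.H i (a + v)) ≤
        #(Y.A.filter fun a => Y.T ≤ 4 * Y.H i a) :=
      card_le_card_of_injOn (fun a => a + v)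
        (fun a ha => mem_coe.mpr (mem_filter.mpr (mem_filter.mp ha).2))
        fun a _ b _ e => add_right_cancel e
    have h3 : Y.T * #(Y.A.filter fun a => Y.T ≤ 4 * Y.H i a) ≤ 4 * ∑ a ∈ Y.A, Y.H i a := by
      rw [mul_sum, mul_comm, ← smul_eq_mul]
      exact (card_nsmul_le_sum _ _ _ fun a ha => (mem_filter.mp ha).2).trans
        (sum_le_sum_of_subset (filter_subset _ _))
    have h4 := Nat.mul_le_mul_left Y.T (((card_le_card h1).trans (card_union_le _ _)).trans
      (Nat.add_le_add_left h2 _))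
    rw [sum_insert hi]
    rw [mul_add] at h4 ⊢
    omega

theorem exists_ne' (hk : 2 ≤ Fintype.card ι) (j : ι) : ∃ i, i ≠ j :=
  Fintype.exists_ne_of_one_lt_card (by omega) j

/-- A tile with a short direction is far from the simplex. -/
theorem case_small (hk : 2 ≤ Fintype.card ι) {j : ι}
    (hj : 8 * (4 * Fintype.card ι) ^ Fintype.card ι * Y.g j ≤ Y.T) :
    Y.T * #Y.A ≤ 16 * (4 * Fintype.card ι) ^ Fintype.card ι * Y.D := by
  set k := Fintype.card ι with hkd
  set u : ι → ℕ := fun l => Y.N l / (4 * k) with hud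
  have hu : 4 * Y.w u ≤ Y.T := by
    refine Nat.le_of_mul_le_mul_left ?_ (by omega : 0 < k)
    calc k * (4 * Y.w u) = ∑ l, 4 * k * u l * Y.g l := by
          rw [w, mul_sum, mul_sum]; exact sum_congr rfl fun l _ => by ring
      _ ≤ ∑ _l : ι, Y.T := sum_le_sum fun l _ =>
          (Nat.mul_le_mul_right _ (Nat.mul_div_le _ _)).trans (Nat.div_mul_le_self _ _)
      _ = k * Y.T := by rw [sum_const, card_univ, smul_eq_mul]
  by_cases huA : u ∈ Y.A
  swap
  · have h1 := Y.path u hu univ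
    have h0 : (Y.A.filter fun a => 2 * Y.w a ≤ Y.T ∧
        (a + fun l => if l ∈ (univ : Finset ι) then u l else 0) ∉ Y.A) =
        Y.A.filter fun a => 2 * Y.w a ≤ Y.T :=
      filter_congr fun a _ => and_iff_left fun h => huA (Y.low _ h _ fun l => by simp)
    rw [h0] at h1
    have h2 := Nat.mul_le_mul_left Y.T Y.card_half
    have h3 : 2 ^ k ≤ (4 * k) ^ k := Nat.pow_le_pow_left (by omega) _
    calc Y.T * #Y.A ≤ Y.T * #(Y.A.filter fun a => 2 * Y.w a ≤ Y.T) * 2 ^ k := by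
          rw [mul_assoc]; exact h2
      _ ≤ 4 * Y.D * (4 * k) ^ k := Nat.mul_le_mul h1 h3
      _ ≤ 16 * Y.D * (4 * k) ^ k := by gcongr; norm_num
      _ = _ := by ring
  obtain ⟨i, hij⟩ := exists_ne' hk j
  have h1 : ∏ l, (u l + 1) ≤ #Y.A := by
    have : #(Fintype.piFinset fun l => range (u l + 1)) = ∏ l, (u l + 1) := by simp
    rw [← this]
    exact card_le_card fun b hb => Y.low u huA b fun l =>
      Nat.le_of_lt_succ (mem_range.mp (Fintype.mem_piFinset.mp hb l))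
  have hN : ∀ l, Y.N l + 1 ≤ 4 * k * (u l + 1) := fun l => Nat.lt_mul_div_succ _ (by omega)
  set K := 8 * (4 * k) ^ k with hK
  have hK0 : 0 < K := by positivity
  set s := Y.T / K with hs
  have hs1 : Y.g j ≤ s := (Nat.le_div_iff_mul_le hK0).mpr (by rwa [mul_comm])
  have hs2 : K * s ≤ Y.T := Nat.mul_div_le _ _
  have hs3 : Y.T < K * (s + 1) := Nat.lt_mul_div_succ _ hK0
  have h2 : ∏ l ∈ univ.erase j, (Y.N l + 1) ≤ (4 * k) ^ (k - 1) * ∏ l ∈ univ.erase j, (u l + 1) := by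
    calc _ ≤ ∏ l ∈ univ.erase j, 4 * k * (u l + 1) := prod_le_prod' fun l _ => hN l
      _ = _ := by rw [prod_mul_distrib, prod_const, card_erase_of_mem (mem_univ j), card_univ]
  have h3 : 4 * (4 * k) ^ (k - 1) * (s / Y.g j + 1) ≤ u j + 1 := by
    refine Nat.le_of_mul_le_mul_right (c := 4 * k * Y.g j) ?_ (by have := Y.gpos j; positivity)
    have k1 : (s / Y.g j + 1) * Y.g j ≤ 2 * s := by
      have := Nat.div_mul_le_self s (Y.g j)
      rw [add_mul]; omega
    have k2 : Y.T ≤ (Y.N j + 1) * Y.g j := by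
      rw [mul_comm]; exact (Nat.lt_mul_div_succ _ (Y.gpos j)).le
    have k3 : (4 * k) ^ k = (4 * k) ^ (k - 1) * (4 * k) := by
      rw [← pow_succ, Nat.sub_add_cancel (by omega)]
    calc _ = 4 * (4 * k) ^ k * ((s / Y.g j + 1) * Y.g j) := by rw [k3]; ring
      _ ≤ 4 * (4 * k) ^ k * (2 * s) := Nat.mul_le_mul_left _ k1
      _ = K * s := by rw [hK]; ring
      _ ≤ (Y.N j + 1) * Y.g j := hs2.trans k2
      _ ≤ 4 * k * (u j + 1) * Y.g j := Nat.mul_le_mul_right _ (hN j)
      _ = _ := by ring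
  have h4 : 2 * #(Y.A.filter fun a => Y.H i a ≤ s) ≤ #Y.A := by
    have k1 := (Y.card_shallow hij s).trans (Nat.mul_le_mul_right _ (Y.card_corner hij))
    have k2 : ∏ l ∈ univ.erase j, (Y.N l + 1) =
        (Y.N i + 1) * ∏ l ∈ (univ.erase i).erase j, (Y.N l + 1) := by
      rw [erase_right_comm, mul_prod_erase _ (fun l => Y.N l + 1) (mem_erase.mpr ⟨hij, mem_univ i⟩)]
    calc _ ≤ 2 * (2 * (∏ l ∈ (univ.erase i).erase j, (Y.N l + 1)) *
            ((s / Y.g j + 1) * (Y.N i + 1))) := Nat.mul_le_mul_left _ k1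
      _ = 4 * (s / Y.g j + 1) * ∏ l ∈ univ.erase j, (Y.N l + 1) := by rw [k2]; ring
      _ ≤ 4 * (s / Y.g j + 1) * ((4 * k) ^ (k - 1) * ∏ l ∈ univ.erase j, (u l + 1)) :=
          Nat.mul_le_mul_left _ h2
      _ = 4 * (4 * k) ^ (k - 1) * (s / Y.g j + 1) * ∏ l ∈ univ.erase j, (u l + 1) := by ring
      _ ≤ (u j + 1) * ∏ l ∈ univ.erase j, (u l + 1) := Nat.mul_le_mul_right _ h3
      _ = ∏ l, (u l + 1) := mul_prod_erase _ (fun l => u l + 1) (mem_univ j)
      _ ≤ _ := h1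
  have h5 : #(Y.A.filter fun a => ¬ Y.H i a ≤ s) * (s + 1) ≤ Y.D := by
    rw [← smul_eq_mul]
    exact ((card_nsmul_le_sum _ _ _ fun a ha => not_le.mp (mem_filter.mp ha).2).trans
      (sum_le_sum_of_subset (filter_subset _ _))).trans
      (single_le_sum (f := fun l => ∑ a ∈ Y.A, Y.H l a) (fun _ _ => Nat.zero_le _) (mem_univ i))
  have h6 := card_filter_add_card_filter_not (s := Y.A) fun a => Y.H i a ≤ s
  calc Y.T * #Y.A ≤ K * (s + 1) * (2 * #(Y.A.filter fun a => ¬ Y.H i a ≤ s)) :=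
        Nat.mul_le_mul hs3.le (by omega)
    _ = 2 * K * (#(Y.A.filter fun a => ¬ Y.H i a ≤ s) * (s + 1)) := by ring
    _ ≤ 2 * K * Y.D := Nat.mul_le_mul_left _ h5
    _ = _ := by rw [hK]; ring

/-- A discrete simplex is a tile only if it has size at most one. -/
theorem case_simplex (hk : 2 ≤ Fintype.card ι) (h : ∀ i j, Y.Tp i ⊆ Y.Tp j) :
    #Y.A ≤ Fintype.card ι + 1 := by
  by_contra hc
  obtain ⟨a, ha, ha'⟩ : ∃ a ∈ Y.A, a ∉ insert 0 (univ.image fun i : ι => update (0 : ι → ℕ) i 1) := by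
    by_contra hn
    push Not at hn
    have := (card_le_card hn).trans ((card_insert_le _ _).trans
      (Nat.add_le_add_right card_image_le 1))
    rw [card_univ] at this
    exact hc this
  simp only [mem_insert, mem_image, mem_univ, true_and, not_or, not_exists] at ha'
  obtain ⟨i₀, hi₀⟩ : ∃ i, a i ≠ 0 := by
    by_contra hn
    push Not at hn
    exact ha'.1 (funext hn)
  have hex : ∀ b ∈ Y.A, ∀ i j, update b j (b j + 1) ∈ Y.A → update b i (b i + 1) ∈ Y.A :=
    fun b hb i j hj => by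
      by_contra hi
      exact (Y.mem_Tp.mp (h i j (Y.mem_Tp.mpr ⟨hb, hi⟩))).2 hj
  obtain ⟨b, hb, i₁, i₂, hne, hb1, hb2⟩ : ∃ b ∈ Y.A, ∃ i j, i ≠ j ∧ b i ≠ 0 ∧ b j ≠ 0 := by
    by_cases k1 : ∃ j, j ≠ i₀ ∧ a j ≠ 0
    · obtain ⟨j, k2, k3⟩ := k1
      exact ⟨a, ha, j, i₀, k2, k3, hi₀⟩
    push Not at k1
    have k2 : a i₀ ≠ 1 := fun e => ha'.2 i₀ (funext fun l => by
      by_cases hl : l = i₀
      · simp [hl, e]
      · simp [hl, k1 l hl])
    obtain ⟨j, hj⟩ := exists_ne' hk i₀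
    have k3 : update a i₀ (a i₀ - 1) ∈ Y.A :=
      (Y.mem_line ha _ _).mpr ((Nat.sub_le _ _).trans (Y.le_M ha _))
    have k4 := hex _ k3 j i₀ (by
      rw [update_self, update_idem, Nat.sub_add_cancel (by omega), update_eq_self]; exact ha)
    refine ⟨_, k4, j, i₀, hj, by simp, ?_⟩
    rw [update_of_ne hj.symm, update_self]
    omega
  have hT : ∀ t ∈ Y.Tp i₀, ∃ i, t i ≠ 0 := fun t ht => by
    by_contra hn
    push Not at hn
    refine (Y.mem_Tp.mp ht).2 (Y.low a ha _ fun l => ?_)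
    by_cases hl : l = i₀
    · subst hl
      rw [update_self, hn]; exact Nat.one_le_iff_ne_zero.mpr hi₀
    · rw [update_of_ne hl, hn]; exact Nat.zero_le _
  set P := (Y.Tp i₀).sigma fun t => univ.filter fun i => t i ≠ 0 with hP
  have h1 : #(Y.Tp i₀) < #P := by
    rw [hP, card_sigma, card_eq_sum_ones]
    refine sum_lt_sum (fun t ht => ?_) ⟨Y.top i₁ b, h _ _ (Y.top_Tp hb i₁), ?_⟩
    · obtain ⟨i, hi⟩ := hT t ht
      exact card_pos.mpr ⟨i, mem_filter.mpr ⟨mem_univ _, hi⟩⟩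
    · refine one_lt_card.mpr ⟨i₁, mem_filter.mpr ⟨mem_univ _, ?_⟩, i₂,
        mem_filter.mpr ⟨mem_univ _, ?_⟩, hne⟩
      · have := Y.le_M hb i₁
        rw [top, update_self]; omega
      · rwa [top, update_of_ne hne.symm]
  choose ρ hρ1 hρ2 using Y.surj
  change ∀ x, (Y.w (ρ x) : ZMod Y.m) = x at hρ2
  have hbase : ∀ p ∈ P, update p.1 p.2 0 ∈ Y.A ∧
      ∀ j, update (update p.1 p.2 0) j (update p.1 p.2 0 j + 1) ∈ Y.A := fun p hp => by
    obtain ⟨k1, k2⟩ := mem_sigma.mp hp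
    have k3 := (Y.mem_Tp.mp k1).1
    have k4 := (Y.mem_line k3 p.2 0).mpr (Nat.zero_le _)
    refine ⟨k4, fun j => hex _ k4 j p.2 ?_⟩
    have := Y.le_M k3 p.2
    have := (mem_filter.mp k2).2
    rw [update_self, update_idem, Y.mem_line k3]
    omega
  refine absurd h1 (not_lt.mpr (card_le_card_of_injOn
    (fun p => ρ (Y.w (update p.1 p.2 0) - Y.g p.2)) (fun p hp => ?_) fun p hp q hq e => ?_))
  · refine mem_coe.mpr (h p.2 _ (Y.mem_Tp.mpr ⟨hρ1 _, fun k1 => ?_⟩))
    have k2 := Y.inj' k1 (hbase p hp).1 (by rw [w_succ, Nat.cast_add, hρ2, sub_add_cancel])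
    have := congrFun k2 p.2
    rw [update_self, update_self] at this
    omega
  · have k1 := congrArg (fun x => (Y.w x : ZMod Y.m)) e
    simp only [hρ2] at k1
    obtain ⟨t, i⟩ := p
    obtain ⟨t', j⟩ := q
    by_cases hij : i = j
    · subst hij
      have k2 := Y.inj' (hbase _ hp).1 (hbase _ hq).1 (sub_left_injective k1)
      have k3 := Y.Tp_inj (h _ _ (mem_sigma.mp hp).1) (h _ _ (mem_sigma.mp hq).1) k2
      simp only at k3
      rw [k3]
    · exact (Y.two_up hij (update_self _ _ _) ((hbase _ hp).2 j) ((hbase _ hq).2 i)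
        (by linear_combination k1)).elim

/-- Tiles of dimension at least two are either tiny or far from the simplex. -/
theorem geo (hk : 2 ≤ Fintype.card ι) : #Y.A ≤ Fintype.card ι + 1 ∨
    Y.T * #Y.A ≤ (8 * (4 * Fintype.card ι) ^ Fintype.card ι) ^ (Fintype.card ι + 1) * Y.D := by
  set k := Fintype.card ι with hkd
  set K := 8 * (4 * k) ^ k with hK
  have hK1 : 1 ≤ (4 * k) ^ k := Nat.one_le_pow _ _ (by omega)
  by_cases h1 : ∃ j, K * Y.g j ≤ Y.T
  · obtain ⟨j, hj⟩ := h1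
    refine Or.inr ((Y.case_small hk hj).trans (Nat.mul_le_mul_right _ ?_))
    calc 16 * (4 * k) ^ k = 2 * K := by rw [hK]; ring
      _ ≤ K ^ k * K := Nat.mul_le_mul_right _ (le_trans (by omega) (Nat.le_self_pow (by omega) K))
      _ = _ := (pow_succ _ _).symm
  push Not at h1
  by_cases h2 : ∃ i, ∃ a ∈ Y.A, Y.T ≤ K * Y.H i a
  · obtain ⟨i, a, ha, h3⟩ := h2
    have h4 : Y.H i a ≤ Y.D :=
      (single_le_sum (f := fun a => Y.H i a) (fun _ _ => Nat.zero_le _) ha).trans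
        (single_le_sum (f := fun l => ∑ a ∈ Y.A, Y.H l a) (fun _ _ => Nat.zero_le _) (mem_univ i))
    have h5 : #Y.A ≤ K ^ k := by
      have : #(Fintype.piFinset fun _ : ι => range K) = K ^ k := by simp [hkd]
      rw [← this]
      refine card_le_card fun b hb => Fintype.mem_piFinset.mpr fun l => mem_range.mpr ?_
      exact (Y.coord_le_N hb l).trans_lt ((Nat.div_lt_iff_lt_mul (Y.gpos l)).mpr (h1 l))
    refine Or.inr ?_
    calc Y.T * #Y.A ≤ K * Y.D * K ^ k := Nat.mul_le_mul (h3.trans (Nat.mul_le_mul_left _ h4)) h5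
      _ = _ := by ring
  push Not at h2
  refine Or.inl (Y.case_simplex hk fun i j t ht => ?_)
  have k1 := (Y.mem_Tp.mp ht).1
  refine Y.mem_Tp.mpr ⟨k1, fun k2 => ?_⟩
  have k3 := Y.w_le k2
  have k4 := Y.H_add k1 i
  have k5 := Nat.lt_of_mul_lt_mul_left ((h2 i t k1).trans (h1 j))
  rw [w_succ] at k3
  rw [Y.top_of_Tp ht] at k4
  omega

end Tile

end Pool.Agent.Lib.MP_299528_co
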