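import Pool.Agent.Lib.MP_299528_co.AsyStd
import Pool.Agent.Lib.MP_299528_co.FinGeo

set_option autoImplicit false

namespace Pool.Agent.Lib.MP_299528_co

open Finset Function

namespace Sys

variable (Y : Sys)

/-- The exponent vector of `s` over the generators other than the multiplicity. -/
def V (s : ℕ) : Y.G → ℕ := fun g => Y.a s g

/-- The exponent vectors of the Apery set. -/
def AA : Finset (Y.G → ℕ) := (range Y.m).image fun x => Y.V (Y.c + x)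

theorem lift' {s : ℕ} (hs : s ∈ Y.S) (i : ℕ) : s + i * Y.m ∈ Y.S ∧ Y.V (s + i * Y.m) = Y.V s := by
  induction i with
  | zero => simpa using hs
  | succ i ih =>
    have := Y.up _ ih.1
    rw [Nat.succ_mul, ← add_assoc]
    exact ⟨this.1, (funext fun g : Y.G => this.2 g (Y.hG g g.2).ne').trans ih.2⟩

theorem deg' {s : ℕ} (hs : s ∈ Y.S) : s = Y.a s Y.m * Y.m + ∑ g : Y.G, Y.V s g * g := by
  have := Y.deg s hs
  rwa [← sum_coe_sort Y.G] at this

theorem win (x : ℕ) : Y.c + x ∈ Y.S := Y.cond _ (Nat.le_add_right _ _)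

theorem cast_w {s : ℕ} (hs : s ∈ Y.S) : ((∑ g : Y.G, Y.V s g * g : ℕ) : ZMod Y.m) = s := by
  conv_rhs => rw [Y.deg' hs]
  simp

theorem exists_win (r : ZMod Y.m) : ∃ x < Y.m, ((Y.c + x : ℕ) : ZMod Y.m) = r := by
  have : NeZero Y.m := ⟨Y.hm.ne'⟩
  exact ⟨(r - Y.c).val, ZMod.val_lt _, by simp⟩

theorem V_mem {s : ℕ} (hs : s ∈ Y.S) : Y.V s ∈ Y.AA := by
  obtain ⟨x, hx, h⟩ := Y.exists_win s
  refine mem_image.mpr ⟨x, mem_range.mpr hx, ?_⟩
  rw [ZMod.natCast_eq_natCast_iff] at h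
  rcases le_total s (Y.c + x) with k | k
  · obtain ⟨i, hi⟩ := (Nat.modEq_iff_dvd' k).mp h.symm
    have e : Y.c + x = s + i * Y.m := by rw [mul_comm i]; omega
    rw [e, (Y.lift' hs i).2]
  · obtain ⟨i, hi⟩ := (Nat.modEq_iff_dvd' k).mp h
    have e : s = Y.c + x + i * Y.m := by rw [mul_comm i]; omega
    rw [e, (Y.lift' (Y.win x) i).2]

theorem low' (s : ℕ) : s ∈ Y.S → ∀ b, b ≤ Y.V s → b ∈ Y.AA := by
  induction s using Nat.strong_induction_on with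
  | _ s ih =>
    intro hs b hb
    by_cases h : b = Y.V s
    · exact h ▸ Y.V_mem hs
    obtain ⟨g, hg⟩ := ne_iff.mp h
    have h1 : b g < Y.a s g := lt_of_le_of_ne (hb g) hg
    obtain ⟨k1, k2, k3, k4⟩ := Y.down s hs g (by omega)
    have k5 := Y.hG g g.2
    refine ih (s - g) (by omega) k2 b fun l => ?_
    by_cases hl : l = g
    · subst hl
      show b l ≤ Y.a (s - l) l
      omega
    · show b l ≤ Y.a (s - g) l
      rw [k4 l fun e => hl (Subtype.ext e)]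
      exact hb l

theorem win_inj {x y : ℕ} (hx : x < Y.m) (hy : y < Y.m)
    (h : ((Y.c + x : ℕ) : ZMod Y.m) = (Y.c + y : ℕ)) : x = y := by
  rw [ZMod.natCast_eq_natCast_iff] at h
  exact Nat.ModEq.eq_of_lt_of_lt (Nat.ModEq.add_left_cancel' _ h) hx hy

/-- The tile of a numerical semigroup. -/
def tile : Tile Y.G where
  A := Y.AA
  m := Y.m
  g := fun g => g
  T := Y.c + Y.m - 1
  low := fun a ha b hb => by
    obtain ⟨x, _, rfl⟩ := mem_image.mp ha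
    exact Y.low' _ (Y.win x) b hb
  inj := fun a ha b hb h => by
    obtain ⟨x, hx, rfl⟩ := mem_image.mp ha
    obtain ⟨y, hy, rfl⟩ := mem_image.mp hb
    rw [Y.cast_w (Y.win x), Y.cast_w (Y.win y)] at h
    rw [Y.win_inj (mem_range.mp hx) (mem_range.mp hy) h]
  surj := fun r => by
    obtain ⟨x, _, h⟩ := Y.exists_win r
    exact ⟨_, Y.V_mem (Y.win x), (Y.cast_w (Y.win x)).trans h⟩
  gpos := fun g => Y.hm.trans (Y.hG g g.2)
  le := fun a ha => by
    obtain ⟨x, hx, rfl⟩ := mem_image.mp ha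
    have h1 := Y.deg' (Y.win x)
    have h2 := mem_range.mp hx
    omega

theorem V_injOn : Set.InjOn (fun x => Y.V (Y.c + x)) (range Y.m) := fun x hx y hy h => by
  refine Y.win_inj (mem_range.mp hx) (mem_range.mp hy) ?_
  rw [← Y.cast_w (Y.win x), ← Y.cast_w (Y.win y)]
  simp only at h
  rw [h]

theorem card_tile : #Y.tile.A = Y.m := by
  show #Y.AA = Y.m
  rw [AA, card_image_of_injOn Y.V_injOn, card_range]

/-- The number of steps of length `m` from the window down to the Apery set. -/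
def NN : ℕ := ∑ x ∈ range Y.m, Y.a (Y.c + x) Y.m

theorem sum_w : 2 * (Y.NN * Y.m + ∑ a ∈ Y.tile.A, Y.tile.w a) + Y.m =
    2 * (Y.m * Y.c) + Y.m * Y.m := by
  have h1 : ∑ a ∈ Y.tile.A, Y.tile.w a = ∑ x ∈ range Y.m, ∑ g : Y.G, Y.V (Y.c + x) g * g :=
    sum_image Y.V_injOn
  rw [h1, NN, sum_mul, ← sum_add_distrib, ← sum_congr rfl fun x _ => Y.deg' (Y.win x),
    sum_add_distrib, sum_const, card_range, smul_eq_mul]
  have h2 := sum_range_id_mul_two Y.m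
  obtain ⟨k, hk⟩ : ∃ k, Y.m = k + 1 := ⟨Y.m - 1, by have := Y.hm; omega⟩
  rw [hk] at h2 ⊢
  rw [Nat.add_sub_cancel] at h2
  linarith

theorem down_m (j : ℕ) : ∀ u ∈ Y.S, j ≤ Y.a u Y.m → j * Y.m ≤ u ∧ u - j * Y.m ∈ Y.S := by
  induction j with
  | zero => intro u hu _; simpa using hu
  | succ j ih =>
    intro u hu hj
    obtain ⟨k1, k2, k3, -⟩ := Y.down u hu Y.m (by omega)
    obtain ⟨k4, k5⟩ := ih _ k2 (by omega)
    rw [Nat.succ_mul]
    refine ⟨by omega, ?_⟩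
    rwa [Nat.sub_sub, add_comm] at k5

open Classical in
theorem NN_le : Y.NN ≤ #((range Y.c).filter fun t => t ∈ Y.S) := by
  have h : Y.NN = #((range Y.m).sigma fun x => range (Y.a (Y.c + x) Y.m)) := by
    simp [NN, card_sigma]
  rw [h]
  have hf : ∀ p ∈ (range Y.m).sigma fun x => range (Y.a (Y.c + x) Y.m), p.1 < Y.m ∧
      (p.2 + 1) * Y.m ≤ Y.c + p.1 ∧ Y.c + p.1 - (p.2 + 1) * Y.m ∈ Y.S := fun p hp =>
    ⟨mem_range.mp (mem_sigma.mp hp).1, Y.down_m _ _ (Y.win _) (mem_range.mp (mem_sigma.mp hp).2)⟩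
  refine card_le_card_of_injOn (fun p => Y.c + p.1 - (p.2 + 1) * Y.m) (fun p hp => ?_)
    fun p hp q hq e => ?_
  · obtain ⟨k1, k2, k3⟩ := hf p hp
    refine mem_coe.mpr (mem_filter.mpr ⟨mem_range.mpr ?_, k3⟩)
    show Y.c + p.1 - (p.2 + 1) * Y.m < Y.c
    rw [add_mul] at k2 ⊢
    omega
  · obtain ⟨k1, k2, -⟩ := hf p hp
    obtain ⟨k3, k4, -⟩ := hf q hq
    obtain ⟨x, i⟩ := p
    obtain ⟨y, j⟩ := q
    simp only at e k1 k2 k3 k4
    have k5 : x + (j + 1) * Y.m = y + (i + 1) * Y.m := by omega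
    have k6 : x = y := by
      have := congrArg (· % Y.m) k5
      simpa [Nat.mod_eq_of_lt k1, Nat.mod_eq_of_lt k3] using this
    subst k6
    have k7 := Nat.eq_of_mul_eq_mul_right Y.hm (Nat.add_left_cancel k5)
    rw [Nat.add_right_cancel k7]

theorem c_le : Y.c ≤ Y.m * Y.NN := by
  obtain ⟨x, hx, h⟩ := Y.exists_win 0
  have h1 : Y.V (Y.c + x) = 0 := Y.tile.inj _ (Y.V_mem (Y.win x)) _
    (Y.low' _ (Y.win x) 0 zero_le) ((Y.cast_w (Y.win x)).trans (h.trans (by simp; rfl)))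
  have h2 := Y.deg' (Y.win x)
  rw [h1] at h2
  simp only [Pi.zero_apply, zero_mul, sum_const_zero, add_zero] at h2
  have h3 : Y.a (Y.c + x) Y.m ≤ Y.NN :=
    single_le_sum (f := fun x => Y.a (Y.c + x) Y.m) (fun _ _ => Nat.zero_le _) (mem_range.mpr hx)
  calc Y.c ≤ Y.c + x := Nat.le_add_right _ _
    _ = _ := h2
    _ ≤ Y.NN * Y.m := Nat.mul_le_mul_right _ h3
    _ = _ := mul_comm _ _

theorem wilf_of_D (h : (#Y.G - 1 : ℤ) * Y.m * (Y.m - 1) ≤ 2 * Y.tile.D) :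
    Y.c ≤ (#Y.G + 1) * Y.NN := by
  have h1 := Y.tile.ident
  have h2 := Y.sum_w
  rw [card_tile, Fintype.card_coe] at h1
  have h3 : (Y.tile.T : ℤ) = Y.c + Y.m - 1 := by
    show ((Y.c + Y.m - 1 : ℕ) : ℤ) = _
    have := Y.hm
    omega
  zify at h1 h2 ⊢
  rw [h3] at h1
  have hm : (0 : ℤ) < Y.m := by exact_mod_cast Y.hm
  refine le_of_mul_le_mul_left ?_ (by positivity : (0 : ℤ) < 2 * Y.m)
  have h4 := congrArg (fun z => ((#Y.G : ℤ) + 1) * z) h2
  linarith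

theorem wilf (h : (4 * (#Y.G + 1)) ^ (2 * (#Y.G + 1) ^ 3) ≤ Y.c) : Y.c ≤ (#Y.G + 1) * Y.NN := by
  have hm : (1 : ℤ) ≤ Y.m := by exact_mod_cast Y.hm
  by_cases hk : #Y.G ≤ 1
  · refine Y.wilf_of_D (le_trans ?_ (by positivity : (0 : ℤ) ≤ 2 * Y.tile.D))
    have : (#Y.G : ℤ) ≤ 1 := by exact_mod_cast hk
    rw [mul_assoc]
    exact mul_nonpos_of_nonpos_of_nonneg (by linarith) (mul_nonneg (by linarith) (by linarith))
  have hg := Y.tile.geo (by rw [Fintype.card_coe]; omega)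
  rw [card_tile, Fintype.card_coe] at hg
  set k := #Y.G with hkd
  rcases hg with hg | hg
  · exact Y.c_le.trans (Nat.mul_le_mul_right _ hg)
  set K := 8 * (4 * k) ^ k with hK
  have hK0 : 0 < K := Nat.mul_pos (by norm_num) (pow_pos (by omega) _)
  by_cases h1 : K ^ (k + 1) * k * Y.m ≤ Y.tile.T
  · refine Y.wilf_of_D ?_
    have h2 : k * Y.m * Y.m ≤ Y.tile.D := by
      refine Nat.le_of_mul_le_mul_left ?_ (pow_pos hK0 (k + 1))
      calc _ = K ^ (k + 1) * k * Y.m * Y.m := by ring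
        _ ≤ _ := (Nat.mul_le_mul_right _ h1).trans hg
    have h3 : (k : ℤ) * Y.m * Y.m ≤ Y.tile.D := by exact_mod_cast h2
    have h4 : (0 : ℤ) ≤ k := Nat.cast_nonneg k
    nlinarith [mul_nonneg h4 (by linarith : (0 : ℤ) ≤ Y.m), mul_nonneg (sub_nonneg.mpr hm)
      (by linarith : (0 : ℤ) ≤ Y.m), mul_nonneg (mul_nonneg h4 (by linarith : (0 : ℤ) ≤ Y.m))
      (by linarith : (0 : ℤ) ≤ Y.m)]
  exfalso
  set q := K ^ (k + 1) * k with hq
  have h2 : Y.m ≤ q ^ k := by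
    have : #(Fintype.piFinset fun _ : Y.G => range q) = q ^ k := by simp [hkd]
    rw [← this, ← card_tile]
    refine card_le_card fun b hb => Fintype.mem_piFinset.mpr fun l => mem_range.mpr ?_
    refine (Y.tile.coord_le_N hb l).trans_lt ((Nat.div_lt_iff_lt_mul (Y.tile.gpos l)).mpr ?_)
    exact (not_le.mp h1).trans_le (Nat.mul_le_mul_left _ (Y.hG l l.2).le)
  have h3 : Y.c ≤ Y.tile.T := by
    show Y.c ≤ Y.c + Y.m - 1
    have := Y.hm
    omega
  have h4 : K ≤ (4 * (k + 1)) ^ (k + 1) := by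
    rw [pow_succ, mul_comm, hK]
    exact Nat.mul_le_mul (by omega) (Nat.pow_le_pow_left (by omega) _) |>.trans
      (le_of_eq (mul_comm _ _)) |>.trans (le_of_eq (mul_comm _ _))
  have h5 : k ≤ K := by
    have := Nat.le_self_pow (by omega : k ≠ 0) (4 * k)
    omega
  have h6 : q ≤ K ^ (k + 2) := by
    rw [pow_succ K (k + 1)]
    exact Nat.mul_le_mul_left _ h5
  have h7 : Y.c < q ^ (k + 1) := by
    calc Y.c < q * Y.m := h3.trans_lt (not_le.mp h1)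
      _ ≤ q * q ^ k := Nat.mul_le_mul_left _ h2
      _ = _ := by ring
  refine absurd h (not_le.mpr (h7.trans_le ?_))
  calc q ^ (k + 1) ≤ (((4 * (k + 1)) ^ (k + 1)) ^ (k + 2)) ^ (k + 1) :=
        Nat.pow_le_pow_left (h6.trans (Nat.pow_le_pow_left h4 _)) _
    _ = (4 * (k + 1)) ^ ((k + 1) * (k + 2) * (k + 1)) := by rw [← pow_mul, ← pow_mul, mul_assoc]
    _ ≤ _ := Nat.pow_le_pow_right (by omega) (by nlinarith [Nat.zero_le (k ^ 3), Nat.zero_le (k ^ 2)])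

end Sys

theorem wilf_large {S : Set (Fin 1 → ℕ)} (h0 : (0 : Fin 1 → ℕ) ∈ S)
    (hadd : ∀ x ∈ S, ∀ y ∈ S, x + y ∈ S) (hfin : Sᶜ.Finite)
    (hc : (4 * eS S) ^ (2 * eS S ^ 3) ≤ cS S) : cS S ≤ eS S * nS S := by
  classical
  have hex : ∃ t : ℕ, 0 < t ∧ (Pi.single 0 t : Fin 1 → ℕ) ∈ S :=
    ⟨cS S + 1, Nat.succ_pos _, mem_of_cS_le hfin (by simp)⟩
  obtain ⟨Y, -, e2, e3, e4⟩ := exists_sys h0 hadd hfin (m := Nat.find hex)
    ⟨Nat.find_spec hex, fun _ h => Nat.find_min' hex h⟩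
  rw [← e2, ← e3] at hc
  rw [← e2, ← e3, ← e4]
  exact (Y.wilf hc).trans (Nat.mul_le_mul_left _ Y.NN_le)

end Pool.Agent.Lib.MP_299528_co
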