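import Pool.Agent.Lib.MP_299528_co.Defs
import Pool.Agent.Lib.MP_299528_co.Zhai

set_option autoImplicit false

namespace Pool.Agent.Lib.MP_299528_co

open Finset

/-- The point of `ℕ^1` with coordinate `t`. -/
def pt (t : ℕ) : Fin 1 → ℕ := fun _ => t

theorem pt_eq (x : Fin 1 → ℕ) : pt (x 0) = x := by
  funext i
  rw [Subsingleton.elim i 0]
  rfl

theorem pt_zero (t : ℕ) : pt t 0 = t := rfl

theorem pt_inj : Function.Injective pt := fun a b h => by
  simpa [pt] using congrFun h 0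

theorem single_eq_pt (t : ℕ) : (Pi.single 0 t : Fin 1 → ℕ) = pt t := by
  funext i
  rw [Subsingleton.elim i 0]
  simp [pt]

theorem ext_one {x y : Fin 1 → ℕ} (h : x 0 = y 0) : x = y := by
  rw [← pt_eq x, ← pt_eq y, h]

theorem le_one_iff {x y : Fin 1 → ℕ} : x ≤ y ↔ x 0 ≤ y 0 :=
  ⟨fun h => h 0, fun h i => by rw [Subsingleton.elim i 0]; exact h⟩

/-- In dimension one the points below a gap are the points below the conductor. -/
theorem below_iff {S : Set (Fin 1 → ℕ)} (hfin : Sᶜ.Finite) (x : Fin 1 → ℕ) :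
    (∃ h : Fin 1 → ℕ, h ∉ S ∧ x ≤ h) ↔ x 0 < cS S := by
  classical
  obtain ⟨B, hB⟩ := exists_bound hfin
  have hex : ∃ c : ℕ, ∀ y : Fin 1 → ℕ, c ≤ y 0 → y ∈ S := ⟨B, fun y hy => hB y 0 hy⟩
  have key : ∀ x : Fin 1 → ℕ, (∃ h : Fin 1 → ℕ, h ∉ S ∧ x ≤ h) ↔ x 0 < Nat.find hex := by
    intro x
    rw [Nat.lt_find_iff]
    constructor
    · rintro ⟨h, hh, hx⟩ m hm hall
      exact hh (hall h (hm.trans (hx 0)))
    · intro hx
      have := hx (x 0) le_rfl
      push Not at this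
      obtain ⟨y, hy, hyS⟩ := this
      exact ⟨y, hyS, le_one_iff.mpr hy⟩
  have hc : cS S = Nat.find hex := by
    unfold cS
    have : {x : Fin 1 → ℕ | ∃ h : Fin 1 → ℕ, h ∉ S ∧ x ≤ h} =
        pt '' ((range (Nat.find hex) : Finset ℕ) : Set ℕ) := by
      ext x
      simp only [Set.mem_setOf_eq, key, Set.mem_image, mem_coe, mem_range]
      exact ⟨fun h => ⟨x 0, h, pt_eq x⟩, fun ⟨t, ht, h⟩ => h ▸ ht⟩
    rw [this, Set.ncard_image_of_injective _ pt_inj, Set.ncard_coe_finset, card_range]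
  rw [hc]
  exact key x

theorem mem_of_cS_le {S : Set (Fin 1 → ℕ)} (hfin : Sᶜ.Finite) {x : Fin 1 → ℕ}
    (hx : cS S ≤ x 0) : x ∈ S := by
  by_contra h
  have := (below_iff hfin x).mp ⟨x, h, le_rfl⟩
  omega

open Classical in
theorem nS_one {S : Set (Fin 1 → ℕ)} (hfin : Sᶜ.Finite) :
    nS S = ((range (cS S)).filter (fun t => pt t ∈ S)).card := by
  unfold nS
  have : {x : Fin 1 → ℕ | x ∈ S ∧ ∃ h : Fin 1 → ℕ, h ∉ S ∧ x ≤ h} =
      pt '' (((range (cS S)).filter (fun t => pt t ∈ S) : Finset ℕ) : Set ℕ) := by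
    ext x
    simp only [Set.mem_setOf_eq, below_iff hfin, Set.mem_image, mem_coe, mem_filter, mem_range]
    constructor
    · rintro ⟨h1, h2⟩
      exact ⟨x 0, ⟨h2, by rwa [pt_eq]⟩, pt_eq x⟩
    · rintro ⟨t, ⟨h1, h2⟩, rfl⟩
      exact ⟨h2, h1⟩
  rw [this, Set.ncard_image_of_injective _ pt_inj, Set.ncard_coe_finset]

/-- The exit-point count: every element of `S` below the conductor leaves along `g` through the
window of length `g` above the conductor. -/
theorem window_le {S : Set (Fin 1 → ℕ)} (h0 : (0 : Fin 1 → ℕ) ∈ S)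
    (hadd : ∀ x ∈ S, ∀ y ∈ S, x + y ∈ S) (hfin : Sᶜ.Finite) {m : ℕ} (hm : 0 < m)
    (hmS : pt m ∈ S) {g : Fin 1 → ℕ} (hgS : g ∈ S) (hg : 0 < g 0) :
    ∑ δ ∈ range m, ((g 0 - δ + m - 1) / m) * mu S g (pt (cS S + δ)) ≤ nS S := by
  classical
  rw [nS_one hfin]
  set c := cS S with hc
  set A : Finset (Σ _ : ℕ, ℕ × ℕ) := (range m).sigma (fun δ =>
    range ((g 0 - δ + m - 1) / m) ×ˢ range (mu S g (pt (c + δ)))) with hA
  have hcard : A.card = ∑ δ ∈ range m, ((g 0 - δ + m - 1) / m) * mu S g (pt (c + δ)) := by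
    rw [hA, card_sigma]
    simp
  rw [← hcard]
  have hfacts : ∀ p ∈ A, p.1 < m ∧ p.1 + p.2.1 * m < g 0 ∧
      ∃ s ∈ S, ∃ k, c + p.1 = s 0 + (p.2.2 + 1) * g 0 + k * g 0 := by
    rintro ⟨δ, j, t⟩ hp
    simp only [hA, mem_sigma, mem_range, mem_product] at hp
    obtain ⟨h1, h2, h3⟩ := hp
    refine ⟨h1, ?_, ?_⟩
    · have := (Nat.le_div_iff_mul_le hm).mp (Nat.succ_le_of_lt h2)
      simp only [Nat.succ_mul] at this
      show δ + j * m < g 0
      omega
    · obtain ⟨s, hs, h⟩ := mu_spec (S := S) (g := g) (y := pt (c + δ)) (Or.inl (by omega))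
      obtain ⟨k, hk⟩ := Nat.exists_eq_add_of_lt h3
      refine ⟨s, hs, k, ?_⟩
      have := congrFun h 0
      simp only [pt, Pi.add_apply, Pi.smul_apply, smul_eq_mul] at this
      show c + δ = s 0 + (t + 1) * g 0 + k * g 0
      rw [this, hk]
      ring
  apply card_le_card_of_injOn (fun p => c + p.1 + p.2.1 * m - (p.2.2 + 1) * g 0)
  · intro p hp
    obtain ⟨h1, h2, s, hs, k, h3⟩ := hfacts p hp
    simp only [coe_filter, mem_range, Set.mem_setOf_eq]
    have e : c + p.1 + p.2.1 * m - (p.2.2 + 1) * g 0 = s 0 + k * g 0 + p.2.1 * m := by omega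
    constructor
    · have : (p.2.2 + 1) * g 0 = p.2.2 * g 0 + g 0 := by ring
      omega
    · rw [e]
      have e2 : pt (s 0 + k * g 0 + p.2.1 * m) = s + k • g + p.2.1 • pt m :=
        ext_one (by simp [pt])
      rw [e2]
      exact hadd _ (hadd _ hs _ (nsmul_mem' h0 hadd hgS k)) _ (nsmul_mem' h0 hadd hmS _)
  · rintro ⟨δ, j, t⟩ hp ⟨δ', j', t'⟩ hp' h
    obtain ⟨h1, h2, s, -, k, h3⟩ := hfacts _ hp
    obtain ⟨h1', h2', s', -, k', h3'⟩ := hfacts _ hp'
    simp only at h h1 h2 h3 h1' h2' h3'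
    have e : δ + j * m + (t' + 1) * g 0 = δ' + j' * m + (t + 1) * g 0 := by omega
    have e1 : δ + j * m = δ' + j' * m := by
      have := congrArg (· % g 0) e
      simpa [Nat.add_mul_mod_self_right, Nat.mod_eq_of_lt h2, Nat.mod_eq_of_lt h2'] using this
    have e2 : δ = δ' := by
      have := congrArg (· % m) e1
      simpa [Nat.add_mul_mod_self_right, Nat.mod_eq_of_lt h1, Nat.mod_eq_of_lt h1'] using this
    subst e2
    have e3 : j = j' := Nat.eq_of_mul_eq_mul_right hm (by omega)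
    have e4 : t' + 1 = t + 1 := Nat.eq_of_mul_eq_mul_right hg (by omega)
    have e5 : t = t' := by omega
    subst e3 e5
    rfl

theorem ceil_weight {m g δ : ℕ} (hδ : δ < m) (hg : m ≤ g) :
    g ≤ ((g - δ + m - 1) / m) * (m + δ) := by
  have hm : 0 < m := by omega
  have h1 : 1 ≤ (g - δ + m - 1) / m := (Nat.le_div_iff_mul_le hm).mpr (by omega)
  have h2 := Nat.div_add_mod (g - δ + m - 1) m
  have h3 := Nat.mod_lt (g - δ + m - 1) hm
  set K := (g - δ + m - 1) / m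
  have h4 : δ ≤ K * δ := Nat.le_mul_of_pos_left _ h1
  have h5 : K * (m + δ) = m * K + K * δ := by ring
  omega

theorem harmonic_le {S : Set (Fin 1 → ℕ)} (h0 : (0 : Fin 1 → ℕ) ∈ S)
    (hadd : ∀ x ∈ S, ∀ y ∈ S, x + y ∈ S) (hfin : Sᶜ.Finite) {m : ℕ}
    (hm : IsLeast {t : ℕ | 0 < t ∧ (Pi.single 0 t : Fin 1 → ℕ) ∈ S} m) :
    ∑ δ ∈ range m, ((cS S : ℝ) + δ) / ((m : ℝ) + δ) ≤ (eS S : ℝ) * nS S := by
  classical
  have hm0 : 0 < m := hm.1.1
  have hmS : pt m ∈ S := single_eq_pt m ▸ hm.1.2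
  set G := (gen_finite hfin).toFinset with hGdef
  have hG : ∀ g, g ∈ G ↔ g ∈ Gen S := fun g => Set.Finite.mem_toFinset _
  have he : eS S = G.card := Set.ncard_eq_toFinset_card _ (gen_finite hfin)
  have hb : ∀ g ∈ G, ∑ δ ∈ range m, (g 0 : ℝ) * mu S g (pt (cS S + δ)) / ((m : ℝ) + δ) ≤
      nS S := by
    intro g hg
    obtain ⟨hgS, hg0, -⟩ := (hG g).mp hg
    have hpos : 0 < g 0 := by
      by_contra hh
      exact hg0 (ext_one (by simpa using hh))
    have hmg : m ≤ g 0 := hm.2 ⟨hpos, by rwa [single_eq_pt, pt_eq]⟩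
    have h1 := window_le h0 hadd hfin hm0 hmS hgS hpos
    refine le_trans (sum_le_sum (fun δ hδ => ?_)) ((Nat.cast_sum _ _).symm.le.trans
      (Nat.cast_le.mpr h1))
    have h2 := ceil_weight (mem_range.mp hδ) hmg
    have h3 : (g 0 : ℝ) ≤ (((g 0 - δ + m - 1) / m : ℕ) : ℝ) * ((m : ℝ) + δ) := by exact_mod_cast h2
    have h4 : (0 : ℝ) < (m : ℝ) + δ := by positivity
    rw [div_le_iff₀ h4, Nat.cast_mul, mul_right_comm]
    exact mul_le_mul_of_nonneg_right h3 (by positivity)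
  have h1 := sum_le_sum hb
  rw [sum_const, nsmul_eq_mul, sum_comm, ← he] at h1
  refine le_trans (sum_le_sum (fun δ _ => ?_)) h1
  rw [← sum_div]
  have h2 := coord_le h0 hadd G hG 0 (pt (cS S + δ)) (mem_of_cS_le hfin (by simp [pt]))
  have h3 : (cS S : ℝ) + δ ≤ ∑ g ∈ G, (g 0 : ℝ) * mu S g (pt (cS S + δ)) := by
    rw [pt_zero] at h2
    exact_mod_cast h2
  have h4 : (0 : ℝ) < (m : ℝ) + δ := by positivity
  exact div_le_div_of_nonneg_right h3 h4.le

theorem log_two_le {m : ℕ} (hm : 0 < m) :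
    Real.log 2 ≤ ∑ δ ∈ range m, 1 / ((m : ℝ) + δ) := by
  have key : ∀ k : ℕ, Real.log ((m : ℝ) + k) - Real.log m ≤ ∑ δ ∈ range k, 1 / ((m : ℝ) + δ) := by
    intro k
    induction k with
    | zero => simp
    | succ k ih =>
      rw [sum_range_succ]
      have h1 : (0 : ℝ) < (m : ℝ) + k := by positivity
      have h2 : (0 : ℝ) < ((m : ℝ) + k + 1) / ((m : ℝ) + k) := by positivity
      have h3 := Real.log_le_sub_one_of_pos h2
      rw [Real.log_div (by positivity) h1.ne'] at h3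
      have h4 : ((m : ℝ) + k + 1) / ((m : ℝ) + k) - 1 = 1 / ((m : ℝ) + k) := by
        field_simp
        ring
      push_cast
      rw [← add_assoc]
      linarith
  have h1 := key m
  have h2 : (m : ℝ) + m = 2 * m := by ring
  rw [h2, Real.log_mul (by norm_num) (by positivity)] at h1
  linarith

end Pool.Agent.Lib.MP_299528_co
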