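import Pool.Agent.Lib.MP_299528_co.AsyMain

set_option autoImplicit false

namespace Pool.Agent.Lib.MP_299528_co.RetiredWilfAsymptotic

open Pool.Agent.Lib.MP_299528_co

/-- Wilf's inequality (the case `d = 1`) holds asymptotically as the depth `c / m` grows,
uniformly in the embedding dimension; `m` is the multiplicity. -/
theorem result (ε : ℝ) (hε : 0 < ε) :
    ∃ q₀ : ℕ, ∀ (S : Set (Fin 1 → ℕ)) (m : ℕ),
      (0 : Fin 1 → ℕ) ∈ S → (∀ x ∈ S, ∀ y ∈ S, x + y ∈ S) → Sᶜ.Finite →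
      IsLeast {t : ℕ | 0 < t ∧ (Pi.single 0 t : Fin 1 → ℕ) ∈ S} m → q₀ * m ≤ cS S →
      (1 - ε) * (cS S : ℝ) ≤ (eS S : ℝ) * nS S :=
  asym_unif ε hε

end Pool.Agent.Lib.MP_299528_co.RetiredWilfAsymptotic
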