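import Pool.Agent.Lib.MP_299528_co.Bd.Final

set_option autoImplicit false

namespace Pool.Agent.Lib.MP_299528_co.RetiredWilfAsymptoticAll

open Pool.Agent.Lib.MP_299528_co

/-- Wilf's inequality (the case `d = 1`) holds asymptotically as the conductor grows, for all
numerical semigroups. -/
theorem result (ε : ℝ) (hε : 0 < ε) :
    ∃ c₀ : ℕ, ∀ S : Set (Fin 1 → ℕ),
      (0 : Fin 1 → ℕ) ∈ S → (∀ x ∈ S, ∀ y ∈ S, x + y ∈ S) → Sᶜ.Finite → c₀ ≤ cS S →
      (1 - ε) * (cS S : ℝ) ≤ (eS S : ℝ) * nS S :=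
  Bd.wilf_asym ε hε

end Pool.Agent.Lib.MP_299528_co.RetiredWilfAsymptoticAll
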