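import Pool.Agent.Lib.MP_299528_co.Bd.Final

set_option autoImplicit false

namespace Pool.Agent.Lib.MP_299528_co.RetiredWilfBoundedLength

open Pool.Agent.Lib.MP_299528_co

/-- Wilf's inequality (the case `d = 1`) holds exactly for all numerical semigroups of large
conductor in which every sum of `J + 1` nonzero elements lies in `S + m`. -/
theorem result (J : ℕ) :
    ∃ c₀ : ℕ, ∀ (S : Set (Fin 1 → ℕ)) (m : ℕ),
      (0 : Fin 1 → ℕ) ∈ S → (∀ x ∈ S, ∀ y ∈ S, x + y ∈ S) → Sᶜ.Finite →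
      IsLeast {t : ℕ | 0 < t ∧ (Pi.single 0 t : Fin 1 → ℕ) ∈ S} m →
      (∀ w : Fin (J + 1) → Fin 1 → ℕ, (∀ i, w i ∈ S ∧ w i ≠ 0) →
        ∃ s ∈ S, ∑ i, w i = s + Pi.single 0 m) →
      c₀ ≤ cS S → cS S ≤ eS S * nS S :=
  Bd.wilf_length J

end Pool.Agent.Lib.MP_299528_co.RetiredWilfBoundedLength
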