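import Pool.Agent.Lib.MP_299528_co.LogTwo

set_option autoImplicit false

namespace Pool.Agent.Lib.MP_299528_co.RetiredWilfLogTwo

open Pool.Agent.Lib.MP_299528_co

/-- Wilf's inequality up to the constant factor `log 2`, for every numerical semigroup
(the case `d = 1`); `m` is the multiplicity. -/
theorem result (S : Set (Fin 1 → ℕ)) (m : ℕ) (h0 : (0 : Fin 1 → ℕ) ∈ S)
    (hadd : ∀ x ∈ S, ∀ y ∈ S, x + y ∈ S) (hfin : Sᶜ.Finite)
    (hm : IsLeast {t : ℕ | 0 < t ∧ (Pi.single 0 t : Fin 1 → ℕ) ∈ S} m) :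
    Real.log 2 * (cS S : ℝ) ≤ ∑ j ∈ Finset.range m, ((cS S : ℝ) + j) / ((m : ℝ) + j) ∧
      ∑ j ∈ Finset.range m, ((cS S : ℝ) + j) / ((m : ℝ) + j) ≤ (eS S : ℝ) * nS S := by
  refine ⟨?_, harmonic_le h0 hadd hfin hm⟩
  have hm0 : 0 < m := hm.1.1
  refine le_trans (mul_le_mul_of_nonneg_right (log_two_le hm0) (Nat.cast_nonneg _)) ?_
  rw [Finset.sum_mul]
  refine Finset.sum_le_sum (fun j _ => ?_)
  have h1 : (0 : ℝ) < (m : ℝ) + j := by positivity
  rw [one_div_mul_eq_div]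
  exact div_le_div_of_nonneg_right (le_add_of_nonneg_right (Nat.cast_nonneg j)) h1.le

end Pool.Agent.Lib.MP_299528_co.RetiredWilfLogTwo
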