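import Pool.Agent.Lib.MP_299528_co.Asym

set_option autoImplicit false

namespace Pool.Agent.Lib.MP_299528_co.RetiredZhaiGNS

open Pool.Agent.Lib.MP_299528_co

/-- A Zhai type inequality for all generalized numerical semigroups. -/
theorem result (d : ℕ) (S : Set (Fin d → ℕ)) (a : Fin d → ℕ) (h0 : (0 : Fin d → ℕ) ∈ S)
    (hadd : ∀ x ∈ S, ∀ y ∈ S, x + y ∈ S) (hfin : Sᶜ.Finite)
    (ha : ∀ j, IsLeast {t : ℕ | 0 < t ∧ (Pi.single j t : Fin d → ℕ) ∈ S} (a j)) :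
    (d : ℝ) * cS S - (eS S : ℝ) * nS S ≤ ((eS S : ℝ) - d - 1) *
      ((∑ r ∈ Fintype.piFinset (fun j => Finset.range (a j)), (cShift S r : ℝ)) /
        (∏ j, (a j : ℝ)) - cS S) :=
  zhai h0 hadd hfin a ha

end Pool.Agent.Lib.MP_299528_co.RetiredZhaiGNS
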