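import Pool.Agent.Lib.MP_299528_co.FinMain

set_option autoImplicit false

namespace Pool.Agent.Lib.MP_299528_co

open Finset Function

theorem sum_range_div {m : ℕ} (hm : 0 < m) (X : ℕ) : ∑ r ∈ range m, (X + r) / m = X := by
  induction X with
  | zero => exact sum_eq_zero fun r hr => by simpa using Or.inr (mem_range.mp hr)
  | succ X ih =>
    have h1 := sum_range_succ (fun r => (X + r) / m) m
    have h2 := sum_range_succ' (fun r => (X + r) / m) m
    have h3 : ∑ r ∈ range m, (X + 1 + r) / m = ∑ r ∈ range m, (X + (r + 1)) / m :=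
      sum_congr rfl fun r _ => by rw [add_assoc, add_comm 1 r]
    rw [Nat.add_div_right X hm] at h1
    simp only [add_zero] at h2
    omega

theorem two_div {m : ℕ} (hm : 0 < m) (a b : ℕ) : (a + b + 1) / m ≤ a / m + b / m + 1 := by
  refine Nat.le_of_lt_succ ((Nat.div_lt_iff_lt_mul hm).mpr ?_)
  have h1 := Nat.div_add_mod a m
  have h2 := Nat.div_add_mod b m
  have h3 := Nat.mod_lt a hm
  have h4 := Nat.mod_lt b hm
  nlinarith

namespace Tile

variable {ι : Type} [Fintype ι] [DecidableEq ι] (Y : Tile ι)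

/-- The reflected depth in direction `i`. -/
def θ (a : ι → ℕ) (i : ι) : ℕ := (a i * Y.g i + Y.H i a) / Y.m

/-- The depth. -/
def δ (a : ι → ℕ) : ℕ := (Y.T - Y.w a) / Y.m

/-- The target. -/
def tg (a : ι → ℕ) : ℕ := (Y.T + 1 + (Y.T - Y.w a) % Y.m) / Y.m

/-- The carry free height. -/
def hh (a : ι → ℕ) : ℕ := ∑ i, a i * (Y.g i / Y.m)

/-- The income. -/
def X (a : ι → ℕ) : ℕ := ∑ i, Y.θ a i + Y.δ a

theorem sum_θ (i : ι) : ∑ a ∈ Y.A, Y.θ a i = ∑ a ∈ Y.A, Y.δ a := by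
  refine sum_nbij' (fun a => update a i (Y.M i a - a i)) (fun a => update a i (Y.M i a - a i))
    (fun a ha => (Y.mem_line ha i _).mpr (Nat.sub_le _ _))
    (fun a ha => (Y.mem_line ha i _).mpr (Nat.sub_le _ _)) (fun a ha => ?_) (fun a ha => ?_)
    (fun a ha => ?_)
  rotate_left 2
  · have h1 := Y.H_add ha i
    have h2 := Y.w_update a i (Y.M i a)
    have h3 := Y.w_update a i (Y.M i a - a i)
    have h4 : (Y.M i a - a i) * Y.g i + a i * Y.g i = Y.M i a * Y.g i := by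
      rw [← add_mul, Nat.sub_add_cancel (Y.le_M ha i)]
    unfold top at h1
    unfold θ δ
    congr 1
    omega
  all_goals
    have := Y.le_M ha i
    simp only [M_update, update_self, update_idem]
    rw [Nat.sub_sub_self this, update_eq_self]

theorem sum_tg (hm : 0 < Y.m) (hc : #Y.A = Y.m) : ∑ a ∈ Y.A, Y.tg a = Y.T + 1 := by
  have hi : Set.InjOn (fun a => (Y.T - Y.w a) % Y.m) Y.A := fun a ha b hb h => by
    refine Y.inj a ha b hb ?_
    have h1 : ((Y.T - Y.w a : ℕ) : ZMod Y.m) = (Y.T - Y.w b : ℕ) :=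
      (ZMod.natCast_eq_natCast_iff' _ _ _).mpr h
    rw [Nat.cast_sub (Y.w_le ha), Nat.cast_sub (Y.w_le hb)] at h1
    exact sub_right_injective h1
  have he : Y.A.image (fun a => (Y.T - Y.w a) % Y.m) = range Y.m :=
    eq_of_subset_of_card_le (fun r hr => by
      obtain ⟨a, -, rfl⟩ := mem_image.mp hr
      exact mem_range.mpr (Nat.mod_lt _ hm)) (by rw [card_image_of_injOn hi, hc, card_range])
  rw [← sum_range_div hm (Y.T + 1), ← he, sum_image hi]
  rfl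

theorem tg_le (hm : 0 < Y.m) (a : ι → ℕ) : Y.tg a ≤ Y.T / Y.m + 1 := by
  rw [← Nat.add_div_right _ hm]
  have := Nat.mod_lt (Y.T - Y.w a) hm
  exact Nat.div_le_div_right (by omega)

theorem hh_le (a : ι → ℕ) : Y.hh a ≤ Y.w a / Y.m := by
  rcases Nat.eq_zero_or_pos Y.m with h | h
  · simp [hh, h]
  refine (Nat.le_div_iff_mul_le h).mpr ?_
  rw [hh, sum_mul]
  exact sum_le_sum fun i _ => by
    rw [mul_assoc]
    exact Nat.mul_le_mul_left _ (Nat.div_mul_le_self _ _)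

theorem hh_le_X {a b : ι → ℕ} (hb : b ∈ Y.A) (h : a ≤ b) : Y.hh b + Y.δ b ≤ Y.X a := by
  obtain ⟨u, rfl⟩ := exists_add_of_le h
  have h1 : Y.hh (a + u) = Y.hh a + Y.hh u := by simp [hh, add_mul, sum_add_distrib]
  have h2 : Y.hh a ≤ ∑ i, Y.θ a i := sum_le_sum fun i _ =>
    (Nat.mul_div_le_mul_div_assoc _ _ _).trans (Nat.div_le_div_right (Nat.le_add_right _ _))
  have h3 : Y.hh u + Y.δ (a + u) ≤ Y.δ a :=
    (Nat.add_le_add_right (Y.hh_le u) _).trans (Nat.div_add_div_le_add_div.trans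
      (Nat.div_le_div_right (by
        have := Y.w_le hb
        rw [w_add] at this ⊢
        omega)))
  unfold X
  omega

theorem nocarry (hm : 0 < Y.m) {b : ι → ℕ} (hb : b ∈ Y.A)
    (h : ∑ i, b i * (Y.g i % Y.m) ≤ Y.T % Y.m) : Y.T / Y.m ≤ Y.hh b + Y.δ b := by
  have h1 : Y.hh b * Y.m + ∑ i, b i * (Y.g i % Y.m) = Y.w b := by
    rw [hh, sum_mul, ← sum_add_distrib]
    exact sum_congr rfl fun i _ => by rw [mul_assoc, ← mul_add, Nat.div_add_mod']
  have h2 : Y.T / Y.m - Y.hh b ≤ Y.δ b := (Nat.le_div_iff_mul_le hm).mpr (by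
    have := Nat.div_add_mod' Y.T Y.m
    rw [Nat.sub_mul]
    omega)
  omega

omit [Fintype ι] in
theorem upd_single (s : ι) (n k : ℕ) : update (Pi.single s n : ι → ℕ) s k = Pi.single s k := by
  funext j
  by_cases hj : j = s
  · subst hj
    simp
  · simp [hj]

omit [Fintype ι] in
theorem single_le {s : ι} {n : ℕ} {b : ι → ℕ} (h : n ≤ b s) : (Pi.single s n : ι → ℕ) ≤ b :=
  fun j => by
    by_cases hj : j = s
    · subst hj
      simpa using h
    · simp [hj]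

theorem H_top {a : ι → ℕ} {i : ι} (ha : a ∈ Y.A) (h : update a i (a i + 1) ∉ Y.A) :
    Y.H i a = Y.T - Y.w a := by
  rw [H, Y.top_of_Tp (Y.mem_Tp.mpr ⟨ha, h⟩)]

theorem w_single (s : ι) (n : ℕ) : Y.w (Pi.single s n) = n * Y.g s := by
  simp [w, Pi.single_apply]

theorem θ_le (a : ι → ℕ) (i : ι) : Y.θ a i + Y.δ a ≤ Y.X a :=
  Nat.add_le_add_right (single_le_sum (f := Y.θ a) (fun _ _ => Nat.zero_le _) (mem_univ i)) _

theorem X_single {s : ι} {n : ℕ} (ha : Pi.single s n ∈ Y.A) (h : Pi.single s (n + 1) ∉ Y.A) :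
    Y.T / Y.m + Y.δ (Pi.single s n) ≤ Y.X (Pi.single s n) := by
  refine le_trans (le_of_eq ?_) (Y.θ_le _ s)
  have h1 := Y.w_le ha
  rw [θ, Y.H_top ha (by simpa [upd_single] using h)]
  rw [w_single] at h1
  rw [Pi.single_eq_same, w_single, Nat.add_sub_cancel' h1]

theorem size_cases (a : ι → ℕ) : a = 0 ∨ (∃ s, a = Pi.single s 1) ∨
    (∃ s t, a = Pi.single s 1 + Pi.single t 1) ∨
    ∃ s t u, Pi.single s 1 + Pi.single t 1 + Pi.single u 1 ≤ a := by
  have key : ∀ b : ι → ℕ, b ≠ 0 → ∃ s c, b = Pi.single s 1 + c := fun b hb => by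
    obtain ⟨s, hs⟩ := ne_iff.mp hb
    obtain ⟨c, hc⟩ := exists_add_of_le (single_le (Nat.pos_of_ne_zero hs))
    exact ⟨s, c, hc⟩
  by_cases h0 : a = 0
  · exact Or.inl h0
  obtain ⟨s, b, rfl⟩ := key a h0
  by_cases h1 : b = 0
  · exact Or.inr (Or.inl ⟨s, by simp [h1]⟩)
  obtain ⟨t, c, rfl⟩ := key b h1
  by_cases h2 : c = 0
  · exact Or.inr (Or.inr (Or.inl ⟨s, t, by simp [h2]⟩))
  obtain ⟨u, d, rfl⟩ := key c h2
  exact Or.inr (Or.inr (Or.inr ⟨s, t, u, by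
    rw [← add_assoc, ← add_assoc]
    exact le_self_add⟩))

theorem point (hm : 0 < Y.m)
    (h3 : ∀ b ∈ Y.A, 3 ≤ ∑ i, b i → ∑ i, b i * (Y.g i % Y.m) ≤ Y.T % Y.m)
    {a : ι → ℕ} (ha : a ∈ Y.A) :
    Y.tg a ≤ Y.X a + 1 ∨ (Y.tg a ≤ Y.X a + 2 ∧ 2 • a ∈ Y.A ∧ Y.tg (2 • a) ≤ Y.X (2 • a)) := by
  have ht := Y.tg_le hm a
  have k3 : ∀ s t u b, b ∈ Y.A → Pi.single s 1 + Pi.single t 1 + Pi.single u 1 ≤ b → a ≤ b →
      Y.tg a ≤ Y.X a + 1 := fun s t u b hb h h' => by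
    have h1 := Y.nocarry hm hb (h3 b hb (le_trans (by simp [sum_add_distrib])
      (sum_le_sum fun i _ => h i)))
    have h2 := Y.hh_le_X hb h'
    omega
  have e2 : ∀ s : ι, (Pi.single s 1 + Pi.single s 1 : ι → ℕ) = Pi.single s 2 := fun s => by
    rw [← Pi.single_add]
  have e3 : ∀ s : ι, (Pi.single s 1 + Pi.single s 1 + Pi.single s 1 : ι → ℕ) = Pi.single s 3 :=
    fun s => by rw [← Pi.single_add, ← Pi.single_add]
  rcases size_cases a with rfl | ⟨s, rfl⟩ | ⟨s, t, rfl⟩ | ⟨s, t, u, h⟩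
  · refine Or.inl (ht.trans (Nat.succ_le_succ (le_trans ?_ (Nat.le_add_left _ _))))
    simp [δ, w]
  · by_cases h2 : Pi.single s 2 ∈ Y.A
    swap
    · have := Y.X_single ha h2
      omega
    by_cases h4 : Pi.single s 3 ∈ Y.A
    · exact Or.inl (k3 s s s _ h4 (e3 s).le (single_le (by simp)))
    have h5 := Y.X_single h2 h4
    have h6 := Y.w_le h2
    have h7 : Y.M s (Pi.single s 1) = 2 := by
      have k1 := (Y.mem_line ha s 2).mp (by rwa [upd_single])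
      have k2 := (Y.mem_line ha s 3).not.mp (by rwa [upd_single])
      omega
    have h8 : Y.θ (Pi.single s 1) s = Y.δ (Pi.single s 1) := by
      rw [w_single] at h6
      rw [θ, δ, H, top, h7, upd_single, w_single, w_single, Pi.single_eq_same]
      congr 1
      omega
    have h9 := Y.θ_le (Pi.single s 1) s
    rw [two_nsmul, e2]
    rw [h8] at h9
    rw [w_single] at h6
    have k1 := two_div hm (Y.T - 1 * Y.g s) (Y.T - 1 * Y.g s)
    have k2 : Y.T / Y.m ≤ (Y.T - 1 * Y.g s + (Y.T - 1 * Y.g s) + 1) / Y.m :=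
      Nat.div_le_div_right (by omega)
    simp only [δ, w_single] at h9
    by_cases k4 : Y.T / Y.m ≤ 2 * ((Y.T - 1 * Y.g s) / Y.m)
    · omega
    refine Or.inr ⟨by omega, h2, le_trans ?_ ((Nat.le_add_right _ _).trans h5)⟩
    refine Nat.le_of_lt_succ ((Nat.div_lt_iff_lt_mul hm).mpr ?_)
    have k5 := Nat.mod_le (Y.T - Y.w (Pi.single s 2)) Y.m
    have k9 := Y.w_single s 2
    have k6 := Nat.div_add_mod (Y.T - 1 * Y.g s) Y.m
    have k7 := Nat.mod_lt (Y.T - 1 * Y.g s) hm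
    have k8 : Y.m * (2 * ((Y.T - 1 * Y.g s) / Y.m) + 1) ≤ Y.m * (Y.T / Y.m) :=
      Nat.mul_le_mul_left _ (by omega)
    rw [Nat.succ_mul (Y.T / Y.m), mul_comm (Y.T / Y.m)]
    rw [mul_add, mul_left_comm] at k8
    omega
  · refine Or.inl ?_
    by_cases hi : ∃ i, Pi.single s 1 + Pi.single t 1 + Pi.single i 1 ∈ Y.A
    · obtain ⟨i, hi⟩ := hi
      exact k3 s t i _ hi le_rfl le_self_add
    by_cases hst : s = t
    · subst hst
      rw [e2] at *
      have := Y.X_single ha fun h => hi ⟨s, by rwa [← Pi.single_add]⟩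
      omega
    have h1 : ∀ i, Y.H i (Pi.single s 1 + Pi.single t 1) =
        Y.T - Y.w (Pi.single s 1 + Pi.single t 1) := fun i => Y.H_top ha fun h => hi ⟨i, by
      convert h using 1
      funext j
      by_cases hj : j = i
      · subst hj
        simp
      · simp [hj]⟩
    have h2 : ∑ i ∈ {s, t}, Y.θ (Pi.single s 1 + Pi.single t 1) i ≤
        Y.X (Pi.single s 1 + Pi.single t 1) :=
      (sum_le_sum_of_subset (subset_univ _)).trans (Nat.le_add_right _ _)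
    have h4 := Y.w_le ha
    have h5 := Nat.mod_le (Y.T - Y.w (Pi.single s 1 + Pi.single t 1)) Y.m
    rw [sum_pair hst, θ, θ, h1, h1] at h2
    refine le_trans ?_ (Nat.succ_le_succ h2)
    refine le_trans (Nat.div_le_div_right ?_) (two_div hm _ _)
    simp only [w_add, w_single, Pi.add_apply, Pi.single_eq_same, Pi.single_eq_of_ne hst,
      Pi.single_eq_of_ne (Ne.symm hst), add_zero, zero_add, one_mul] at h4 h5 ⊢
    omega
  · exact Or.inl (k3 s t u a ha h le_rfl)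

theorem short (hm : 0 < Y.m) (hc : #Y.A = Y.m)
    (h3 : ∀ b ∈ Y.A, 3 ≤ ∑ i, b i → ∑ i, b i * (Y.g i % Y.m) ≤ Y.T % Y.m) :
    Y.T + 1 ≤ (Fintype.card ι + 1) * ∑ a ∈ Y.A, Y.δ a + Y.m := by
  set E := Y.A.filter fun a => ¬Y.tg a ≤ Y.X a + 1 with hE
  have h1 : ∀ a ∈ E, Y.tg a ≤ Y.X a + 2 ∧ 2 • a ∈ Y.A ∧ Y.tg (2 • a) ≤ Y.X (2 • a) := fun a ha =>
    (Y.point hm h3 (mem_filter.mp ha).1).resolve_left (mem_filter.mp ha).2
  set F := E.image fun a => 2 • a with hF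
  have h2 : #F = #E := card_image_of_injective _ (nsmul_right_injective two_ne_zero)
  have h4 : F ⊆ Y.A := fun b hb => by
    obtain ⟨a, ha, rfl⟩ := mem_image.mp hb
    exact (h1 a ha).2.1
  have h5 : ∑ a ∈ Y.A, (Y.tg a + if a ∈ F then 1 else 0) ≤
      ∑ a ∈ Y.A, (Y.X a + 1 + if a ∈ E then 1 else 0) := sum_le_sum fun a ha => by
    by_cases k1 : a ∈ F
    · obtain ⟨b, hb, rfl⟩ := mem_image.mp k1
      have := (h1 b hb).2.2
      rw [if_pos k1]
      omega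
    · by_cases k2 : a ∈ E
      · have := (h1 a k2).1
        rw [if_neg k1, if_pos k2]
        omega
      · have : Y.tg a ≤ Y.X a + 1 := by_contra fun h => k2 (mem_filter.mpr ⟨ha, h⟩)
        rw [if_neg k1]
        omega
  have h6 : ∑ a ∈ Y.A, Y.X a = (Fintype.card ι + 1) * ∑ a ∈ Y.A, Y.δ a := by
    simp only [X]
    rw [sum_add_distrib, sum_comm, sum_congr rfl fun i _ => Y.sum_θ i, sum_const, card_univ,
      smul_eq_mul, add_mul, one_mul]
  simp only [sum_add_distrib, sum_ite_mem, sum_const, smul_eq_mul, mul_one] at h5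
  rw [inter_eq_right.mpr h4, inter_eq_right.mpr (show E ⊆ Y.A from filter_subset _ _), Y.sum_tg hm hc, h6, hc] at h5
  omega

end Tile

namespace Sys

variable (Y : Sys)

theorem sum_δ : ∑ a ∈ Y.tile.A, Y.tile.δ a = Y.NN := by
  refine (sum_image Y.V_injOn).trans (sum_congr rfl fun x hx => ?_)
  have h1 := Y.deg' (Y.win x)
  have h2 := mem_range.mp hx
  show (Y.c + Y.m - 1 - ∑ g : Y.G, Y.V (Y.c + x) g * g) / Y.m = _
  refine (Nat.div_eq_iff Y.hm).mpr ?_
  omega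

theorem apery (x s : ℕ) (hs : s ∈ Y.S) : s + Y.m ≠ ∑ g ∈ Y.G, Y.a (Y.c + x) g * g := fun h => by
  have h1 := Y.deg _ (Y.win x)
  have h2 := Y.deg s hs
  have h3 := (Y.lift' hs (Y.a (Y.c + x) Y.m + 1)).2
  have h4 : s + (Y.a (Y.c + x) Y.m + 1) * Y.m = Y.c + x := by
    rw [add_mul]
    omega
  rw [h4] at h3
  have h5 : ∑ g ∈ Y.G, Y.a (Y.c + x) g * g = ∑ g ∈ Y.G, Y.a s g * g :=
    sum_congr rfl fun g hg => by rw [show Y.a (Y.c + x) g = Y.a s g from congrFun h3 ⟨g, hg⟩]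
  have := Y.hm
  omega

theorem short (h : ∀ a : ℕ → ℕ, 3 ≤ ∑ g ∈ Y.G, a g → (∀ s ∈ Y.S, s + Y.m ≠ ∑ g ∈ Y.G, a g * g) →
    ∑ g ∈ Y.G, a g * (g % Y.m) ≤ (Y.c + Y.m - 1) % Y.m) : Y.c ≤ (#Y.G + 1) * Y.NN := by
  have h1 := Y.tile.short Y.hm Y.card_tile fun b hb h3 => by
    obtain ⟨x, -, rfl⟩ := mem_image.mp hb
    have := h (Y.a (Y.c + x)) (by rwa [← sum_coe_sort Y.G]) (Y.apery x)
    rwa [← sum_coe_sort Y.G] at this
  rw [sum_δ, Fintype.card_coe] at h1
  have h2 : Y.tile.T = Y.c + Y.m - 1 := rfl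
  have h3 : Y.tile.m = Y.m := rfl
  have := Y.hm
  omega

end Sys

open Classical in
theorem exists_sys2 {S : Set (Fin 1 → ℕ)} (h0 : (0 : Fin 1 → ℕ) ∈ S)
    (hadd : ∀ x ∈ S, ∀ y ∈ S, x + y ∈ S) (hfin : Sᶜ.Finite) {m : ℕ}
    (hm : IsLeast {t : ℕ | 0 < t ∧ (Pi.single 0 t : Fin 1 → ℕ) ∈ S} m) :
    ∃ Y : Sys, Y.m = m ∧ Y.c = cS S ∧ Y.G.card + 1 = eS S ∧
      ((range Y.c).filter (fun t => t ∈ Y.S)).card = nS S ∧ Y.S = {s | pt s ∈ S} ∧
      ∀ g ∈ Y.G, pt g ∈ Gen S := by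
  set T : Finset ℕ := (gen_finite hfin).toFinset.image (fun x => x 0) with hT
  have hTm : ∀ g, g ∈ T ↔ pt g ∈ Gen S := by
    intro g
    simp only [hT, mem_image, Set.Finite.mem_toFinset]
    exact ⟨fun ⟨x, hx, h⟩ => by rw [← h, pt_eq]; exact hx, fun h => ⟨_, h, rfl⟩⟩
  have hpos : ∀ g ∈ T, 0 < g := by
    intro g hg
    by_contra h
    exact ((hTm g).mp hg).2.1 (ext_one (by simpa [pt] using h))
  have hmT : m ∈ T := (hTm m).mpr (single_eq_pt m ▸ axis_gen hm)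
  have hmin : ∀ g ∈ T, m ≤ g := fun g hg =>
    hm.2 ⟨hpos g hg, by rw [single_eq_pt]; exact ((hTm g).mp hg).1⟩
  have hcard : T.card = eS S := by
    rw [hT, card_image_of_injective _ (fun x y h => ext_one h)]
    exact (Set.ncard_eq_toFinset_card _ (gen_finite hfin)).symm
  have hmem : ∀ s, (Fac T s).Nonempty ↔ pt s ∈ S := by
    intro s
    constructor
    · rintro ⟨f, -, hf⟩
      have key : ∀ T' : Finset ℕ, T' ⊆ T → pt (∑ g ∈ T', f g * g) ∈ S := by
        intro T'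
        induction T' using Finset.induction_on with
        | empty => intro _; exact h0
        | insert g T' hg ih =>
          intro hsub
          rw [sum_insert hg]
          have e : pt (f g * g + ∑ g ∈ T', f g * g) = f g • pt g + pt (∑ g ∈ T', f g * g) :=
            ext_one (by simp [pt])
          rw [e]
          exact hadd _ (nsmul_mem' h0 hadd ((hTm g).mp (hsub (mem_insert_self _ _))).1 _) _
            (ih ((subset_insert _ _).trans hsub))
      exact hf ▸ key T subset_rfl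
    · intro hs
      refine gen_induction (S := S) (fun y => (Fac T (y 0)).Nonempty) ⟨0, by simp [Fac]⟩
        (fun g hg => ⟨_, Fac_single ((hTm _).mpr (by rwa [pt_eq]))⟩)
        (fun p _ q _ ⟨f, hf⟩ ⟨h, hh⟩ => ⟨_, Fac_add hf hh⟩) (pt s) hs
  obtain ⟨a, ha1, ha2, ha3⟩ := exists_std hpos hmT hmin
  refine ⟨⟨m, cS S, T.erase m, {s | pt s ∈ S}, fun s g => a s g, hm.1.1, ?_, ?_, ?_, ?_, ?_⟩,
    rfl, rfl, ?_, ?_, rfl, fun g hg => (hTm g).mp (mem_of_mem_erase hg)⟩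
  · intro g hg
    exact lt_of_le_of_ne (hmin g (mem_of_mem_erase hg)) (ne_of_mem_erase hg).symm
  · intro s hs
    have := (ha1 s ((hmem s).mpr hs)).2
    rw [← add_sum_erase T _ hmT] at this
    exact this.symm
  · intro u hu g hg
    obtain ⟨k1, k2, k3⟩ := ha2 u ((hmem u).mpr hu) g hg
    refine ⟨k1, (hmem _).mp k2, ?_, fun h hh => ?_⟩
    · conv_rhs => rw [k3]
      simp
    · conv_rhs => rw [k3]
      simp [Finsupp.single_apply, hh.symm]
  · intro s hs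
    refine ⟨?_, fun h hh => ?_⟩
    · have e : pt (s + m) = pt s + pt m := ext_one (by simp [pt])
      show pt (s + m) ∈ S
      rw [e]
      exact hadd _ hs _ ((hTm m).mp hmT).1
    · show a (s + m) h = a s h
      rw [ha3 s ((hmem s).mpr hs)]
      simp [Finsupp.single_apply, hh.symm]
  · intro u hu
    exact mem_of_cS_le hfin hu
  · show (T.erase m).card + 1 = eS S
    rw [card_erase_add_one hmT, hcard]
  · rw [nS_one hfin]
    rfl

theorem wilf_short {S : Set (Fin 1 → ℕ)} (h0 : (0 : Fin 1 → ℕ) ∈ S)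
    (hadd : ∀ x ∈ S, ∀ y ∈ S, x + y ∈ S) (hfin : Sᶜ.Finite) {m : ℕ}
    (hm : IsLeast {t : ℕ | 0 < t ∧ (Pi.single 0 t : Fin 1 → ℕ) ∈ S} m)
    (h : ∀ (P : Finset (Fin 1 → ℕ)) (a : (Fin 1 → ℕ) → ℕ),
      (∀ g ∈ P, g ∈ S ∧ g ≠ 0 ∧ ∀ x ∈ S, ∀ y ∈ S, x + y = g → x = 0 ∨ y = 0) →
      3 ≤ ∑ g ∈ P, a g → (∀ x ∈ S, x 0 + m ≠ ∑ g ∈ P, a g * g 0) →
      ∑ g ∈ P, a g * (g 0 % m) ≤ (cS S + m - 1) % m) : cS S ≤ eS S * nS S := by
  classical
  obtain ⟨Y, e1, e2, e3, e4, e5, e6⟩ := exists_sys2 h0 hadd hfin hm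
  rw [← e2, ← e1] at h
  rw [← e2, ← e3, ← e4]
  refine (Y.short fun a k1 k2 => ?_).trans (Nat.mul_le_mul_left _ Y.NN_le)
  have := h (Y.G.image pt) (fun g => a (g 0)) (fun g hg => by
    obtain ⟨t, ht, rfl⟩ := mem_image.mp hg
    exact e6 t ht)
  simp only [sum_image pt_inj.injOn, pt_zero] at this
  exact this k1 fun x hx => k2 _ (by rw [e5]; show pt (x 0) ∈ S; rwa [pt_eq])

end Pool.Agent.Lib.MP_299528_co
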